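import Pool.Agent.KSS.St

/-!
# KSS, module S5: vanishing on open sets and zero classes
-/

set_option autoImplicit false

noncomputable section

namespace Pool.Agent.KSS

open CategoryTheory AlgebraicGeometry TopologicalSpace Function Pool.Agent.Helper11

variable {X : Scheme.{0}}

/-- local separatedness -/
theorem s5_sep (M : X.Modules) (W : X.Opens) (s : Γ(M, W))
    (h : ∀ x ∈ W, ∃ V : X.Opens, ∃ hV : V ≤ W, x ∈ V ∧ rM M hV s = 0) : s = 0 := by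
  refine TopCat.Presheaf.IsSheaf.section_ext M.isSheaf fun x hx => ?_
  obtain ⟨V, hV, hxV, h0⟩ := h x hx
  refine ⟨V, hV, hxV, ?_⟩
  exact h0.trans (map_zero (rM M hV)).symm

theorem s5_unit {U : X.Opens} (f : Γ(X, U)) : IsUnit (rO (X.basicOpen_le f) f) :=
  RingedSpace.isUnit_res_basicOpen X.toRingedSpace f

theorem s5_basic (M : X.Modules) (hM : QLoc M) (U : X.Opens) (hU : IsAffineOpen U)
    (h0 : ∀ s : Γ(M, U), s = 0) (f : Γ(X, U)) (s : Γ(M, X.basicOpen f)) : s = 0 := by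
  obtain ⟨n, t, ht⟩ := (hM U hU f).1 s
  rw [h0 t, map_zero] at ht
  obtain ⟨u, hu⟩ := (s5_unit f).pow n
  rw [← hu] at ht
  have h1 : s = (↑u⁻¹ : Γ(X, X.basicOpen f)) • ((u : Γ(X, X.basicOpen f)) • s) := by
    rw [smul_smul, Units.inv_mul, one_smul]
  rw [h1, ← ht, smul_zero]

theorem s5_van (h2 : St_S2) (M : X.Modules) (U : X.Opens) (hM : M.IsQuasicoherent)
    (hU : IsAffineOpen U) (h0 : ∀ s : Γ(M, U), s = 0) : Van U M := by
  intro W hW _ s
  refine s5_sep M W s fun x hx => ?_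
  obtain ⟨f, hf, hxf⟩ := hU.exists_basicOpen_le ⟨x, hx⟩ (hW hx)
  exact ⟨X.basicOpen f, hf, hxf, s5_basic M ((h2 X M).1 hM) U hU h0 f _⟩

theorem s5_sup (M : X.Modules) (O U : X.Opens) (h1 : Van O M) (h2 : Van U M) :
    Van (O ⊔ U) M := by
  intro W hW _ s
  refine s5_sep M W s fun x hx => ?_
  rcases hW hx with h | h
  · obtain ⟨V, hV, hxV, hVW⟩ := exists_isAffineOpen_mem_and_subset (U := W ⊓ O) ⟨hx, h⟩
    exact ⟨V, fun y hy => (hVW hy).1, hxV, h1 V (fun y hy => (hVW hy).2) hV _⟩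
  · obtain ⟨V, hV, hxV, hVW⟩ := exists_isAffineOpen_mem_and_subset (U := W ⊓ U) ⟨hx, h⟩
    exact ⟨V, fun y hy => (hVW hy).1, hxV, h2 V (fun y hy => (hVW hy).2) hV _⟩

theorem s5_bot (M : X.Modules) : Van ⊥ M := by
  intro W hW _ s
  exact s5_sep M W s fun x hx => (hW hx).elim

theorem s5_cl (h1 : St_S1) (M : X.Modules) (h : IsCoh M) (hv : Van ⊤ M) : cl M h = 0 := by
  have h0 : ∀ U : X.Opens, IsAffineOpen U → ∀ s : Γ(M, U), s = 0 :=
    fun U hU s => hv U le_top hU s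
  have hS : (ShortComplex.mk (0 : M ⟶ M) (0 : M ⟶ M) (by simp)).ShortExact := by
    refine (h1 X).2.2.2.2 _ (fun U hU => ?_) (fun U hU s _ => ?_) (fun U hU s => ?_)
    · intro s t _
      exact (h0 U hU s).trans (h0 U hU t).symm
    · exact ⟨0, (h0 U hU _).trans (h0 U hU _).symm⟩
    · exact ⟨0, (h0 U hU _).trans (h0 U hU _).symm⟩
  have h2 := cl_add _ hS h h h
  exact left_eq_add.mp h2

theorem s5_zero (h2 : St_S2) : ∃ Z : X.Modules, IsCoh Z ∧ Van ⊤ Z := by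
  obtain ⟨Z, hZ⟩ := Limits.HasZeroObject.zero (C := X.Modules)
  have h0 : ∀ (U : X.Opens) (s : Γ(Z, U)), s = 0 := by
    intro U s
    have h3 : 𝟙 Z = 0 := hZ.eq_of_src _ _
    have h4 : ap (𝟙 Z) U s = ap (0 : Z ⟶ Z) U s := by rw [h3]
    exact h4
  refine ⟨Z, ⟨(h2 X Z).2 fun U hU f => ⟨fun s => ⟨0, 0, ?_⟩, fun t _ => ⟨0, h0 _ _⟩⟩,
    fun U hU => ?_⟩, fun W _ _ s => h0 W s⟩
  · exact (h0 _ _).trans (h0 _ _).symm
  · have : Subsingleton Γ(Z, U) := ⟨fun a b => (h0 U a).trans (h0 U b).symm⟩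
    infer_instance

theorem thm_S5 (h1 : St_S1) (h2 : St_S2) : St_S5 := fun _ =>
  ⟨fun M U hM hU h0 => s5_van h2 M U hM hU h0, fun M O U => s5_sup M O U, s5_bot,
    fun M h hv => s5_cl h1 M h hv, s5_zero h2⟩

end Pool.Agent.KSS
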