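import Mathlib

/-!
# KSS: the group `K'₀(X)` of a noetherian scheme, schemes filtered by additive-quadratic
varieties, and the class of `k`-schemes generated by them: definitions
-/

set_option autoImplicit false

namespace Pool.Agent.KSS

open CategoryTheory AlgebraicGeometry

/-! ### coherent sheaves and `K'₀(X)` -/

/-- A sheaf of modules `M` on the (locally noetherian) scheme `X` is coherent: it is
quasi-coherent, and its module of sections over each affine open subset is finitely generated. -/
def IsCoh {X : Scheme.{0}} (M : X.Modules) : Prop :=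
  M.IsQuasicoherent ∧ ∀ U : X.Opens, IsAffineOpen U → Module.Finite Γ(X, U) Γ(M, U)

/-- The relations `[M] = [M'] + [M'']` of `K'₀(X)`, for the short exact sequences
`0 → M' → M → M'' → 0` of coherent sheaves. -/
def KRel (X : Scheme.{0}) : Set (FreeAbelianGroup {M : X.Modules // IsCoh M}) :=
  {z | ∃ (S : ShortComplex X.Modules) (h₁ : IsCoh S.X₁) (h₂ : IsCoh S.X₂) (h₃ : IsCoh S.X₃),
    S.ShortExact ∧ z = FreeAbelianGroup.of ⟨S.X₂, h₂⟩ - FreeAbelianGroup.of ⟨S.X₁, h₁⟩ -
      FreeAbelianGroup.of ⟨S.X₃, h₃⟩}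

/-- `K'₀(X)`: the Grothendieck group of the abelian category of coherent sheaves on `X`. -/
def K0 (X : Scheme.{0}) : Type 1 :=
  FreeAbelianGroup {M : X.Modules // IsCoh M} ⧸ AddSubgroup.closure (KRel X)

noncomputable instance (X : Scheme.{0}) : AddCommGroup (K0 X) :=
  (inferInstance : AddCommGroup
    (FreeAbelianGroup {M : X.Modules // IsCoh M} ⧸ AddSubgroup.closure (KRel X)))

/-- The degree of the residue field extension at the point `y` of `Y`. -/
noncomputable def resDeg {X Y : Scheme.{0}} (f : Y ⟶ X) (y : Y) : ℕ :=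
  letI := (f.residueFieldMap y).hom.toAlgebra
  Module.finrank (X.residueField (f y)) (Y.residueField y)

/-! ### additive-quadratic varieties -/

open MvPolynomial in
/-- The coordinate ring `k[y₁, …, y_s, x₁, …, x_n] / (A_i(y_i) - f_i(x))`, where
`A_i(y) = ∏_{h ∈ H_i} (y - h)`. -/
abbrev AQRing {k : Type} [Field k] {s n : ℕ} (H : Fin s → AddSubgroup k)
    (f : Fin s → MvPolynomial (Fin n) k) : Type :=
  MvPolynomial (Fin s ⊕ Fin n) k ⧸ Ideal.span (Set.range fun i =>
    (∏ᶠ a : H i, (X (Sum.inl i) - C (a : k))) - rename Sum.inr (f i))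

/-- The `k`-algebra `V` is isomorphic to the coordinate ring `k[y, x] / (A_i(y_i) - f_i(x))` of an
additive-quadratic variety: the `A_i` are the polynomials `∏_{h ∈ H_i} (y - h)` of additive
subgroups `H_i` of `k`, and the `f_i` are linear combinations of monomials `1`, `x_j ^ (p ^ a)`,
`x_j ^ (p ^ a) x_l ^ (p ^ b)`. -/
def IsAQk (p : ℕ) (k : Type) [Field k] (V : Type) [CommRing V] [Algebra k V] : Prop :=
  ∃ (s n : ℕ) (H : Fin s → AddSubgroup k) (f : Fin s → MvPolynomial (Fin n) k),
    (∀ i, ∀ d ∈ (f i).support, d = 0 ∨ (∃ j a, d = Finsupp.single j (p ^ a)) ∨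
      ∃ j l a b, d = Finsupp.single j (p ^ a) + Finsupp.single l (p ^ b)) ∧
    Nonempty (V ≃ₐ[k] AQRing H f)

/-- `AQFilK p k Y π T`: the closed subset `T` of the `k`-scheme `Y` has a finite filtration by closed
subsets `∅ = T₀ ⊆ T₁ ⊆ … ⊆ T_r = T` such that `T_i ∖ T_(i-1)` is a closed subset of an affine open
subscheme `U_i` of `Y ∖ T_(i-1)` and, with a suitable structure of closed subscheme of `U_i`,
`k`-isomorphic to an additive-quadratic variety over `k`. -/
inductive AQFilK (p : ℕ) (k : Type) [Field k] (Y : Scheme.{0})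
    (π : Y ⟶ Spec (CommRingCat.of k)) : Set Y → Prop
  | empty : AQFilK p k Y π ∅
  | step (T T' : Set Y) (hT : IsClosed T) (hT' : IsClosed T') (U : Y.Opens) (hU : IsAffineOpen U)
      (V : Type) [CommRing V] [Algebra k V] (hV : IsAQk p k V)
      (i : Spec (CommRingCat.of V) ⟶ U.toScheme) [IsClosedImmersion i]
      (hi : i ≫ U.ι ≫ π = Spec.map (CommRingCat.ofHom (algebraMap k V)))
      (hTT' : T ⊆ T') (hTU : T ∩ U = ∅) (hr : T' \ T = Set.range (i ≫ U.ι))
      (h : AQFilK p k Y π T) : AQFilK p k Y π T'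

/-! ### projective space and the class -/

attribute [local instance] MvPolynomial.gradedAlgebra

/-- projective space `Proj k[x_0, …, x_(n-1)]` -/
noncomputable abbrev PP (k : Type) [Field k] (n : ℕ) : Scheme.{0} :=
  Proj (MvPolynomial.homogeneousSubmodule (Fin n) k)

/-- the structure morphism -/
noncomputable def PPπ (k : Type) [Field k] (n : ℕ) : PP k n ⟶ Spec (CommRingCat.of k) :=
  Proj.toSpecZero (MvPolynomial.homogeneousSubmodule (Fin n) k) ≫
    Spec.map (CommRingCat.ofHom
      (algebraMap k (MvPolynomial.homogeneousSubmodule (Fin n) k 0)))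

/-- the zero locus of a polynomial -/
def ZL {k : Type} [Field k] {n : ℕ} (F : MvPolynomial (Fin n) k) : Set (PP k n) :=
  {x | F ∈ x.asHomogeneousIdeal}

/-- The smallest class of `k`-schemes which contains
* the `k`-schemes with a filtration by additive-quadratic varieties,
* the closed subschemes of projective spaces `ℙ^(n-1)` over `k` whose underlying set is the Fermat
  hypersurface `∑ x_j ^ (q + 1) = 0`, `q = p ^ m`, if `k` contains `q ^ 2` elements,
and is closed under fibre products over `k`. -/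
inductive Src (p : ℕ) (k : Type) [Field k] : (Y : Scheme.{0}) →
    (Y ⟶ Spec (CommRingCat.of k)) → Prop
  | fil (Y : Scheme.{0}) (π : Y ⟶ Spec (CommRingCat.of k)) (h : AQFilK p k Y π Set.univ) :
      Src p k Y π
  | fermat (m n t : ℕ) (hm : 1 ≤ m) (hk : Nat.card k = (p ^ m) ^ (2 * t)) (Z : Scheme.{0})
      (i : Z ⟶ PP k n) [IsClosedImmersion i]
      (hi : Set.range i = ZL (∑ j, MvPolynomial.X j ^ (p ^ m + 1))) : Src p k Z (i ≫ PPπ k n)
  | prod (Y Y' : Scheme.{0}) (π : Y ⟶ Spec (CommRingCat.of k))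
      (π' : Y' ⟶ Spec (CommRingCat.of k)) (h : Src p k Y π) (h' : Src p k Y' π') :
      Src p k (Limits.pullback π π') (Limits.pullback.fst π π' ≫ π)

end Pool.Agent.KSS
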