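import Pool.Agent.KSS.St

/-!
# KSS, module Fin: the theorem
-/

set_option autoImplicit false

noncomputable section

namespace Pool.Agent.KSS

open CategoryTheory AlgebraicGeometry TopologicalSpace Function Pool.Agent.Helper11

theorem thm_Fin (t1 : St_T1) (t3 : St_T3) : St_Fin := by
  intro p _ X π _ _ _ J _ Y f _ hY N hN
  have hX : IsLocallyNoetherian X := LocallyOfFiniteType.isLocallyNoetherian π
  have hsep : X.IsSeparated := ⟨by
    have := (inferInstance : IsSeparated (π ≫ Limits.terminal.from _))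
    rwa [Limits.terminal.comp_from] at this⟩
  obtain ⟨fs, e, he⟩ := t3 p X π J Y f N hN
  have hgood : ∀ j, ∃ G : AddSubgroup (K0 (Y j)), G.FG ∧ ∃ e : ℕ, ∀ x : K0 (Y j),
      p ^ e • x ∈ G := by
    intro j
    have h1 : IsLocallyNoetherian (Y j) := LocallyOfFiniteType.isLocallyNoetherian (f j)
    have h2 : (Y j).IsSeparated := ⟨by
      have := (inferInstance : IsSeparated (f j ≫ Limits.terminal.from _))
      rwa [Limits.terminal.comp_from] at this⟩
    exact t1 p (Y j) (hY j)
  choose G hG d hd using hgood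
  cases nonempty_fintype J
  let D := Finset.univ.sup d
  have hle : (⨆ j, (fs j).range) ≤
      (⨆ j, (G j).map (fs j)).comap (nsmulAddMonoidHom (p ^ D)) := by
    refine iSup_le fun j => ?_
    rintro _ ⟨y, rfl⟩
    show p ^ D • fs j y ∈ ⨆ j, (G j).map (fs j)
    have h1 : d j ≤ D := Finset.le_sup (Finset.mem_univ j)
    have h2 : p ^ D • fs j y = p ^ (D - d j) • fs j (p ^ d j • y) := by
      rw [map_nsmul, ← mul_smul, ← pow_add, Nat.sub_add_cancel h1]
    rw [h2]
    have h3 : fs j (p ^ d j • y) ∈ (G j).map (fs j) := ⟨_, hd j y, rfl⟩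
    exact AddSubgroup.nsmul_mem _
      (AddSubgroup.mem_iSup_of_mem (S := fun j => (G j).map (fs j)) j h3) _
  refine ⟨⨆ j, (G j).map (fs j), AddSubgroup.FG.iSup _
    (fun j => Pool.Agent.HPow.cl_fg_map _ (hG j)), D + e, fun x => ?_⟩
  have h4 : p ^ D • (N ^ e • x) ∈ ⨆ j, (G j).map (fs j) := hle (he x)
  have h5 : (p * N) ^ (D + e) • x = (p ^ e * N ^ D) • (p ^ D • (N ^ e • x)) := by
    rw [← mul_smul, ← mul_smul]
    congr 1
    ring
  rw [h5]
  exact AddSubgroup.nsmul_mem _ h4 _

end Pool.Agent.KSS
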