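import Pool.Agent.KSS.St

/-!
# KSS, module K1: comparison of classes along a morphism which is bijective over `U`
-/

set_option autoImplicit false

noncomputable section

namespace Pool.Agent.KSS

open CategoryTheory AlgebraicGeometry TopologicalSpace Function Pool.Agent.Helper11

theorem thm_K1 (h4 : St_S4) (h5 : St_S5) : St_K1 := by
  intro X _ O U P F hP hF u hU hPO hFO hu
  obtain ⟨K, I, ι, π, κ, w, hK, hI, hS, hπκ, hκ, hπ, hι, hker⟩ := (h4 X).1 P F u hP hF.1
  obtain ⟨C, ρ, w', hC, hS', hρ, hker'⟩ := (h4 X).2.1 I F κ hI hF hκ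
  have e1 : cl P hP = cl K hK + cl I hI := cl_add _ hS hK hP hI
  have e2 : cl F hF = cl I hI + cl C hC := cl_add _ hS' hI hF hC
  have hKO : Van O K := by
    intro W hW ha s
    refine hι W ?_
    rw [hPO W hW ha (ap ι W s), map_zero]
  have hCO : Van O C := by
    intro W hW ha s
    obtain ⟨t, rfl⟩ := hρ W ha s
    rw [hFO W hW ha t, map_zero]
  have hKU : Van U K := by
    refine (h5 X).1 K U hK.1 hU fun s => ?_
    refine hι U ?_
    refine hu.1 ?_
    rw [(hker U _).2 ⟨s, rfl⟩, map_zero, map_zero]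
  have hCU : Van U C := by
    refine (h5 X).1 C U hC.1 hU fun s => ?_
    obtain ⟨t, rfl⟩ := hρ U hU s
    obtain ⟨r, rfl⟩ := hu.2 t
    refine (hker' U _).2 ⟨ap π U r, ?_⟩
    rw [← ap_comp, hπκ]
  have hKS : cl K hK ∈ SO (O ⊔ U) :=
    AddSubgroup.subset_closure ⟨K, hK, (h5 X).2.1 K O U hKO hKU, rfl⟩
  have hCS : cl C hC ∈ SO (O ⊔ U) :=
    AddSubgroup.subset_closure ⟨C, hC, (h5 X).2.1 C O U hCO hCU, rfl⟩
  have e3 : cl P hP - cl F hF = cl K hK - cl C hC := by
    rw [e1, e2]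
    abel
  rw [e3]
  exact sub_mem hKS hCS

end Pool.Agent.KSS
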