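import Pool.Agent.KSS.St

/-!
# KSS, module K2: coherent extensions exist
-/

set_option autoImplicit false

noncomputable section

namespace Pool.Agent.KSS

open CategoryTheory AlgebraicGeometry TopologicalSpace Function Pool.Agent.Helper11

namespace K2

/-- a coherent subsheaf of `E` with prescribed sections over `U` -/
theorem sub {X : Scheme.{0}} [IsLocallyNoetherian X] (h5 : St_S5) (h8 : St_S8) (U : X.Opens)
    (hU : IsAffineOpen U) (E : X.Modules) (hE : E.IsQuasicoherent)
    (hb : Bijective (rM E (le_top : U ≤ ⊤))) (T : Finset Γ(E, U)) :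
    ∃ (F : X.Modules) (u : F ⟶ E), IsCoh F ∧ (∀ W : X.Opens, Injective (ap u W)) ∧
      ∀ s ∈ T, ∃ t, ap u U t = s := by
  classical
  induction T using Finset.induction_on with
  | empty =>
    obtain ⟨-, -, -, -, Z, hZ, -⟩ := h5 X
    obtain ⟨F₂, u₂, hF₂, hi, -⟩ := h8 X E Z 0 hZ hE 0
    exact ⟨F₂, u₂, hF₂, hi, fun s hs => absurd hs (Finset.notMem_empty s)⟩
  | insert a T ha ih =>
    obtain ⟨F, u, hF, -, hT⟩ := ih
    obtain ⟨m, hm⟩ := hb.2 a
    obtain ⟨F₂, u₂, hF₂, hi, h⟩ := h8 X E F u hF hE m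
    refine ⟨F₂, u₂, hF₂, hi, fun s hs => (h U hU s).mpr ?_⟩
    rcases Finset.mem_insert.mp hs with rfl | hs
    · exact ⟨0, 1, by rw [map_zero, one_smul, zero_add, hm]⟩
    · obtain ⟨t, ht⟩ := hT s hs
      exact ⟨t, 0, by rw [ht, zero_smul, add_zero]⟩

end K2

open K2 in
/-- **K2**: coherent extensions exist. -/
theorem thm_K2 (h5 : St_S5) (h7 : St_S7) (h8 : St_S8) : St_K2 := by
  classical
  intro X _ _ U O hU A _ g hg N
  let _ : Module Γ(X, U) N := Module.compHom N g
  have hsm : ∀ (r : Γ(X, U)) (n : N), r • n = g r • n := fun r n => rfl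
  obtain ⟨E, ε, hE, hb, -, hv⟩ := h7 X U hU N
  have hVE : Van O E := by
    refine hv O fun r hr n => ?_
    obtain ⟨k, hk⟩ := (hg.2 r).mp hr
    refine ⟨k, ?_⟩
    rw [hsm, map_pow, hk, zero_smul]
  obtain ⟨T, hT⟩ := (Module.finite_def (R := A) (M := N)).mp inferInstance
  obtain ⟨F, u, hF, hi, h⟩ := sub h5 h8 U hU E hE hb (T.image ε.symm)
  have hsurj : Surjective (ap u U) := by
    have hr : ∀ n : N, ∃ t, ap u U t = ε.symm n := by
      intro n
      have hn : n ∈ Submodule.span A (T : Set N) := by rw [hT]; trivial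
      induction hn using Submodule.span_induction with
      | mem x hx => exact h _ (Finset.mem_image_of_mem _ hx)
      | zero => exact ⟨0, by rw [map_zero, map_zero]⟩
      | add x y _ _ hx hy =>
        obtain ⟨t, ht⟩ := hx
        obtain ⟨t', ht'⟩ := hy
        exact ⟨t + t', by rw [map_add, ht, ht', map_add]⟩
      | smul a x _ hx =>
        obtain ⟨t, ht⟩ := hx
        obtain ⟨r, rfl⟩ := hg.1 a
        exact ⟨r • t, by rw [map_smul, ht, ← hsm, map_smul]⟩
    intro s
    obtain ⟨t, ht⟩ := hr (ε s)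
    exact ⟨t, by rw [ht, LinearEquiv.symm_apply_apply]⟩
  refine ⟨F, hF, fun W hW hWa s => hi W ?_,
    ((LinearEquiv.ofBijective (ap u U) ⟨hi U, hsurj⟩).trans ε).toAddEquiv, fun r s => ?_⟩
  · rw [hVE W hW hWa (ap u W s), map_zero]
  · exact ((LinearEquiv.ofBijective (ap u U) ⟨hi U, hsurj⟩).trans ε).map_smul r s

end Pool.Agent.KSS
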