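import Pool.Agent.KSS.St

/-!
# KSS, module K3: the class of an extension is well defined
-/

set_option autoImplicit false

noncomputable section

namespace Pool.Agent.KSS

open CategoryTheory AlgebraicGeometry TopologicalSpace Function Pool.Agent.Helper11

theorem thm_K3 (h4 : St_S4) (h7 : St_S7) (k1 : St_K1) : St_K3 := by
  intro X _ _ U O hU A _ g hg N F F' hF hF' ⟨hFO, e, he⟩ ⟨hFO', e', he'⟩
  let _ : Module Γ(X, U) N := Module.compHom N g
  have hs : ∀ (r : Γ(X, U)) (n : N), r • n = g r • n := fun _ _ => rfl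
  obtain ⟨E, ε, hE, -, hun, -⟩ := h7 X U hU N
  obtain ⟨u, hu⟩ := hun F hF.1 { toFun := e, map_add' := map_add e, map_smul' := fun r s => he r s }
  obtain ⟨u', hu'⟩ := hun F' hF'.1
    { toFun := e', map_add' := map_add e', map_smul' := fun r s => he' r s }
  replace hu : ∀ s, ε (ap u U s) = e s := hu
  replace hu' : ∀ s, ε (ap u' U s) = e' s := hu'
  obtain ⟨P, a, b, hP, hab, hinj, hsurj⟩ := (h4 X).2.2 F F' E u u' hF hF' hE
  have hPO : Van O P := by
    intro W hW ha s
    refine hinj W s 0 ?_ ?_
    · rw [hFO W hW ha (ap a W s), map_zero]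
    · rw [hFO' W hW ha (ap b W s), map_zero]
  have huab : ∀ s : Γ(P, U), e (ap a U s) = e' (ap b U s) := by
    intro s
    rw [← hu, ← hu', ← ap_comp, ← ap_comp, hab]
  have ha : Bijective (ap a U) := by
    constructor
    · intro s t hst
      refine hinj U s t hst (e'.injective ?_)
      rw [← huab, ← huab, hst]
    · intro s
      obtain ⟨t, ht, -⟩ := hsurj U s (e'.symm (e s)) (ε.injective (by
        rw [hu, hu', AddEquiv.apply_symm_apply]))
      exact ⟨t, ht⟩
  have hb : Bijective (ap b U) := by
    constructor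
    · intro s t hst
      refine hinj U s t (e.injective ?_) hst
      rw [huab, huab, hst]
    · intro s
      obtain ⟨t, -, ht⟩ := hsurj U (e.symm (e' s)) s (ε.injective (by
        rw [hu, hu', AddEquiv.apply_symm_apply]))
      exact ⟨t, ht⟩
  have e1 := k1 X O U P F hP hF a hU hPO hFO ha
  have e2 := k1 X O U P F' hP hF' b hU hPO hFO' hb
  have e3 : cl F hF - cl F' hF' = (cl P hP - cl F' hF') - (cl P hP - cl F hF) := by abel
  rw [e3]
  exact sub_mem e2 e1

end Pool.Agent.KSS
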