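import Pool.Agent.KSS.St

/-!
# KSS, module K4: the homomorphism of a closed subscheme of an affine open subscheme
-/

set_option autoImplicit false

noncomputable section

namespace Pool.Agent.KSS

open CategoryTheory AlgebraicGeometry TopologicalSpace Function Pool.Agent.Helper11

private theorem k4_ext (h4 : St_S4) (h7 : St_S7) (X : Scheme.{0}) [X.IsSeparated]
    [IsLocallyNoetherian X] (U O : X.Opens) (hU : IsAffineOpen U) (A : Type) [CommRing A]
    (g : Γ(X, U) →+* A) (N' N N'' : FGMod A) (f : N' →ₗ[A] N) (q : N →ₗ[A] N'')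
    (hf : Injective f) (hq : Surjective q) (hfq : Function.Exact f q) (F : X.Modules)
    (hF : IsCoh F) (hE : IsExt U O g F N) :
    ∃ (K I : X.Modules) (hK : IsCoh K) (hI : IsCoh I), IsExt U O g K N' ∧ IsExt U O g I N'' ∧
      cl F hF = cl K hK + cl I hI := by
  obtain ⟨hvan, e, he⟩ := hE
  let _ : Module Γ(X, U) N'' := Module.compHom N'' g
  have hsm : ∀ (r : Γ(X, U)) (n : N''), r • n = g r • n := fun r n => rfl
  obtain ⟨E, ε, hEq, -, hlift, -⟩ := h7 X U hU N''
  let h : Γ(F, U) →ₗ[Γ(X, U)] N'' :=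
    { toFun := fun s => q (e s)
      map_add' := fun s t => by rw [map_add, map_add]
      map_smul' := fun r s => by
        rw [he, map_smul]
        rfl }
  obtain ⟨u, hu⟩ := hlift F hF.1 h
  have hu' : ∀ s, ε (ap u U s) = q (e s) := hu
  obtain ⟨K, I, ι, π, κ, w, hK, hI, hex, hπκ, hκ, hπ, hι, hker⟩ := (h4 X).1 F E u hF hEq
  have hπκ' : ∀ (W : X.Opens) (s : Γ(F, W)), ap κ W (ap π W s) = ap u W s := fun W s => by
    rw [← ap_comp, hπκ]
  refine ⟨K, I, hK, hI, ⟨?_, ?_⟩, ⟨?_, ?_⟩, cl_add (ShortComplex.mk ι π w) hex hK hF hI⟩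
  · intro W hW hWa s
    apply hι W
    rw [hvan W hW hWa (ap ι W s), map_zero]
  · -- the kernel
    have h1 : ∀ s : Γ(K, U), ∃ n : N', f n = e (ap ι U s) := fun s => by
      have h2 : ap u U (ap ι U s) = 0 := (hker U _).2 ⟨s, rfl⟩
      have h3 : q (e (ap ι U s)) = 0 := by rw [← hu', h2, map_zero]
      exact (hfq _).1 h3
    choose a ha using h1
    let a' : Γ(K, U) →+ N' :=
      { toFun := a
        map_zero' := hf (by rw [ha, map_zero, map_zero, map_zero])
        map_add' := fun s t => hf (by rw [ha, map_add, map_add, map_add, ha, ha]) }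
    have ha' : ∀ s, f (a' s) = e (ap ι U s) := ha
    refine ⟨AddEquiv.ofBijective a' ⟨fun s t hst => ?_, fun n => ?_⟩, fun r s => ?_⟩
    · have h2 : e (ap ι U s) = e (ap ι U t) := by rw [← ha', ← ha', hst]
      exact hι U (e.injective h2)
    · have h2 : ap u U (e.symm (f n)) = 0 := by
        apply ε.injective
        rw [hu', map_zero, e.apply_symm_apply]
        exact (hfq _).2 ⟨n, rfl⟩
      obtain ⟨t, ht⟩ := (hker U _).1 h2
      refine ⟨t, hf ?_⟩
      rw [ha', ht, e.apply_symm_apply]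
    · apply hf
      show f (a' (r • s)) = f (g r • a' s)
      rw [ha', (ap ι U).map_smul, he, f.map_smul, ha']
  · intro W hW hWa s
    obtain ⟨t, rfl⟩ := hπ W hWa s
    rw [hvan W hW hWa t, map_zero]
  · -- the image
    let b' : Γ(I, U) →+ N'' := (ε.toAddEquiv.toAddMonoidHom).comp (ap κ U).toAddMonoidHom
    have hb' : ∀ s, b' s = ε (ap κ U s) := fun s => rfl
    refine ⟨AddEquiv.ofBijective b' ⟨fun s t hst => ?_, fun n => ?_⟩, fun r s => ?_⟩
    · rw [hb', hb'] at hst
      exact hκ U (ε.injective hst)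
    · obtain ⟨n1, rfl⟩ := hq n
      refine ⟨ap π U (e.symm n1), ?_⟩
      rw [hb', hπκ', hu', e.apply_symm_apply]
    · show b' (r • s) = g r • b' s
      rw [hb', hb', map_smul, map_smul]
      rfl

/-- **K4** -/
theorem thm_K4 (h4 : St_S4) (h7 : St_S7) (h2 : St_K2) (h3 : St_K3) : St_K4 := by
  intro X _ _ U O hU A _ g hg
  choose F hF hE using h2 X U O hU A g hg
  have hwd : ∀ (N : FGMod A) (F' : X.Modules) (hF' : IsCoh F'), IsExt U O g F' N →
      (QuotientAddGroup.mk (cl (F N) (hF N)) : K0 X ⧸ SO (O ⊔ U)) =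
        QuotientAddGroup.mk (cl F' hF') := by
    intro N F' hF' hE'
    have h := h3 X U O hU A g hg N F' (F N) hF' (hF N) hE' (hE N)
    rw [QuotientAddGroup.eq]
    have h5 : -cl (F N) (hF N) + cl F' hF' = cl F' hF' - cl (F N) (hF N) := by abel
    rw [h5]
    exact h
  refine ⟨G0.lift (fun N => QuotientAddGroup.mk (cl (F N) (hF N))) ?_, fun N F' hF' hE' => ?_⟩
  · intro N' N N'' f q hf hq hfq
    obtain ⟨K, I, hK, hI, hEK, hEI, hadd⟩ :=
      k4_ext h4 h7 X U O hU A g N' N N'' f q hf hq hfq (F N) (hF N) (hE N)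
    show (QuotientAddGroup.mk (cl (F N) (hF N)) : K0 X ⧸ SO (O ⊔ U)) = _
    rw [hadd, QuotientAddGroup.mk_add, ← hwd N' K hK hEK, ← hwd N'' I hI hEI]
  · rw [G0.lift_mk]
    exact hwd N F' hF' hE'

end Pool.Agent.KSS
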