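import Pool.Agent.KSS.St

/-!
# KSS, module K5: devissage
-/

set_option autoImplicit false

noncomputable section

namespace Pool.Agent.KSS

open CategoryTheory AlgebraicGeometry TopologicalSpace Function Pool.Agent.Helper11

/-- the quotient by `I = ker g`, as a finitely generated module over the target of `g` -/
private theorem k5_mod {R A M : Type} [CommRing R] [CommRing A] [AddCommGroup M] [Module R M]
    [Module.Finite R M] (g : R →+* A) (hg : Surjective g) :
    ∃ N : FGMod A, ∃ e : (M ⧸ (RingHom.ker g • (⊤ : Submodule R M))) ≃+ N,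
      ∀ (r : R) (x : M ⧸ (RingHom.ker g • (⊤ : Submodule R M))), e (r • x) = g r • e x := by
  let f : A →+* R ⧸ RingHom.ker g := (RingHom.quotientKerEquivOfSurjective hg).symm.toRingHom
  have hf : ∀ r : R, f (g r) = Ideal.Quotient.mk (RingHom.ker g) r := by
    intro r
    show (RingHom.quotientKerEquivOfSurjective hg).symm (g r) = _
    rw [RingEquiv.symm_apply_eq]
    rfl
  letI iA : Module A (M ⧸ (RingHom.ker g • (⊤ : Submodule R M))) := Module.compHom _ f
  have hsm : ∀ (r : R) (x : M ⧸ (RingHom.ker g • (⊤ : Submodule R M))), g r • x = r • x := by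
    intro r x
    have h1 : g r • x = f (g r) • x := rfl
    rw [h1, hf]
    obtain ⟨m, rfl⟩ := Submodule.Quotient.mk_surjective _ x
    rfl
  have hfin : Module.Finite A (M ⧸ (RingHom.ker g • (⊤ : Submodule R M))) := by
    obtain ⟨S, hS⟩ := (inferInstance :
      Module.Finite R (M ⧸ (RingHom.ker g • (⊤ : Submodule R M)))).fg_top
    refine ⟨⟨S, ?_⟩⟩
    rw [eq_top_iff]
    rintro x -
    have hx : x ∈ Submodule.span R (S : Set (M ⧸ (RingHom.ker g • (⊤ : Submodule R M)))) := by
      rw [hS]
      trivial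
    induction hx using Submodule.span_induction with
    | mem y hy => exact Submodule.subset_span hy
    | zero => exact zero_mem _
    | add y z _ _ hy hz => exact add_mem hy hz
    | smul r y _ hy =>
      rw [← hsm]
      exact Submodule.smul_mem _ _ hy
  refine ⟨⟨M ⧸ (RingHom.ker g • (⊤ : Submodule R M))⟩, AddEquiv.refl _, fun r x => ?_⟩
  exact (hsm r x).symm

/-- one step: the sheaf is an extension of a sheaf from `A` by a sheaf killed by a smaller power -/
private theorem k5_step (h4 : St_S4) (h7 : St_S7) {X : Scheme.{0}} [X.IsSeparated]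
    [IsLocallyNoetherian X] {U O : X.Opens} (hU : IsAffineOpen U) {A : Type} [CommRing A]
    (g : Γ(X, U) →+* A) (hg : Surjective g) (F : X.Modules) (hF : IsCoh F) (hv : Van O F) :
    ∃ (N : FGMod A) (K I : X.Modules) (hK : IsCoh K) (hI : IsCoh I) (ι : K ⟶ F), Van O K ∧
      IsExt U O g I N ∧ cl F hF = cl K hK + cl I hI ∧ Injective (ap ι U) ∧
      ∀ t : Γ(K, U), ap ι U t ∈ RingHom.ker g • (⊤ : Submodule Γ(X, U) Γ(F, U)) := by
  haveI : Module.Finite Γ(X, U) Γ(F, U) := hF.2 U hU
  obtain ⟨N, e, he⟩ := k5_mod (M := Γ(F, U)) g hg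
  obtain ⟨E, ε, hE, -, hlift, -⟩ := h7 X U hU
    (Γ(F, U) ⧸ (RingHom.ker g • (⊤ : Submodule Γ(X, U) Γ(F, U))))
  obtain ⟨u, hu⟩ := hlift F hF.1 (Submodule.mkQ _)
  obtain ⟨K, I, ι, π, κ, w, hK, hI, hex, hpk, hκ, hπ, hι, hker⟩ := (h4 X).1 F E u hF hE
  have hvK : Van O K := by
    intro W hW hWa s
    apply hι W
    rw [map_zero]
    exact hv W hW hWa _
  have hvI : Van O I := by
    intro W hW hWa s
    obtain ⟨t, rfl⟩ := hπ W hWa s
    rw [hv W hW hWa t, map_zero]
  have hap : ∀ s : Γ(F, U), ap κ U (ap π U s) = ap u U s := by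
    intro s
    rw [← ap_comp, hpk]
  refine ⟨N, K, I, hK, hI, ι, hvK, ⟨hvI, ?_⟩, ?_, hι U, ?_⟩
  · let b : Γ(I, U) →+ (Γ(F, U) ⧸ (RingHom.ker g • (⊤ : Submodule Γ(X, U) Γ(F, U)))) :=
      (ε.toLinearMap.comp (ap κ U)).toAddMonoidHom
    have hb : ∀ s, b s = ε (ap κ U s) := fun _ => rfl
    have hbij : Bijective b := by
      constructor
      · intro s s' hss
        rw [hb, hb] at hss
        exact hκ U (ε.injective hss)
      · intro x
        obtain ⟨s, rfl⟩ := Submodule.Quotient.mk_surjective _ x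
        refine ⟨ap π U s, ?_⟩
        rw [hb, hap, hu]
        rfl
    refine ⟨(AddEquiv.ofBijective b hbij).trans e, fun r s => ?_⟩
    have h1 : b (r • s) = r • b s := by
      rw [hb, hb, map_smul, map_smul]
    show e (b (r • s)) = g r • e (b s)
    rw [h1, he]
  · exact cl_add (ShortComplex.mk ι π w) hex hK hF hI
  · intro t
    have h1 : ap u U (ap ι U t) = 0 := (hker U _).2 ⟨t, rfl⟩
    have h2 := hu (ap ι U t)
    rw [h1, map_zero] at h2
    exact (Submodule.Quotient.mk_eq_zero _).1 h2.symm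

theorem thm_K5 (h2 : St_S2) (h4 : St_S4) (h5 : St_S5) (h7 : St_S7) : St_K5 := by
  intro X _ _ U O hU A _ g hC φ hφ
  have hg := hC.1
  -- the induction
  have key : ∀ (n : ℕ) (F : X.Modules) (hF : IsCoh F), Van O F →
      (∀ r ∈ (RingHom.ker g) ^ n, ∀ s : Γ(F, U), r • s = 0) →
      ∃ a, φ a = QuotientAddGroup.mk (cl F hF) := by
    intro n
    induction n with
    | zero =>
      intro F hF hv h0
      refine ⟨0, ?_⟩
      have h1 : ∀ s : Γ(F, U), s = 0 := by
        intro s
        have h2 := h0 1 (by rw [pow_zero, Ideal.one_eq_top]; trivial) s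
        rwa [one_smul] at h2
      have h3 : Van U F := (h5 X).1 F U hF.1 hU h1
      have h4' : Van (O ⊔ U) F := (h5 X).2.1 F O U hv h3
      rw [map_zero]
      symm
      rw [QuotientAddGroup.eq_zero_iff]
      exact AddSubgroup.subset_closure ⟨F, hF, h4', rfl⟩
    | succ n ih =>
      intro F hF hv hn
      obtain ⟨N, K, I, hK, hI, ι, hvK, hext, hcl, hinj, hmem⟩ := k5_step h4 h7 hU g hg F hF hv
      obtain ⟨a, ha⟩ := ih K hK hvK (by
        intro r hr s
        apply hinj
        rw [map_zero, map_smul]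
        have h1 := hmem s
        have h2 : ∀ x ∈ RingHom.ker g • (⊤ : Submodule Γ(X, U) Γ(F, U)), r • x = 0 := by
          intro x hx
          refine Submodule.smul_induction_on hx ?_ ?_
          · intro q hq m _
            rw [smul_smul]
            refine hn _ ?_ m
            rw [pow_succ]
            exact Ideal.mul_mem_mul hr hq
          · intro x y hx hy
            rw [smul_add, hx, hy, add_zero]
        exact h2 _ h1)
      refine ⟨a + G0.mk N, ?_⟩
      rw [map_add, ha, hφ N I hI hext, hcl]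
      rfl
  -- nilpotence
  have hnil : ∀ F : X.Modules, IsCoh F → Van O F →
      ∃ n : ℕ, ∀ r ∈ (RingHom.ker g) ^ n, ∀ s : Γ(F, U), r • s = 0 := by
    intro F hF hv
    haveI : Module.Finite Γ(X, U) Γ(F, U) := hF.2 U hU
    haveI : IsNoetherianRing Γ(X, U) := IsLocallyNoetherian.component_noetherian ⟨U, hU⟩
    have hloc : QLoc F := (h2 X F).1 hF.1
    have hrad : RingHom.ker g ≤ (Module.annihilator Γ(X, U) Γ(F, U)).radical := by
      intro r hr
      have hgr : g r = 0 := hr
      have hD : X.basicOpen r ≤ O := (hC.2 r).2 (by rw [hgr]; exact IsNilpotent.zero)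
      have h1 : ∀ s : Γ(F, U), ∃ n : ℕ, r ^ n • s = 0 := by
        intro s
        exact (hloc U hU r).2 s (hv _ hD (hU.basicOpen r) _)
      obtain ⟨S, hS⟩ := (inferInstance : Module.Finite Γ(X, U) Γ(F, U)).fg_top
      choose n hn using h1
      refine ⟨S.sup n, ?_⟩
      rw [Module.mem_annihilator]
      intro s
      have hs : s ∈ Submodule.span Γ(X, U) (S : Set Γ(F, U)) := by
        rw [hS]
        trivial
      induction hs using Submodule.span_induction with
      | mem y hy =>
        have h3 : n y ≤ S.sup n := Finset.le_sup hy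
        rw [← Nat.sub_add_cancel h3, pow_add, mul_smul, hn, smul_zero]
      | zero => rw [smul_zero]
      | add y z _ _ hy hz => rw [smul_add, hy, hz, add_zero]
      | smul c y _ hy => rw [smul_comm, hy, smul_zero]
    obtain ⟨n, hn⟩ := Ideal.exists_pow_le_of_le_radical_of_fg hrad (IsNoetherian.noetherian _)
    refine ⟨n, fun r hr s => ?_⟩
    exact Module.mem_annihilator.1 (hn hr) s
  intro x hx
  induction hx using AddSubgroup.closure_induction with
  | mem x hx =>
    obtain ⟨F, hF, hv, rfl⟩ := hx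
    obtain ⟨n, hn⟩ := hnil F hF hv
    exact key n F hF hv hn
  | zero => exact ⟨0, map_zero φ⟩
  | add x y _ _ hx hy =>
    obtain ⟨a, ha⟩ := hx
    obtain ⟨b, hb⟩ := hy
    exact ⟨a + b, by rw [map_add, ha, hb]; rfl⟩
  | neg x _ hx =>
    obtain ⟨a, ha⟩ := hx
    exact ⟨-a, by rw [map_neg, ha]; rfl⟩

end Pool.Agent.KSS
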