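import Pool.Agent.KSS.St

/-!
# KSS, K6: the pushforward homomorphism of a finite morphism on `K'₀`
-/

set_option autoImplicit false

noncomputable section

namespace Pool.Agent.KSS

open CategoryTheory AlgebraicGeometry TopologicalSpace Function Pool.Agent.Helper11

/-- **K6** -/
theorem thm_K6 (h3 : St_S3) (h6 : St_S6) : St_K6 := by
  intro X Y f hf
  obtain ⟨-, hex, hcoh⟩ := h6 X Y f
  have hc : ∀ M : Y.Modules, IsCoh M → IsCoh ((Scheme.Modules.pushforward f).obj M) :=
    hcoh inferInstance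
  have hadd : ∀ (S : ShortComplex Y.Modules) (h₁ : IsCoh S.X₁) (h₂ : IsCoh S.X₂)
      (h₃ : IsCoh S.X₃), S.ShortExact →
      cl ((Scheme.Modules.pushforward f).obj S.X₂) (hc _ h₂) =
        cl ((Scheme.Modules.pushforward f).obj S.X₁) (hc _ h₁) +
          cl ((Scheme.Modules.pushforward f).obj S.X₃) (hc _ h₃) := by
    intro S h₁ h₂ h₃ hS
    exact cl_add (S.map (Scheme.Modules.pushforward f)) (hex S hS h₁.1 h₂.1) (hc _ h₁) (hc _ h₂)
      (hc _ h₃)
  refine ⟨K0lift (fun M hM => cl ((Scheme.Modules.pushforward f).obj M) (hc M hM)) hadd, hc,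
    fun M hM => K0lift_cl _ _ M hM, ?_⟩
  intro O y hy
  refine AddSubgroup.closure_induction (p := fun y _ =>
    K0lift (fun M hM => cl ((Scheme.Modules.pushforward f).obj M) (hc M hM)) hadd y ∈ SO O)
    ?_ ?_ ?_ ?_ hy
  · rintro _ ⟨M, hM, hv, rfl⟩
    rw [K0lift_cl]
    refine AddSubgroup.subset_closure ⟨_, hc M hM, ?_, rfl⟩
    intro W hW ha s
    exact hv (f ⁻¹ᵁ W) (fun x hx => hW hx) (ha.preimage f) s
  · rw [map_zero]
    exact zero_mem _
  · intro a b _ _ ha hb
    rw [map_add]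
    exact add_mem ha hb
  · intro a _ ha
    rw [map_neg]
    exact neg_mem ha

end Pool.Agent.KSS
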