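import Pool.Agent.KSS.St

/-!
# KSS R1: domination of `G₀` of a noetherian ring by finite algebras
-/

set_option autoImplicit false
set_option linter.style.haveILetI false

noncomputable section

namespace Pool.Agent.KSS

open Function Pool.Agent.Helper11

/-- the class of `A / P` -/
private def clP (A : Type) [CommRing A] (P : Ideal A) : G0 A := G0.mk (FGMod.of A (A ⧸ P))

private theorem R1_mk_iso {A : Type} [CommRing A] {M N : FGMod A} (e : M ≃ₗ[A] N) :
    G0.mk M = G0.mk N := G0.isAdd_mk.iso e (G0.killedBy_bot M)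

private theorem R1_mk_zero {A : Type} [CommRing A] (M : FGMod A) [Subsingleton M] :
    G0.mk M = 0 := G0.isAdd_mk.zero M (G0.killedBy_bot M)

/-- filtrations over a domain -/
private theorem R1_domain (D : Type) [CommRing D] [IsDomain D] [IsNoetherianRing D]
    (N : Type) [AddCommGroup N] [Module D N] [hfin : Module.Finite D N] :
    G0.mk (FGMod.of D N) - Module.finrank D N • G0.mk (FGMod.of D D) ∈
      AddSubgroup.closure {x | ∃ q : Ideal D, q.IsPrime ∧ q ≠ ⊥ ∧ x = clP D q} := by
  induction hfin using IsNoetherianRing.induction_on_isQuotientEquivQuotientPrime D with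
  | subsingleton N =>
    rw [Module.finrank_zero_of_subsingleton, zero_smul, sub_zero, R1_mk_zero]
    exact zero_mem _
  | quotient N p e =>
    have h1 : G0.mk (FGMod.of D N) = clP D p.1 :=
      R1_mk_iso (M := FGMod.of D N) (N := FGMod.of D (D ⧸ p.1)) e
    rw [h1]
    by_cases hp : p.1 = ⊥
    · have h2 : (D ⧸ p.1) ≃ₗ[D] D := by
        rw [hp]
        exact Submodule.quotEquivOfEqBot _ rfl
      have h3 : Module.finrank D N = 1 := by
        rw [(e.trans h2).finrank_eq, Module.finrank_self]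
      have h4 : clP D p.1 = G0.mk (FGMod.of D D) :=
        R1_mk_iso (M := FGMod.of D (D ⧸ p.1)) (N := FGMod.of D D) h2
      rw [h3, h4, one_smul, sub_self]
      exact zero_mem _
    · have h3 : Module.finrank D N = 0 := by
        rw [Module.finrank_eq_zero_iff]
        obtain ⟨a, ha, ha0⟩ := Submodule.exists_mem_ne_zero_of_ne_bot hp
        intro x
        refine ⟨a, ha0, e.injective ?_⟩
        rw [map_smul, map_zero, Algebra.smul_def]
        have : algebraMap D (D ⧸ p.1) a = 0 := Ideal.Quotient.eq_zero_iff_mem.mpr ha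
        rw [this, zero_mul]
      rw [h3, zero_smul, sub_zero]
      exact AddSubgroup.subset_closure ⟨p.1, p.2, hp, rfl⟩
  | exact N₁ N₂ N₃ f g hf hg hfg h₁ h₃ =>
    have h2 : G0.mk (FGMod.of D N₂) = G0.mk (FGMod.of D N₁) + G0.mk (FGMod.of D N₃) :=
      G0.mk_add (FGMod.of D N₁) (FGMod.of D N₂) (FGMod.of D N₃) f g hf hg hfg
    have h4 : Module.finrank D N₂ = Module.finrank D N₁ + Module.finrank D N₃ := by
      have h5 := Submodule.finrank_quotient_add_finrank (LinearMap.ker g)
      have h6 : LinearMap.ker g = LinearMap.range f := hfg.linearMap_ker_eq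
      have h7 := (g.quotKerEquivOfSurjective hg).finrank_eq
      rw [h7, h6, LinearMap.finrank_range_of_inj hf] at h5
      omega
    rw [h2, h4, add_smul]
    have h7 := add_mem h₁ h₃
    have h8 : G0.mk (FGMod.of D N₁) + G0.mk (FGMod.of D N₃) -
        (Module.finrank D N₁ • G0.mk (FGMod.of D D) +
          Module.finrank D N₃ • G0.mk (FGMod.of D D)) =
        G0.mk (FGMod.of D N₁) - Module.finrank D N₁ • G0.mk (FGMod.of D D) +
          (G0.mk (FGMod.of D N₃) - Module.finrank D N₃ • G0.mk (FGMod.of D D)) := by abel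
    rw [h8]
    exact h7

/-- a ring homomorphism which is finite makes the quotient by a prime a module over the domain -/
private theorem R1_res (A B : Type) [CommRing A] [IsNoetherianRing A] [CommRing B] (ψ : A →+* B)
    (hψ : ψ.Finite) (Q : Ideal B) (hQ : Q.IsPrime) :
    resF ψ hψ (clP B Q) - rkQ ψ Q • clP A (Q.comap ψ) ∈
      AddSubgroup.closure {x | ∃ q : Ideal A, q.IsPrime ∧ Q.comap ψ < q ∧ x = clP A q} := by
  set P : Ideal A := Q.comap ψ with hP
  haveI : P.IsPrime := Ideal.comap_isPrime ψ Q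
  let φ : A ⧸ P →+* B ⧸ Q := Ideal.quotientMap Q ψ le_rfl
  letI algD : Algebra (A ⧸ P) (B ⧸ Q) := φ.toAlgebra
  letI algA : Algebra A B := ψ.toAlgebra
  haveI : Module.Finite A B := hψ
  have hφ : φ.Finite := by
    have h1 : (φ.comp (Ideal.Quotient.mk P)).Finite := by
      have h2 : φ.comp (Ideal.Quotient.mk P) = (Ideal.Quotient.mk Q).comp ψ := by
        ext x
        rfl
      rw [h2]
      exact RingHom.Finite.comp (RingHom.Finite.of_surjective _ Ideal.Quotient.mk_surjective) hψ
    exact RingHom.Finite.of_comp_finite h1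
  haveI : Module.Finite (A ⧸ P) (B ⧸ Q) := hφ
  have h0 := R1_domain (A ⧸ P) (B ⧸ Q)
  let σ : G0 (A ⧸ P) →+ G0 A :=
    Pool.Agent.HPow.surG (Ideal.Quotient.mk P) Ideal.Quotient.mk_surjective
  have h1 : σ (G0.mk (FGMod.of (A ⧸ P) (B ⧸ Q))) = resF ψ hψ (clP B Q) := by
    change _ = Pool.Agent.HPow.resG A B (G0.mk _)
    rw [Pool.Agent.HPow.resG_mk, Pool.Agent.HPow.surG_mk]
    refine R1_mk_iso ?_
    refine
      { restrEquiv (Ideal.Quotient.mk P) Ideal.Quotient.mk_surjective
          (FGMod.of (A ⧸ P) (B ⧸ Q)) with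
        map_smul' := ?_ }
    intro a x
    obtain ⟨x, rfl⟩ := (restrEquiv (Ideal.Quotient.mk P) Ideal.Quotient.mk_surjective
      (FGMod.of (A ⧸ P) (B ⧸ Q))).symm.surjective x
    rfl
  have h2 : σ (G0.mk (FGMod.of (A ⧸ P) (A ⧸ P))) = clP A P := by
    rw [Pool.Agent.HPow.surG_mk]
    refine R1_mk_iso ?_
    refine
      { restrEquiv (Ideal.Quotient.mk P) Ideal.Quotient.mk_surjective
          (FGMod.of (A ⧸ P) (A ⧸ P)) with
        map_smul' := ?_ }
    intro a x
    rfl
  have h3 : ∀ x ∈ AddSubgroup.closure {x | ∃ q : Ideal (A ⧸ P), q.IsPrime ∧ q ≠ ⊥ ∧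
      x = clP (A ⧸ P) q}, σ x ∈ AddSubgroup.closure {x | ∃ q : Ideal A, q.IsPrime ∧ P < q ∧
      x = clP A q} := by
    intro x hx
    induction hx using AddSubgroup.closure_induction with
    | mem x h =>
      obtain ⟨q, hq, hq0, rfl⟩ := h
      refine AddSubgroup.subset_closure ⟨q.comap (Ideal.Quotient.mk P),
        Ideal.comap_isPrime _ _, ?_, ?_⟩
      · refine lt_of_le_of_ne ?_ ?_
        · intro a ha
          rw [Ideal.mem_comap, Ideal.Quotient.eq_zero_iff_mem.mpr ha]
          exact zero_mem _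
        · intro h
          apply hq0
          rw [eq_bot_iff]
          intro y hy
          obtain ⟨y, rfl⟩ := Ideal.Quotient.mk_surjective y
          have : y ∈ P := by
            rw [h]
            exact hy
          rw [Ideal.Quotient.eq_zero_iff_mem.mpr this]
          exact zero_mem _
      · change σ (G0.mk _) = G0.mk _
        rw [Pool.Agent.HPow.surG_mk]
        refine (R1_mk_iso ?_).symm
        let u : A ⧸ q.comap (Ideal.Quotient.mk P) ≃+* (A ⧸ P) ⧸ q :=
          RingEquiv.ofBijective (Ideal.quotientMap q (Ideal.Quotient.mk P) le_rfl)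
            ⟨Ideal.quotientMap_injective,
              Ideal.quotientMap_surjective Ideal.Quotient.mk_surjective⟩
        refine
          { u.toAddEquiv.trans (restrEquiv (Ideal.Quotient.mk P) Ideal.Quotient.mk_surjective
              (FGMod.of (A ⧸ P) ((A ⧸ P) ⧸ q))).symm with
            map_smul' := ?_ }
        intro a x
        obtain ⟨x, rfl⟩ := Ideal.Quotient.mk_surjective x
        rfl
    | zero => rw [map_zero]; exact zero_mem _
    | add x y _ _ hx hy => rw [map_add]; exact add_mem hx hy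
    | neg x _ hx => rw [map_neg]; exact neg_mem hx
  have h4 := h3 _ h0
  rw [map_sub, map_nsmul, h1, h2] at h4
  exact h4

/-- modules with all the `A / P` in a subgroup -/
private theorem R1_filt (A : Type) [CommRing A] [IsNoetherianRing A] (T : AddSubgroup (G0 A))
    (hT : ∀ P : Ideal A, P.IsPrime → clP A P ∈ T) (x : G0 A) : x ∈ T := by
  have key : ∀ (N : Type) [AddCommGroup N] [Module A N] [hfin : Module.Finite A N],
      G0.mk (FGMod.of A N) ∈ T := by
    intro N _ _ hfin
    induction hfin using IsNoetherianRing.induction_on_isQuotientEquivQuotientPrime A with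
    | subsingleton N => rw [R1_mk_zero]; exact zero_mem _
    | quotient N p e =>
      have h1 : G0.mk (FGMod.of A N) = clP A p.1 :=
        R1_mk_iso (M := FGMod.of A N) (N := FGMod.of A (A ⧸ p.1)) e
      rw [h1]
      exact hT _ p.2
    | exact N₁ N₂ N₃ f g hf hg hfg h₁ h₃ =>
      rw [G0.mk_add (FGMod.of A N₁) (FGMod.of A N₂) (FGMod.of A N₃) f g hf hg hfg]
      exact add_mem h₁ h₃
  refine G0.induction (p := fun x => x ∈ T) (zero_mem _) (fun M => key M)
    (fun x hx => neg_mem hx) (fun x y hx hy => add_mem hx hy) x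

private theorem R1_filt_smul (A : Type) [CommRing A] [IsNoetherianRing A]
    (T : AddSubgroup (G0 A)) (m : ℕ)
    (hT : ∀ P : Ideal A, P.IsPrime → m • clP A P ∈ T) (x : G0 A) : m • x ∈ T :=
  R1_filt A (T.comap (nsmulAddMonoidHom m)) (fun P hP => hT P hP) x

theorem thm_R1 : St_R1 := by
  intro A _ _ n hn J _ B _ ψ hψ N hN
  refine ⟨n + 1, ?_⟩
  set S : AddSubgroup (G0 A) := ⨆ j, (resF (ψ j) (hψ j)).range with hS
  have step : ∀ P : Ideal A, P.IsPrime → N • clP A P ∈ S ⊔
      AddSubgroup.closure {x | ∃ q : Ideal A, q.IsPrime ∧ P < q ∧ x = clP A q} := by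
    intro P hP
    obtain ⟨a, ha⟩ := Int.subgroup_cyclic ((S ⊔
      AddSubgroup.closure {x | ∃ q : Ideal A, q.IsPrime ∧ P < q ∧ x = clP A q}).comap
        (zmultiplesHom (G0 A) (clP A P)))
    have hmem : ∀ m : ℕ, a ∣ (m : ℤ) ↔ m • clP A P ∈ S ⊔
        AddSubgroup.closure {x | ∃ q : Ideal A, q.IsPrime ∧ P < q ∧ x = clP A q} := by
      intro m
      have h1 : (m : ℤ) ∈ AddSubgroup.closure {a} ↔ a ∣ (m : ℤ) := by
        rw [← AddSubgroup.zmultiples_eq_closure, Int.mem_zmultiples_iff]
      rw [← h1, ← ha, AddSubgroup.mem_comap, zmultiplesHom_apply, natCast_zsmul]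
    rw [← hmem]
    have h2 : a.natAbs ∣ N := by
      refine hN P hP a.natAbs ?_
      intro j Q hQ hQP
      have h3 : a ∣ ((rkQ (ψ j) Q : ℕ) : ℤ) := by
        rw [hmem]
        have h4 := R1_res A (B j) (ψ j) (hψ j) Q hQ
        rw [hQP] at h4
        have h5 : resF (ψ j) (hψ j) (clP (B j) Q) ∈ S :=
          (le_iSup (fun j => (resF (ψ j) (hψ j)).range) j) ⟨_, rfl⟩
        have h6 := sub_mem (AddSubgroup.mem_sup_left h5) (AddSubgroup.mem_sup_right h4)
        rwa [sub_sub_cancel] at h6
      exact Int.natCast_dvd_natCast.mp ((Int.natAbs_dvd).mpr h3)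
    exact (Int.natAbs_dvd).mp (Int.natCast_dvd_natCast.mpr h2)
  have main : ∀ (k : ℕ) (P : PrimeSpectrum A), Order.coheight P < (k : ℕ∞) →
      N ^ k • clP A P.asIdeal ∈ S := by
    intro k
    induction k with
    | zero =>
      intro P hP
      exact absurd hP (by simp)
    | succ k ih =>
      intro P hP
      have h1 : ∀ x ∈ AddSubgroup.closure {x | ∃ q : Ideal A, q.IsPrime ∧ P.asIdeal < q ∧
          x = clP A q}, N ^ k • x ∈ S := by
        intro x hx
        induction hx using AddSubgroup.closure_induction with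
        | mem x h =>
          obtain ⟨q, hq, hPq, rfl⟩ := h
          refine ih ⟨q, hq⟩ ?_
          have h2 : Order.coheight P ≤ (k : ℕ∞) := by
            have h3 : Order.coheight P < ((k + 1 : ℕ) : ℕ∞) := hP
            rw [Nat.cast_add, Nat.cast_one] at h3
            exact Order.le_of_lt_add_one h3
          exact (Order.coheight_le_coe_iff.mp h2) ⟨q, hq⟩ hPq
        | zero => rw [smul_zero]; exact zero_mem _
        | add x y _ _ hx hy => rw [smul_add]; exact add_mem hx hy
        | neg x _ hx => rw [smul_neg]; exact neg_mem hx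
      obtain ⟨s, hs, t, ht, hst⟩ := AddSubgroup.mem_sup.mp (step P.asIdeal P.isPrime)
      rw [pow_succ, mul_smul, ← hst, smul_add]
      exact add_mem (AddSubgroup.nsmul_mem _ hs _) (h1 t ht)
  intro a
  refine R1_filt_smul A S _ ?_ a
  intro P hP
  refine main (n + 1) ⟨P, hP⟩ ?_
  have h1 : ((Order.coheight (⟨P, hP⟩ : PrimeSpectrum A) : ℕ∞) : WithBot ℕ∞) ≤ (n : ℕ∞) :=
    (Order.coheight_le_krullDim _).trans hn
  have h2 : Order.coheight (⟨P, hP⟩ : PrimeSpectrum A) ≤ (n : ℕ∞) := WithBot.coe_le_coe.mp h1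
  refine lt_of_le_of_lt h2 ?_
  exact_mod_cast Nat.lt_succ_self n

end Pool.Agent.KSS
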