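import Pool.Agent.KSS.St

/-!
# KSS, module R2: degrees of residue fields
-/

set_option autoImplicit false

noncomputable section

namespace Pool.Agent.KSS

open CategoryTheory AlgebraicGeometry TopologicalSpace Function Pool.Agent.Helper11

theorem R2_rk {A B K L : Type} [CommRing A] [CommRing B] [Field K] [Field L] (ψ : A →+* B)
    (a : A →+* K) (b : B →+* L) (i : K →+* L) (h : ∀ x, b (ψ x) = i (a x))
    (ha : ∀ z : K, ∃ x s, a s ≠ 0 ∧ z * a s = a x)
    (hb : ∀ z : L, ∃ x s, b s ≠ 0 ∧ z * b s = b x) :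
    rkQ ψ (RingHom.ker b) = (letI := i.toAlgebra; Module.finrank K L) := by
  have hker : ∀ x, x ∈ (RingHom.ker b).comap ψ ↔ a x = 0 := by
    intro x
    rw [Ideal.mem_comap, RingHom.mem_ker, h]
    exact map_eq_zero_iff i i.injective
  let a' : A ⧸ (RingHom.ker b).comap ψ →+* K := Ideal.Quotient.lift _ a fun x hx => (hker x).mp hx
  let b' : B ⧸ RingHom.ker b →+* L := RingHom.kerLift b
  have ha' : Injective a' := by
    refine (injective_iff_map_eq_zero a').mpr ?_
    intro x hx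
    obtain ⟨x, rfl⟩ := Ideal.Quotient.mk_surjective x
    exact Ideal.Quotient.eq_zero_iff_mem.mpr ((hker x).mpr hx)
  have hb' : Injective b' := RingHom.kerLift_injective b
  unfold rkQ
  let : Algebra (A ⧸ (RingHom.ker b).comap ψ) (B ⧸ RingHom.ker b) :=
    (Ideal.quotientMap (RingHom.ker b) ψ le_rfl).toAlgebra
  let : Algebra (A ⧸ (RingHom.ker b).comap ψ) K := a'.toAlgebra
  let : Algebra (B ⧸ RingHom.ker b) L := b'.toAlgebra
  let : Algebra K L := i.toAlgebra
  let : Algebra (A ⧸ (RingHom.ker b).comap ψ) L := (i.comp a').toAlgebra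
  have : IsScalarTower (A ⧸ (RingHom.ker b).comap ψ) K L := IsScalarTower.of_algebraMap_eq fun x => rfl
  have : IsScalarTower (A ⧸ (RingHom.ker b).comap ψ) (B ⧸ RingHom.ker b) L := by
    refine IsScalarTower.of_algebraMap_eq fun x => ?_
    obtain ⟨x, rfl⟩ := Ideal.Quotient.mk_surjective x
    exact (h x).symm
  have : FaithfulSMul (A ⧸ (RingHom.ker b).comap ψ) K :=
    (faithfulSMul_iff_algebraMap_injective _ _).mpr ha'
  have : FaithfulSMul (B ⧸ RingHom.ker b) L :=
    (faithfulSMul_iff_algebraMap_injective _ _).mpr hb'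
  have : IsFractionRing (A ⧸ (RingHom.ker b).comap ψ) K := by
    refine IsFractionRing.of_field _ _ fun z => ?_
    obtain ⟨x, s, hs, hz⟩ := ha z
    exact ⟨Ideal.Quotient.mk _ x, Ideal.Quotient.mk _ s, (eq_div_iff hs).mpr hz⟩
  have : IsFractionRing (B ⧸ RingHom.ker b) L := by
    refine IsFractionRing.of_field _ _ fun z => ?_
    obtain ⟨x, s, hs, hz⟩ := hb z
    exact ⟨Ideal.Quotient.mk _ x, Ideal.Quotient.mk _ s, (eq_div_iff hs).mpr hz⟩
  exact (IsFractionRing.finrank_eq (A ⧸ (RingHom.ker b).comap ψ) K (B ⧸ RingHom.ker b) L).symm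

theorem R2_ev {X : Scheme.{0}} {U : X.Opens} (hU : IsAffineOpen U) (x : X) (hx : x ∈ U)
    (z : X.residueField x) : ∃ a s : Γ(X, U), X.evaluation U x hx s ≠ 0 ∧
      z * X.evaluation U x hx s = X.evaluation U x hx a := by
  obtain ⟨w, rfl⟩ := X.residue_surjective x z
  let := X.presheaf.algebra_section_stalk ⟨x, hx⟩
  have := hU.isLocalization_stalk ⟨x, hx⟩
  obtain ⟨⟨a, s⟩, h⟩ := IsLocalization.surj (hU.primeIdealOf ⟨x, hx⟩).asIdeal.primeCompl w
  have hu := IsLocalization.map_units (X.presheaf.stalk x) s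
  refine ⟨a, s, ?_, ?_⟩
  · exact (hu.map (X.residue x).hom).ne_zero
  · have h2 := congrArg (X.residue x).hom h
    rw [map_mul] at h2
    exact h2

theorem R2_pt {X : Scheme.{0}} {U : X.Opens} (hU : IsAffineOpen U) (p : Ideal Γ(X, U))
    (hp : p.IsPrime) : ∃ (x : X) (hx : x ∈ U), ∀ a, X.evaluation U x hx a = 0 ↔ a ∈ p := by
  let q : PrimeSpectrum Γ(X, U) := ⟨p, hp⟩
  have hx : hU.fromSpec q ∈ U := by
    have h := hU.range_fromSpec
    have : hU.fromSpec q ∈ Set.range hU.fromSpec := ⟨q, rfl⟩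
    rw [h] at this
    exact this
  refine ⟨hU.fromSpec q, hx, fun a => ?_⟩
  rw [Scheme.evaluation_eq_zero_iff_notMem_basicOpen]
  have h : q ∈ hU.fromSpec ⁻¹ᵁ X.basicOpen a ↔ q ∈ PrimeSpectrum.basicOpen a := by
    rw [hU.fromSpec_preimage_basicOpen]
    exact Iff.rfl
  have h2 : hU.fromSpec q ∈ X.basicOpen a ↔ q ∈ PrimeSpectrum.basicOpen a := h
  rw [h2, PrimeSpectrum.mem_basicOpen, not_not]

theorem thm_R2 : St_R2 := by
  intro X U hU I P hP
  have hp : (P.comap (Ideal.Quotient.mk I)).IsPrime := Ideal.comap_isPrime _ _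
  obtain ⟨x, hx, hxp⟩ := R2_pt hU _ hp
  refine ⟨x, ?_⟩
  intro Y f _ y hy
  subst hy
  have hV : IsAffineOpen (f ⁻¹ᵁ U) := hU.preimage f
  have hyV : y ∈ f ⁻¹ᵁ U := hx
  have hnat : ∀ s, f.residueFieldMap y (X.evaluation U (f y) hx s) =
      Y.evaluation (f ⁻¹ᵁ U) y hyV (f.app U s) := fun s =>
    Scheme.evaluation_naturality_apply f y hx s
  have hIa : ∀ r ∈ I, X.evaluation U (f y) hx r = 0 := by
    intro r hr
    refine (hxp r).mpr ?_
    rw [Ideal.mem_comap, Ideal.Quotient.eq_zero_iff_mem.mpr hr]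
    exact zero_mem _
  have hIb : I.map (f.app U).hom ≤ RingHom.ker (Y.evaluation (f ⁻¹ᵁ U) y hyV).hom := by
    rw [Ideal.map_le_iff_le_comap]
    intro r hr
    rw [Ideal.mem_comap, RingHom.mem_ker]
    have h1 := hnat r
    rw [hIa r hr, map_zero] at h1
    exact h1.symm
  let a : Γ(X, U) ⧸ I →+* X.residueField (f y) :=
    Ideal.Quotient.lift I (X.evaluation U (f y) hx).hom hIa
  let b : Γ(Y, f ⁻¹ᵁ U) ⧸ I.map (f.app U).hom →+* Y.residueField y :=
    Ideal.Quotient.lift _ (Y.evaluation (f ⁻¹ᵁ U) y hyV).hom fun r hr => hIb hr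
  have hab : ∀ z, b (Ideal.quotientMap (I.map (f.app U).hom) (f.app U).hom
      Ideal.le_comap_map z) = (f.residueFieldMap y).hom (a z) := by
    intro z
    obtain ⟨z, rfl⟩ := Ideal.Quotient.mk_surjective z
    exact (hnat z).symm
  have hka : ∀ z, a z = 0 ↔ z ∈ P := by
    intro z
    obtain ⟨z, rfl⟩ := Ideal.Quotient.mk_surjective z
    exact hxp z
  refine ⟨RingHom.ker b, RingHom.ker_isPrime b, ?_, ?_⟩
  · ext z
    rw [Ideal.mem_comap, RingHom.mem_ker, hab, map_eq_zero_iff _ (RingHom.injective _), hka]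
  · refine R2_rk _ a b (f.residueFieldMap y).hom hab ?_ ?_
    · intro z
      obtain ⟨x, s, h1, h2⟩ := R2_ev hU (f y) hx z
      exact ⟨Ideal.Quotient.mk _ x, Ideal.Quotient.mk _ s, h1, h2⟩
    · intro z
      obtain ⟨x, s, h1, h2⟩ := R2_ev hV y hyV z
      exact ⟨Ideal.Quotient.mk _ x, Ideal.Quotient.mk _ s, h1, h2⟩

end Pool.Agent.KSS
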