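import Pool.Agent.KSS.St

/-!
# KSS, module R3: the ideal `idO` cuts out the complement of `O`, also after an affine morphism
-/

set_option autoImplicit false

noncomputable section

namespace Pool.Agent.KSS

open CategoryTheory AlgebraicGeometry TopologicalSpace Function Pool.Agent.Helper11

private theorem R3_pow {X : Scheme.{0}} {U : X.Opens} (r : Γ(X, U)) (n : ℕ) :
    X.basicOpen r ≤ X.basicOpen (r ^ n) := by
  rcases Nat.eq_zero_or_pos n with h | h
  · subst h
    rw [pow_zero, Scheme.basicOpen_of_isUnit _ isUnit_one]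
    exact X.basicOpen_le r
  · rw [Scheme.basicOpen_pow _ _ h]

private theorem R3_mem {X : Scheme.{0}} {U : X.Opens} (hU : IsAffineOpen U)
    (P : PrimeSpectrum Γ(X, U)) (r : Γ(X, U)) :
    hU.fromSpec P ∈ X.basicOpen r ↔ r ∉ P.asIdeal := by
  have h1 := hU.fromSpec_preimage_basicOpen r
  have h2 : (P : (Spec Γ(X, U))) ∈ hU.fromSpec ⁻¹ᵁ X.basicOpen r ↔
      P ∈ PrimeSpectrum.basicOpen r := by
    rw [h1]
    rfl
  exact h2

theorem thm_R3 : St_R3 := by
  intro X U O hU
  refine ⟨⟨Ideal.Quotient.mk_surjective, ?_⟩, ?_⟩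
  · intro r
    constructor
    · intro h
      refine ⟨1, ?_⟩
      rw [pow_one, Ideal.Quotient.eq_zero_iff_mem]
      exact h
    · rintro ⟨n, hn⟩
      rw [← map_pow, Ideal.Quotient.eq_zero_iff_mem] at hn
      exact (R3_pow r n).trans hn
  · intro Y f _
    refine ⟨Ideal.Quotient.mk_surjective, ?_⟩
    intro s
    have hV : IsAffineOpen (f ⁻¹ᵁ U) := hU.preimage f
    constructor
    · intro h
      have h1 : s ∈ ((idO U O).map (f.app U).hom).radical := by
        rw [Ideal.radical_eq_sInf, Ideal.mem_sInf]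
        rintro P ⟨hP, hPp⟩
        by_contra hs
        let P' : PrimeSpectrum Γ(Y, f ⁻¹ᵁ U) := ⟨P, hPp⟩
        have h2 : hV.fromSpec P' ∈ Y.basicOpen s := (R3_mem hV P' s).2 hs
        have h3 : f (hV.fromSpec P') ∈ O := h h2
        have h4 : f (hV.fromSpec P') ∈ U := Y.basicOpen_le s h2
        obtain ⟨r, hr, hr2⟩ := hU.exists_basicOpen_le ⟨f (hV.fromSpec P'), h3⟩ h4
        have h5 : (f.app U).hom r ∈ P := hP (Ideal.mem_map_of_mem _ hr)
        have h6 : hV.fromSpec P' ∈ Y.basicOpen ((f.app U).hom r) := by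
          have h7 := Scheme.preimage_basicOpen f r
          have h8 : hV.fromSpec P' ∈ f ⁻¹ᵁ X.basicOpen r := hr2
          rw [h7] at h8
          exact h8
        exact (R3_mem hV P' _).1 h6 h5
      obtain ⟨n, hn⟩ := h1
      refine ⟨n, ?_⟩
      rw [← map_pow, Ideal.Quotient.eq_zero_iff_mem]
      exact hn
    · rintro ⟨n, hn⟩
      rw [← map_pow, Ideal.Quotient.eq_zero_iff_mem] at hn
      have h1 : (idO U O).map (f.app U).hom ≤ idO (f ⁻¹ᵁ U) (f ⁻¹ᵁ O) := by
        rw [Ideal.map_le_iff_le_comap]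
        intro r hr
        show Y.basicOpen ((f.app U).hom r) ≤ f ⁻¹ᵁ O
        have h7 := Scheme.preimage_basicOpen f r
        have h8 : f ⁻¹ᵁ X.basicOpen r ≤ f ⁻¹ᵁ O := fun y hy => hr hy
        rw [h7] at h8
        exact h8
      exact (R3_pow s n).trans (h1 hn)

end Pool.Agent.KSS
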