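import Pool.Agent.KSS.St

/-!
# KSS, module R4: finite Krull dimension
-/

set_option autoImplicit false

noncomputable section

namespace Pool.Agent.KSS

open CategoryTheory AlgebraicGeometry TopologicalSpace Function

/-- An algebra of finite type over `ZMod p` is noetherian of finite Krull dimension, and so are its
quotients. -/
private lemma dim_of_finiteType (p : ℕ) [Fact p.Prime] (A : Type) [CommRing A]
    (f : ZMod p →+* A) (hf : f.FiniteType) (I : Ideal A) :
    IsNoetherianRing (A ⧸ I) ∧ ∃ n : ℕ, ringKrullDim (A ⧸ I) ≤ n := by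
  let _ : Algebra (ZMod p) A := f.toAlgebra
  have hA : Algebra.FiniteType (ZMod p) A := hf
  obtain ⟨m, φ, hφ⟩ := Algebra.FiniteType.iff_quotient_mvPolynomial''.1 hA
  have hs : Surjective ((Ideal.Quotient.mk I).comp φ.toRingHom) := by
    rw [RingHom.coe_comp]
    exact Ideal.Quotient.mk_surjective.comp hφ
  refine ⟨isNoetherianRing_of_surjective _ _ _ hs, m, ?_⟩
  refine (ringKrullDim_le_of_surjective _ hs).trans ?_
  rw [MvPolynomial.ringKrullDim_of_isNoetherianRing, ringKrullDim_eq_zero_of_field, zero_add]
  simp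

theorem thm_R4 : St_R4 := by
  intro p _ X π _ U hU I
  have h := LocallyOfFiniteType.finiteType_appLE π (isAffineOpen_top _) hU le_top
  have h2 : ((π.appLE ⊤ U le_top).hom.comp
      (Scheme.ΓSpecIso (CommRingCat.of (ZMod p))).inv.hom).FiniteType :=
    h.comp (RingHom.FiniteType.of_surjective _
      (ConcreteCategory.bijective_of_isIso (Scheme.ΓSpecIso (CommRingCat.of (ZMod p))).inv).2)
  exact dim_of_finiteType p _ _ h2 I

end Pool.Agent.KSS
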