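import Pool.Agent.KSS.St

/-!
# KSS [S2]: quasi-coherent sheaves are the localizing sheaves
-/

set_option autoImplicit false

noncomputable section

namespace Pool.Agent.KSS

open CategoryTheory AlgebraicGeometry TopologicalSpace Function Pool.Agent.Helper11

/-! ### presentations -/

set_option backward.isDefEq.respectTransparency false in
/-- a localizing sheaf on the spectrum has a presentation -/
def S2_presSpec {R : CommRingCat.{0}} (N : (Spec R).Modules) [IsIso N.fromTildeΓ] :
    SheafOfModules.Presentation N :=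
  SheafOfModules.Presentation.ofIsIso.{0, 0, 0} N.fromTildeΓ
    (presentationTilde.{0} _ .univ (by simp) _ (Submodule.span_eq _))

set_option backward.isDefEq.respectTransparency false in
/-- the restriction to an affine open subset has a presentation -/
def S2_presU {X : Scheme.{0}} (M : X.Modules) {U : X.Opens} (hU : IsAffineOpen U)
    [IsIso (M.restrict hU.fromSpec).fromTildeΓ] :
    SheafOfModules.Presentation (M.restrict U.ι) :=
  let iso : Scheme.Modules.restrictFunctor hU.fromSpec ⋙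
      Scheme.Modules.restrictFunctor hU.isoSpec.hom ≅ Scheme.Modules.restrictFunctor U.ι :=
    (Scheme.Modules.restrictFunctorComp _ _).symm ≪≫
      Scheme.Modules.restrictFunctorCongr hU.isoSpec_hom_fromSpec
  SheafOfModules.Presentation.ofIsIso.{0, 0, 0} (iso.app M).hom
    (Scheme.Modules.presentationRestrict hU.isoSpec.hom (S2_presSpec (M.restrict hU.fromSpec)))

set_option backward.isDefEq.respectTransparency false in
/-- the same for the site over the open subset -/
def S2_presOver {X : Scheme.{0}} (M : X.Modules) (U : X.Opens)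
    (P : SheafOfModules.Presentation (M.restrict U.ι)) :
    SheafOfModules.Presentation (SheafOfModules.over M U) :=
  let iso : (Scheme.Modules.overEquiv U).inverse.obj (M.restrict U.ι) ≅
      SheafOfModules.over M U :=
    (Scheme.Modules.overEquiv U).inverse.mapIso ((Scheme.Modules.overFunctorEquiv U).app M).symm ≪≫
      ((Scheme.Modules.overEquiv U).unitIso.app _).symm
  SheafOfModules.Presentation.ofIsIso.{0, 0, 0} iso.hom
    (P.map (Scheme.Modules.overEquiv U).inverse
      (U.sheafOfModulesEquivOverInverseUnit X.ringCatSheaf).symm)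


/-! ### sections -/

variable {X : Scheme.{0}}

theorem S2_top {U : X.Opens} (hU : IsAffineOpen U) : hU.fromSpec ''ᵁ ⊤ = U := by
  rw [Scheme.Hom.image_top_eq_opensRange, hU.opensRange_fromSpec]

theorem S2_le {U : X.Opens} (hU : IsAffineOpen U) (V : (Spec Γ(X, U)).Opens) :
    hU.fromSpec ''ᵁ V ≤ U := by
  conv_rhs => rw [← S2_top hU]
  exact Scheme.Hom.image_mono _ le_top

/-- functions on the spectrum and on the scheme -/
theorem S2_fun {U : X.Opens} (hU : IsAffineOpen U) (V : (Spec Γ(X, U)).Opens) (r : Γ(X, U)) :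
    (hU.fromSpec.appIso V).inv (((Spec Γ(X, U)).presheaf.map V.leTop.op)
      ((Scheme.ΓSpecIso Γ(X, U)).inv r)) = rO (S2_le hU V) r := by
  have he : V ≤ hU.fromSpec ⁻¹ᵁ U := by
    rw [hU.fromSpec_preimage_self]; exact le_top
  have h1 := Scheme.Hom.appLE_appIso_inv hU.fromSpec he
  have h2 : hU.fromSpec.appLE U V he = (Scheme.ΓSpecIso Γ(X, U)).inv ≫
      (Spec Γ(X, U)).presheaf.map V.leTop.op := by
    rw [Scheme.Hom.appLE, hU.fromSpec_app_self, Category.assoc, ← Functor.map_comp]
    rfl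
  rw [h2] at h1
  have h3 := congr($h1 r)
  exact h3

variable (M : X.Modules) {U : X.Opens} (hU : IsAffineOpen U)

/-- sections of the restriction -/
def S2_e {V : (Spec Γ(X, U)).Opens} {W : X.Opens} (h : hU.fromSpec ''ᵁ V = W) :
    Γ(M.restrict hU.fromSpec, V) →+ Γ(M, W) :=
  (rM M h.ge).comp (M.restrictAppIso hU.fromSpec V).hom.hom

/-- the inverse of `S2_e` -/
def S2_f {V : (Spec Γ(X, U)).Opens} {W : X.Opens} (h : hU.fromSpec ''ᵁ V = W) :
    Γ(M, W) →+ Γ(M.restrict hU.fromSpec, V) :=
  ((M.restrictAppIso hU.fromSpec V).inv.hom).comp (rM M h.le)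

theorem S2_fe {V : (Spec Γ(X, U)).Opens} {W : X.Opens} (h : hU.fromSpec ''ᵁ V = W)
    (x : Γ(M.restrict hU.fromSpec, V)) : S2_f M hU h (S2_e M hU h x) = x := by
  show (M.restrictAppIso hU.fromSpec V).inv
    (rM M h.le (rM M h.ge ((M.restrictAppIso hU.fromSpec V).hom x))) = x
  rw [rM_rM, rM_self]
  exact congr($((M.restrictAppIso hU.fromSpec V).hom_inv_id) x)

theorem S2_ef {V : (Spec Γ(X, U)).Opens} {W : X.Opens} (h : hU.fromSpec ''ᵁ V = W)
    (y : Γ(M, W)) : S2_e M hU h (S2_f M hU h y) = y := by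
  show rM M h.ge ((M.restrictAppIso hU.fromSpec V).hom
    ((M.restrictAppIso hU.fromSpec V).inv (rM M h.le y))) = y
  have h1 : (M.restrictAppIso hU.fromSpec V).hom
    ((M.restrictAppIso hU.fromSpec V).inv (rM M h.le y)) = rM M h.le y :=
    congr($((M.restrictAppIso hU.fromSpec V).inv_hom_id) (rM M h.le y))
  rw [h1, rM_rM, rM_self]

theorem S2_e_res {V V' : (Spec Γ(X, U)).Opens} {W W' : X.Opens} (h : hU.fromSpec ''ᵁ V = W)
    (h' : hU.fromSpec ''ᵁ V' = W') (hV : V' ≤ V) (hW : W' ≤ W)
    (x : Γ(M.restrict hU.fromSpec, V)) :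
    rM M hW (S2_e M hU h x) = S2_e M hU h' (rM (M.restrict hU.fromSpec) hV x) := by
  show rM M hW (rM M h.ge ((M.restrictAppIso hU.fromSpec V).hom x)) =
    rM M h'.ge ((M.restrictAppIso hU.fromSpec V').hom (rM (M.restrict hU.fromSpec) hV x))
  have h1 : (M.restrictAppIso hU.fromSpec V').hom (rM (M.restrict hU.fromSpec) hV x) =
      rM M (Scheme.Hom.image_mono _ hV) ((M.restrictAppIso hU.fromSpec V).hom x) := rfl
  rw [h1, rM_rM, rM_rM]

theorem S2_e_smul {V : (Spec Γ(X, U)).Opens} {W : X.Opens} (h : hU.fromSpec ''ᵁ V = W)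
    (hW : W ≤ U) (r : Γ(X, U)) (x : Γ(M.restrict hU.fromSpec, V)) :
    S2_e M hU h (r • x) = rO hW r • S2_e M hU h x := by
  subst h
  have h0 : ∀ y : Γ(M.restrict hU.fromSpec, V), S2_e M hU rfl y =
      (M.restrictAppIso hU.fromSpec V).hom y := fun y => rM_self (M := M) (le_refl _) _
  have h1 : S2_e M hU rfl (r • x) = (hU.fromSpec.appIso V).inv
    (((Spec Γ(X, U)).presheaf.map V.leTop.op) ((Scheme.ΓSpecIso Γ(X, U)).inv r)) •
      S2_e M hU rfl x := by
    rw [h0, h0]
    rfl
  rw [h1, S2_fun]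


/-- the basic open subset of the spectrum -/
def S2_D {R : CommRingCat.{0}} (f : R) : (Spec R).Opens := PrimeSpectrum.basicOpen f

open Opposite in
/-- localizing sheaves on the spectrum, in terms of sections -/
theorem S2_loc {R : CommRingCat.{0}} (N : (Spec R).Modules) :
    IsLocalizing (modulesSpecToSheaf.obj N) ↔ ∀ f : R,
      (∀ s : Γ(N, S2_D f), ∃ (n : ℕ) (t : Γ(N, ⊤)),
        rM N (le_top : S2_D f ≤ ⊤) t = f ^ n • s) ∧
      (∀ t : Γ(N, ⊤), rM N (le_top : S2_D f ≤ ⊤) t = 0 → ∃ n : ℕ, f ^ n • t = 0) := by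
  let φ (f : R) := ((modulesSpecToSheaf.obj N).obj.map
    (PrimeSpectrum.basicOpen f).leTop.op).hom
  refine ⟨fun h => ?_, fun h f => IsLocalizedModule.Away.mk_of_addCommGroup ?_ ?_ ?_⟩
  · have hf (f : R) : IsLocalizedModule.Away f (φ f) := h f
    refine fun f => ⟨fun s => ?_, fun t ht => ?_⟩
    · obtain ⟨n, y, hy⟩ := (hf f).surj _ _ s
      exact ⟨n, y, hy.symm⟩
    · obtain ⟨⟨_, n, rfl⟩, hn⟩ := (IsLocalizedModule.eq_zero_iff (.powers f) (φ f)).mp ht
      exact ⟨n, hn⟩
  · exact Scheme.Modules.isUnit_algebraMap_end_of_le_basicOpen f le_rfl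
  · intro x
    obtain ⟨n, t, ht⟩ := (h f).1 x
    exact ⟨n, t, ht.symm⟩
  · intro x hx
    obtain ⟨n, hn⟩ := (h f).2 x hx
    exact ⟨n, hn⟩

/-- the restriction to the spectrum is localizing -/
theorem S2_iff : IsLocalizing (modulesSpecToSheaf.obj (M.restrict hU.fromSpec)) ↔
    ∀ f : Γ(X, U),
    (∀ s : Γ(M, X.basicOpen f), ∃ (n : ℕ) (t : Γ(M, U)),
      rM M (X.basicOpen_le f) t = rO (X.basicOpen_le f) f ^ n • s) ∧
    (∀ t : Γ(M, U), rM M (X.basicOpen_le f) t = 0 → ∃ n : ℕ, f ^ n • t = 0) := by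
  rw [S2_loc]
  have ht := S2_top hU
  refine forall_congr' fun f => and_congr ?_ ?_
  · have hb : hU.fromSpec ''ᵁ S2_D f = X.basicOpen f := hU.fromSpec_image_basicOpen f
    constructor
    · intro h s
      obtain ⟨n, t, h1⟩ := h (S2_f M hU hb s)
      refine ⟨n, S2_e M hU ht t, ?_⟩
      rw [S2_e_res M hU ht hb le_top, h1, S2_e_smul M hU hb (X.basicOpen_le f), S2_ef, map_pow]
    · intro h s
      obtain ⟨n, t, h1⟩ := h (S2_e M hU hb s)
      refine ⟨n, S2_f M hU ht t, ?_⟩
      rw [← S2_fe M hU hb (rM _ _ _), ← S2_e_res M hU ht hb le_top (X.basicOpen_le f), S2_ef, h1,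
        ← map_pow, ← S2_e_smul M hU hb (X.basicOpen_le f), S2_fe]
  · have hb : hU.fromSpec ''ᵁ S2_D f = X.basicOpen f := hU.fromSpec_image_basicOpen f
    constructor
    · intro h t h0
      obtain ⟨n, h1⟩ := h (S2_f M hU ht t) (by
        rw [← S2_fe M hU hb (rM _ _ _), ← S2_e_res M hU ht hb le_top (X.basicOpen_le f), S2_ef, h0,
          map_zero])
      refine ⟨n, ?_⟩
      have h2 := S2_e_smul M hU ht le_rfl (f ^ n) (S2_f M hU ht t)
      rw [h1, map_zero, S2_ef, rO_self] at h2
      exact h2.symm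
    · intro h t h0
      obtain ⟨n, h1⟩ := h (S2_e M hU ht t) (by
        rw [S2_e_res M hU ht hb le_top, h0, map_zero])
      refine ⟨n, ?_⟩
      rw [← S2_fe M hU ht (f ^ n • t), S2_e_smul M hU ht le_rfl, rO_self, h1, map_zero]

/-- Quasi-coherent sheaves are the localizing sheaves. -/
theorem thm_S2 : St_S2 := by
  intro X M
  constructor
  · intro hM U hU
    have h1 : (M.restrict hU.fromSpec).IsQuasicoherent :=
      Scheme.Modules.isQuasicoherent_restrictFunctor hU.fromSpec M
    have h2 : IsIso (M.restrict hU.fromSpec).fromTildeΓ :=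
      Scheme.Modules.isIso_fromTildeΓ_of_isQuasicoherent _
    exact (S2_iff M hU).1 ((isIso_fromTildeΓ_iff_isLocalizing _).1 h2)
  · intro h
    have h1 : ∀ U : X.affineOpens,
        Nonempty (SheafOfModules.Presentation (SheafOfModules.over M U.1)) := by
      rintro ⟨U, (hU : IsAffineOpen U)⟩
      have h2 : IsIso (M.restrict hU.fromSpec).fromTildeΓ :=
        (isIso_fromTildeΓ_iff_isLocalizing _).2 ((S2_iff M hU).2 (h U hU))
      exact ⟨S2_presOver M U (S2_presU M hU)⟩
    let D : SheafOfModules.QuasicoherentData M :=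
      { I := X.affineOpens
        X := fun U => U.1
        coversTop := by
          rw [Opens.coversTop_iff]
          exact iSup_affineOpens_eq_top X
        presentation := fun U => (h1 U).some }
    exact D.isQuasicoherent

end Pool.Agent.KSS
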