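import Pool.Agent.KSS.St

/-!
# KSS: sections over affine opens are exact on quasi-coherent sheaves
-/

set_option autoImplicit false

noncomputable section

namespace Pool.Agent.KSS

open CategoryTheory AlgebraicGeometry TopologicalSpace Function Limits Pool.Agent.Helper11

theorem S3_aux1 {C : Type*} [Category C] {X Y Z W : C} (e₁ : X ⟶ Y) (f : Y ⟶ Z) (e₂ : W ≅ Z) :
    (e₁ ≫ f ≫ e₂.inv) ≫ e₂.hom = e₁ ≫ f := by simp

theorem S3_aux2 {C : Type*} [Category C] {A B M N : C} (b : A ⟶ B) (u₃ : B ⟶ N) (u₂ : A ⟶ M)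
    (g : M ⟶ N) [IsIso u₂] [IsIso u₃] [Epi g] (h : b ≫ u₃ = u₂ ≫ g) : Epi b := by
  have h1 : b = u₂ ≫ g ≫ inv u₃ := by
    rw [← Category.assoc, ← h, Category.assoc, IsIso.hom_inv_id, Category.comp_id]
  rw [h1]
  infer_instance

/-- the cokernel of a morphism of quasi-coherent sheaves on an affine scheme -/
theorem S3_qc {R : CommRingCat.{0}} {M₁ M₂ M₃ : (Spec R).Modules} (f : M₁ ⟶ M₂) (g : M₂ ⟶ M₃)
    (w : f ≫ g = 0) (hc : IsColimit (CokernelCofork.ofπ g w)) (h1 : M₁.IsQuasicoherent)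
    (h2 : M₂.IsQuasicoherent) : M₃.IsQuasicoherent := by
  have : IsIso M₁.fromTildeΓ := inferInstance
  have : IsIso M₂.fromTildeΓ := inferInstance
  rw [isQuasicoherent_iff_isIso_fromTildeΓ, isIso_fromTildeΓ_iff]
  let e₁ := asIso M₁.fromTildeΓ
  let e₂ := asIso M₂.fromTildeΓ
  let a := (tilde.functor R).preimage (e₁.hom ≫ f ≫ e₂.inv)
  have ha : (tilde.functor R).map a = e₁.hom ≫ f ≫ e₂.inv := (tilde.functor R).map_preimage _
  let iso : cokernel ((tilde.functor R).map a) ≅ cokernel f := by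
    refine cokernel.mapIso _ _ e₁ e₂ ?_
    rw [ha]
    exact S3_aux1 _ _ _
  exact ⟨cokernel a, ⟨PreservesCokernel.iso (tilde.functor R) a ≪≫ iso ≪≫
    IsColimit.coconePointUniqueUpToIso (colimit.isColimit _) hc⟩⟩

/-- epimorphisms of quasi-coherent sheaves on an affine scheme are surjective on global
sections -/
theorem S3_surj {R : CommRingCat.{0}} {M₂ M₃ : (Spec R).Modules} (g : M₂ ⟶ M₃) (hg : Epi g)
    (h2 : M₂.IsQuasicoherent) (h3 : M₃.IsQuasicoherent) :
    Surjective (g.app ⊤) := by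
  have i₂ : IsIso M₂.fromTildeΓ := inferInstance
  have i₃ : IsIso M₃.fromTildeΓ := inferInstance
  let b := (moduleSpecΓFunctor (R := R)).map g
  have hnat : (tilde.functor R).map b ≫ M₃.fromTildeΓ = M₂.fromTildeΓ ≫ g :=
    (tilde.adjunction (R := R)).counit.naturality g
  have hepi : Epi ((tilde.functor R).map b) :=
    @S3_aux2 _ _ _ _ _ _ _ _ _ _ i₂ i₃ hg hnat
  have hb : Epi b := (tilde.functor R).epi_of_epi_map hepi
  have hs := (ModuleCat.epi_iff_surjective b).mp hb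
  exact hs

theorem S3_affine {X : Scheme.{0}} (S : ShortComplex X.Modules) (hS : S.ShortExact)
    (h1 : S.X₁.IsQuasicoherent) (h2 : S.X₂.IsQuasicoherent) (U : X.Opens) (hU : IsAffineOpen U) :
    Surjective (S.g.app U) := by
  have hepi : Epi S.g := hS.epi_g
  let F := Scheme.Modules.restrictFunctor hU.fromSpec
  have hc : IsColimit (CokernelCofork.ofπ (F.map S.g)
      (by rw [← F.map_comp, S.zero]; exact F.map_zero _ _)) :=
    CokernelCofork.mapIsColimit _ hS.gIsCokernel F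
  have q1 : (F.obj S.X₁).IsQuasicoherent := inferInstance
  have q2 : (F.obj S.X₂).IsQuasicoherent := inferInstance
  have q3 : (F.obj S.X₃).IsQuasicoherent := S3_qc _ _ _ hc q1 q2
  have e3 : Epi (F.map S.g) := inferInstance
  have hs := S3_surj (F.map S.g) e3 q2 q3
  have hs' : Surjective (S.g.app (hU.fromSpec ''ᵁ ⊤)) := hs
  have hU' : hU.fromSpec ''ᵁ ⊤ = U := by
    rw [Scheme.Hom.image_top_eq_opensRange, hU.opensRange_fromSpec]
  have key : ∀ V : X.Opens, V = U → Surjective (S.g.app V) → Surjective (S.g.app U) := by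
    rintro V rfl h
    exact h
  exact key _ hU' hs'

theorem thm_S3 (h1 : St_S1) (h2 : St_S2) : St_S3 := by
  intro X S hS q1 q2
  have hsur : ∀ U : X.Opens, IsAffineOpen U → Surjective (ap S.g U) :=
    fun U hU => S3_affine S hS q1 q2 U hU
  refine ⟨?_, hsur⟩
  have L1 := (h2 X S.X₁).mp q1
  have L2 := (h2 X S.X₂).mp q2
  obtain ⟨-, hex, -⟩ := h1 X
  rw [h2]
  intro U hU f
  have hD : IsAffineOpen (X.basicOpen f) := hU.basicOpen f
  constructor
  · intro s
    obtain ⟨s₂, hs₂⟩ := hsur _ hD s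
    obtain ⟨n, t₂, ht₂⟩ := (L2 U hU f).1 s₂
    refine ⟨n, ap S.g U t₂, ?_⟩
    rw [rM_ap, ht₂, map_smul, hs₂]
  · intro t ht
    obtain ⟨t₂, rfl⟩ := hsur _ hU t
    rw [rM_ap] at ht
    obtain ⟨s₁, hs₁⟩ := hex S hS.exact hS.mono_f _ _ ht
    obtain ⟨n, t₁, ht₁⟩ := (L1 U hU f).1 s₁
    have hx : rM S.X₂ (X.basicOpen_le f) (f ^ n • t₂ - ap S.f U t₁) = 0 := by
      rw [map_sub, rM_smul, rM_ap, ht₁, map_smul, hs₁, map_pow, sub_self]
    obtain ⟨k, hk⟩ := (L2 U hU f).2 _ hx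
    refine ⟨k + n, ?_⟩
    have h3 : ap S.g U (ap S.f U t₁) = 0 := by
      rw [← ap_comp, S.zero]
      rfl
    have h4 := congrArg (ap S.g U) hk
    rw [map_smul, map_sub, h3, sub_zero, map_smul, map_zero, smul_smul, ← pow_add] at h4
    exact h4

end Pool.Agent.KSS
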