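import Pool.Agent.KSS.St

/-!
# KSS, module S4: kernels, images, cokernels and fibre products of coherent sheaves
-/

set_option autoImplicit false

noncomputable section

namespace Pool.Agent.KSS

open CategoryTheory CategoryTheory.Limits AlgebraicGeometry TopologicalSpace Function
  Pool.Agent.Helper11

namespace S4

variable {X : Scheme.{0}}

theorem ap_neg {M N : X.Modules} (φ : M ⟶ N) (U : X.Opens) (s : Γ(M, U)) :
    ap (-φ) U s = -ap φ U s := by
  have h := ap_add φ (-φ) U s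
  rw [add_neg_cancel, ap_zero] at h
  exact eq_neg_of_add_eq_zero_right h.symm

theorem mono_of_inj {M N : X.Modules} (φ : M ⟶ N) (h : ∀ U : X.Opens, Injective (ap φ U)) :
    Mono φ := by
  refine Preadditive.mono_of_cancel_zero _ fun {Z} g hg => ?_
  refine hom_ext_ap fun U s => ?_
  apply h U
  rw [← ap_comp, hg, ap_zero, ap_zero, map_zero]

/-- quasi-coherence of kernels, through localizing -/
theorem qloc_ker (h1 : St_S1) {M N : X.Modules} (φ : M ⟶ N) (hM : QLoc M) (hN : QLoc N) :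
    QLoc (kernel φ) := by
  obtain ⟨hinj, hex, -, -, -⟩ := h1 X
  have hker : ∀ (U : X.Opens) (s : Γ(M, U)), ap φ U s = 0 → ∃ t, ap (kernel.ι φ) U t = s := by
    intro U s hs
    have he : (ShortComplex.mk (kernel.ι φ) φ (kernel.condition φ)).Exact :=
      ShortComplex.exact_of_f_is_kernel _ (kernelIsKernel φ)
    exact hex _ he inferInstance U s hs
  have hι : ∀ U : X.Opens, Injective (ap (kernel.ι φ) U) := hinj _ _ _ inferInstance
  have hz : ∀ (U : X.Opens) (s : Γ(kernel φ, U)), ap φ U (ap (kernel.ι φ) U s) = 0 := by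
    intro U s
    rw [← ap_comp, kernel.condition, ap_zero]
  intro U hU f
  obtain ⟨hM1, hM2⟩ := hM U hU f
  obtain ⟨hN1, hN2⟩ := hN U hU f
  refine ⟨fun s => ?_, fun t ht => ?_⟩
  · obtain ⟨n, t, ht⟩ := hM1 (ap (kernel.ι φ) _ s)
    have h0 : rM N (X.basicOpen_le f) (ap φ U t) = 0 := by
      rw [rM_ap, ht, LinearMap.map_smul, hz, smul_zero]
    obtain ⟨m, hm⟩ := hN2 _ h0
    rw [← LinearMap.map_smul] at hm
    obtain ⟨t', ht'⟩ := hker U _ hm
    refine ⟨m + n, t', hι _ ?_⟩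
    rw [← rM_ap, ht', rM_smul, ht, LinearMap.map_smul, smul_smul, map_pow, pow_add]
  · have h0 : rM M (X.basicOpen_le f) (ap (kernel.ι φ) U t) = 0 := by
      rw [rM_ap, ht, map_zero]
    obtain ⟨n, hn⟩ := hM2 _ h0
    refine ⟨n, hι _ ?_⟩
    rw [LinearMap.map_smul, hn, map_zero]

theorem sum_eq {F F' : X.Modules} (U : X.Opens) (s : Γ(F ⊞ F', U)) :
    ap biprod.inl U (ap biprod.fst U s) + ap biprod.inr U (ap biprod.snd U s) = s := by
  have h : ap (biprod.fst ≫ biprod.inl + biprod.snd ≫ biprod.inr : F ⊞ F' ⟶ F ⊞ F') U s = s := by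
    rw [biprod.total, ap_id]
  rw [ap_add, ap_comp, ap_comp] at h
  exact h

theorem fst_inl {F F' : X.Modules} (U : X.Opens) (s : Γ(F, U)) :
    ap (biprod.fst : F ⊞ F' ⟶ F) U (ap biprod.inl U s) = s := by
  rw [← ap_comp, biprod.inl_fst, ap_id]

theorem fst_inr {F F' : X.Modules} (U : X.Opens) (s : Γ(F', U)) :
    ap (biprod.fst : F ⊞ F' ⟶ F) U (ap biprod.inr U s) = 0 := by
  rw [← ap_comp, biprod.inr_fst, ap_zero]

theorem snd_inl {F F' : X.Modules} (U : X.Opens) (s : Γ(F, U)) :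
    ap (biprod.snd : F ⊞ F' ⟶ F') U (ap biprod.inl U s) = 0 := by
  rw [← ap_comp, biprod.inl_snd, ap_zero]

theorem snd_inr {F F' : X.Modules} (U : X.Opens) (s : Γ(F', U)) :
    ap (biprod.snd : F ⊞ F' ⟶ F') U (ap biprod.inr U s) = s := by
  rw [← ap_comp, biprod.inr_snd, ap_id]

theorem qloc_biprod {F F' : X.Modules} (hF : QLoc F) (hF' : QLoc F') : QLoc (F ⊞ F') := by
  intro U hU f
  obtain ⟨hM1, hM2⟩ := hF U hU f
  obtain ⟨hN1, hN2⟩ := hF' U hU f
  refine ⟨fun s => ?_, fun t ht => ?_⟩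
  · obtain ⟨n, t, ht⟩ := hM1 (ap biprod.fst _ s)
    obtain ⟨n', t', ht'⟩ := hN1 (ap biprod.snd _ s)
    refine ⟨n + n', ap biprod.inl U (f ^ n' • t) + ap biprod.inr U (f ^ n • t'), ?_⟩
    rw [map_add, rM_ap, rM_ap, rM_smul, rM_smul, ht, ht', map_pow, map_pow, smul_smul, smul_smul,
      ← pow_add, ← pow_add, add_comm n' n, LinearMap.map_smul, LinearMap.map_smul, ← smul_add,
      sum_eq]
  · have h0 : rM F (X.basicOpen_le f) (ap biprod.fst U t) = 0 := by
      rw [rM_ap, ht, map_zero]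
    have h0' : rM F' (X.basicOpen_le f) (ap biprod.snd U t) = 0 := by
      rw [rM_ap, ht, map_zero]
    obtain ⟨n, hn⟩ := hM2 _ h0
    obtain ⟨n', hn'⟩ := hN2 _ h0'
    refine ⟨n + n', ?_⟩
    have e1 : ap biprod.fst U (f ^ (n + n') • t) = 0 := by
      rw [LinearMap.map_smul, add_comm, pow_add, mul_smul, hn, smul_zero]
    have e2 : ap biprod.snd U (f ^ (n + n') • t) = 0 := by
      rw [LinearMap.map_smul, pow_add, mul_smul, hn', smul_zero]
    rw [← sum_eq U (f ^ (n + n') • t), e1, e2, map_zero, map_zero, add_zero]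

theorem coh_biprod (h2 : St_S2) {F F' : X.Modules} (hF : IsCoh F) (hF' : IsCoh F') :
    IsCoh (F ⊞ F') := by
  refine ⟨(h2 X _).mpr (qloc_biprod ((h2 X _).mp hF.1) ((h2 X _).mp hF'.1)), fun U hU => ?_⟩
  have := hF.2 U hU
  have := hF'.2 U hU
  refine Module.Finite.of_surjective ((ap (biprod.inl : F ⟶ F ⊞ F') U).coprod
    (ap (biprod.inr : F' ⟶ F ⊞ F') U)) fun s => ?_
  exact ⟨(ap biprod.fst U s, ap biprod.snd U s), sum_eq U s⟩

/-- part (1) -/
theorem part1 (h1 : St_S1) (h2 : St_S2) (h3 : St_S3) [IsLocallyNoetherian X] (M N : X.Modules)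
    (φ : M ⟶ N) (hM : IsCoh M) (hN : N.IsQuasicoherent) :
    ∃ (K I : X.Modules) (ι : K ⟶ M) (π : M ⟶ I) (κ : I ⟶ N) (w : ι ≫ π = 0),
      IsCoh K ∧ IsCoh I ∧ (ShortComplex.mk ι π w).ShortExact ∧ π ≫ κ = φ ∧
      (∀ U : X.Opens, Injective (ap κ U)) ∧
      (∀ U : X.Opens, IsAffineOpen U → Surjective (ap π U)) ∧
      (∀ U : X.Opens, Injective (ap ι U)) ∧
      (∀ (U : X.Opens) (s : Γ(M, U)), ap φ U s = 0 ↔ ∃ t, ap ι U t = s) := by
  obtain ⟨hinj, hex, -, -, -⟩ := h1 X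
  have hse : (ShortComplex.mk (kernel.ι φ) (Abelian.coimage.π φ)
      (cokernel.condition (kernel.ι φ))).ShortExact :=
    { exact := ShortComplex.exact_of_g_is_cokernel _ (cokernelIsCokernel (kernel.ι φ))
      mono_f := (inferInstance : Mono (kernel.ι φ))
      epi_g := (inferInstance : Epi (cokernel.π (kernel.ι φ))) }
  have hKq : (kernel φ).IsQuasicoherent :=
    (h2 X _).mpr (qloc_ker h1 φ ((h2 X _).mp hM.1) ((h2 X _).mp hN))
  obtain ⟨hIq, hπ⟩ := h3 X _ hse hKq hM.1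
  have hι : ∀ U : X.Opens, Injective (ap (kernel.ι φ) U) := hinj _ _ _ inferInstance
  refine ⟨kernel φ, Abelian.coimage φ, kernel.ι φ, Abelian.coimage.π φ,
    Abelian.factorThruCoimage φ, cokernel.condition (kernel.ι φ), ⟨hKq, fun U hU => ?_⟩,
    ⟨hIq, fun U hU => ?_⟩, hse, Abelian.coimage.fac φ, hinj _ _ _ inferInstance, hπ, hι,
    fun U s => ⟨fun hs => ?_, ?_⟩⟩
  · have := hM.2 U hU
    have : IsNoetherianRing Γ(X, U) := IsLocallyNoetherian.component_noetherian ⟨U, hU⟩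
    exact Module.Finite.of_injective (ap (kernel.ι φ) U) (hι U)
  · have := hM.2 U hU
    exact Module.Finite.of_surjective (ap (Abelian.coimage.π φ) U) (hπ U hU)
  · have he : (ShortComplex.mk (kernel.ι φ) φ (kernel.condition φ)).Exact :=
      ShortComplex.exact_of_f_is_kernel _ (kernelIsKernel φ)
    exact hex _ he inferInstance U s hs
  · rintro ⟨t, rfl⟩
    rw [← ap_comp, kernel.condition, ap_zero]

/-- part (2) -/
theorem part2 (h1 : St_S1) (h3 : St_S3) (M N : X.Modules)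
    (φ : M ⟶ N) (hM : IsCoh M) (hN : IsCoh N) (hφ : ∀ U : X.Opens, Injective (ap φ U)) :
    ∃ (C : X.Modules) (ρ : N ⟶ C) (w : φ ≫ ρ = 0),
      IsCoh C ∧ (ShortComplex.mk φ ρ w).ShortExact ∧
      (∀ U : X.Opens, IsAffineOpen U → Surjective (ap ρ U)) ∧
      (∀ (U : X.Opens) (s : Γ(N, U)), ap ρ U s = 0 ↔ ∃ t, ap φ U t = s) := by
  obtain ⟨hinj, hex, -, -, -⟩ := h1 X
  have := mono_of_inj φ hφ
  have hse : (ShortComplex.mk φ (cokernel.π φ) (cokernel.condition φ)).ShortExact :=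
    { exact := ShortComplex.exact_of_g_is_cokernel _ (cokernelIsCokernel φ)
      mono_f := (inferInstance : Mono φ)
      epi_g := (inferInstance : Epi (cokernel.π φ)) }
  obtain ⟨hq, hρ⟩ := h3 X _ hse hM.1 hN.1
  refine ⟨cokernel φ, cokernel.π φ, cokernel.condition φ, ⟨hq, fun U hU => ?_⟩, hse, hρ,
    fun U s => ⟨fun hs => hex _ hse.exact hse.mono_f U s hs, ?_⟩⟩
  · have := hN.2 U hU
    exact Module.Finite.of_surjective (ap (cokernel.π φ) U) (hρ U hU)
  · rintro ⟨t, rfl⟩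
    rw [← ap_comp, cokernel.condition, ap_zero]

end S4

open S4 in
/-- **S4**: kernels, images, cokernels, fibre products of coherent sheaves. -/
theorem thm_S4 (h1 : St_S1) (h2 : St_S2) (h3 : St_S3) : St_S4 := by
  intro X _
  refine ⟨part1 h1 h2 h3, part2 h1 h3, ?_⟩
  intro F F' E u u' hF hF' hE
  obtain ⟨P, -, ι, -, -, -, hP, -, -, -, -, -, hι, hker⟩ :=
    part1 h1 h2 h3 (F ⊞ F') E (biprod.desc u (-u')) (coh_biprod h2 hF hF') hE
  have hval : ∀ (U : X.Opens) (s : Γ(F ⊞ F', U)), ap (biprod.desc u (-u')) U s =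
      ap u U (ap biprod.fst U s) - ap u' U (ap biprod.snd U s) := by
    intro U s
    have e1 : ∀ r, ap (biprod.desc u (-u')) U (ap biprod.inl U r) = ap u U r := by
      intro r
      rw [← ap_comp, biprod.inl_desc]
    have e2 : ∀ r, ap (biprod.desc u (-u')) U (ap biprod.inr U r) = -ap u' U r := by
      intro r
      rw [← ap_comp, biprod.inr_desc, ap_neg]
    conv_lhs => rw [← sum_eq U s]
    rw [map_add, e1, e2, sub_eq_add_neg]
  refine ⟨P, ι ≫ biprod.fst, ι ≫ biprod.snd, hP, hom_ext_ap fun U t => ?_, ?_, ?_⟩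
  · have h := (hker U (ap ι U t)).mpr ⟨t, rfl⟩
    rw [hval, sub_eq_zero] at h
    rw [ap_comp, ap_comp, ap_comp, ap_comp]
    exact h
  · intro U s s' ha hb
    apply hι U
    rw [← sum_eq U (ap ι U s), ← sum_eq U (ap ι U s')]
    rw [ap_comp, ap_comp] at ha hb
    rw [ha, hb]
  · intro U s s' hs
    obtain ⟨t, ht⟩ := (hker U (ap biprod.inl U s + ap biprod.inr U s')).mp (by
      have e1 : ap biprod.fst U (ap biprod.inl U s + ap biprod.inr U s') = s := by
        rw [map_add, fst_inl, fst_inr, add_zero]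
      have e2 : ap biprod.snd U (ap biprod.inl U s + ap biprod.inr U s') = s' := by
        rw [map_add, snd_inl, snd_inr, zero_add]
      rw [hval, e1, e2, hs, sub_self])
    refine ⟨t, ?_, ?_⟩
    · rw [ap_comp, ht, map_add, fst_inl, fst_inr, add_zero]
    · rw [ap_comp, ht, map_add, snd_inl, snd_inr, zero_add]

end Pool.Agent.KSS
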