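import Pool.Agent.KSS.St

/-!
# KSS S6: pushforward along affine and finite morphisms
-/

set_option autoImplicit false

noncomputable section

namespace Pool.Agent.KSS

open CategoryTheory AlgebraicGeometry TopologicalSpace Function Pool.Agent.Helper11

/-- the module structure of the sections of a pushforward -/
theorem S6_smul {X Y : Scheme.{0}} (f : Y ⟶ X) (M : Y.Modules) (U : X.Opens) (r : Γ(X, U))
    (s : Γ(M, f ⁻¹ᵁ U)) :
    (show Γ(M, f ⁻¹ᵁ U) from r • (show Γ((Scheme.Modules.pushforward f).obj M, U) from s)) =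
      (f.app U).hom r • s := rfl

/-- restriction of sections of a pushforward -/
theorem S6_rM {X Y : Scheme.{0}} (f : Y ⟶ X) (M : Y.Modules) {U V : X.Opens} (h : V ≤ U)
    (h' : f ⁻¹ᵁ V ≤ f ⁻¹ᵁ U) (s : Γ(M, f ⁻¹ᵁ U)) :
    (show Γ(M, f ⁻¹ᵁ V) from rM ((Scheme.Modules.pushforward f).obj M) h s) = rM M h' s := rfl

/-- naturality -/
theorem S6_rO {X Y : Scheme.{0}} (f : Y ⟶ X) {U V : X.Opens} (h : V ≤ U)
    (h' : f ⁻¹ᵁ V ≤ f ⁻¹ᵁ U) (r : Γ(X, U)) :
    (f.app V).hom (rO h r) = rO h' ((f.app U).hom r) :=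
  congr($(f.naturality (homOfLE h).op) r)

/-- the localizing property on an open set equal to a basic open one -/
theorem S6_loc {Y : Scheme.{0}} (M : Y.Modules) (hM : QLoc M) {V : Y.Opens} (hV : IsAffineOpen V)
    (g : Γ(Y, V)) (W : Y.Opens) (hW : W = Y.basicOpen g) (hWV : W ≤ V) :
    (∀ s : Γ(M, W), ∃ (n : ℕ) (t : Γ(M, V)), rM M hWV t = rO hWV g ^ n • s) ∧
      (∀ t : Γ(M, V), rM M hWV t = 0 → ∃ n : ℕ, g ^ n • t = 0) := by
  subst hW
  exact hM V hV g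

/-- finiteness of the sections of the pushforward along a finite morphism -/
theorem S6_fin {X Y : Scheme.{0}} (f : Y ⟶ X) (M : Y.Modules) (U : X.Opens)
    (hf : (f.app U).hom.Finite) (hM : Module.Finite Γ(Y, f ⁻¹ᵁ U) Γ(M, f ⁻¹ᵁ U)) :
    Module.Finite Γ(X, U) Γ((Scheme.Modules.pushforward f).obj M, U) := by
  let := (f.app U).hom.toAlgebra
  have : Module.Finite Γ(X, U) Γ(Y, f ⁻¹ᵁ U) := hf
  let : Module Γ(X, U) Γ(M, f ⁻¹ᵁ U) :=
    inferInstanceAs (Module Γ(X, U) Γ((Scheme.Modules.pushforward f).obj M, U))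
  have : IsScalarTower Γ(X, U) Γ(Y, f ⁻¹ᵁ U) Γ(M, f ⁻¹ᵁ U) := by
    refine ⟨fun r a s => ?_⟩
    have e1 : (r • a) • s = ((f.app U).hom r * a) • s := rfl
    have e2 : r • (a • s) = (f.app U).hom r • (a • s) := S6_smul f M U r (a • s)
    rw [e1, e2, mul_smul]
  exact Module.Finite.trans (R := Γ(X, U)) Γ(Y, f ⁻¹ᵁ U) Γ(M, f ⁻¹ᵁ U)

theorem thm_S6 (h1 : St_S1) (h2 : St_S2) (h3 : St_S3) : St_S6 := by
  intro X Y f _
  have key : ∀ M : Y.Modules, M.IsQuasicoherent →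
      ((Scheme.Modules.pushforward f).obj M).IsQuasicoherent := by
    intro M hM
    rw [h2] at hM ⊢
    intro U hU h
    have hV : IsAffineOpen (f ⁻¹ᵁ U) := hU.preimage f
    have hW : f ⁻¹ᵁ X.basicOpen h = Y.basicOpen ((f.app U).hom h) := Scheme.preimage_basicOpen f h
    have hle : f ⁻¹ᵁ X.basicOpen h ≤ f ⁻¹ᵁ U := by
      rw [hW]
      exact Y.basicOpen_le _
    obtain ⟨h4, h5⟩ := S6_loc M hM hV ((f.app U).hom h) _ hW hle
    constructor
    · intro s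
      obtain ⟨n, t, ht⟩ := h4 s
      refine ⟨n, t, ?_⟩
      have e := S6_smul f M (X.basicOpen h) (rO (X.basicOpen_le h) h ^ n) s
      rw [map_pow, S6_rO f (X.basicOpen_le h) hle h] at e
      exact ht.trans e.symm
    · intro t ht
      obtain ⟨n, hn⟩ := h5 t ht
      refine ⟨n, ?_⟩
      have e := S6_smul f M U (h ^ n) t
      rw [map_pow] at e
      exact e.trans hn
  refine ⟨key, ?_, ?_⟩
  · intro S hS hS1 hS2
    have hS3 := (h3 Y S hS hS1 hS2).2
    refine (h1 X).2.2.2.2 _ ?_ ?_ ?_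
    · intro U _
      exact (h1 Y).1 _ _ S.f hS.mono_f (f ⁻¹ᵁ U)
    · intro U _ s hs
      exact (h1 Y).2.1 S hS.exact hS.mono_f (f ⁻¹ᵁ U) s hs
    · intro U hU
      exact hS3 (f ⁻¹ᵁ U) (hU.preimage f)
  · intro hf M hM
    exact ⟨key M hM.1, fun U hU =>
      S6_fin f M U (hf.finite_app U hU) (hM.2 _ (hU.preimage f))⟩

end Pool.Agent.KSS
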