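import Pool.Agent.KSS.S2

/-!
# KSS [S7]: the quasi-coherent sheaf `j_* (tilde N)` of a module over an affine open subset
-/

set_option autoImplicit false

noncomputable section

namespace Pool.Agent.KSS

open CategoryTheory AlgebraicGeometry TopologicalSpace Function Pool.Agent.Helper11

section spec

variable {R : CommRingCat.{0}} (N : ModuleCat.{0} R)

/-- the map `N → Γ(tilde N, V)` -/
private def tau (V : (Spec R).Opens) : N →+ Γ(tilde N, V) :=
  (tilde.toOpen N V).hom.toAddMonoidHom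

private theorem tau_smul (V : (Spec R).Opens) (r : R) (n : N) :
    tau N V (r • n) = r • tau N V n := (tilde.toOpen N V).hom.map_smul r n

private theorem tau_res {V V' : (Spec R).Opens} (h : V' ≤ V) (n : N) :
    rM (tilde N) h (tau N V n) = tau N V' n := rfl

private theorem tau_top : Bijective (tau N ⊤) :=
  ConcreteCategory.bijective_of_isIso (tilde.toOpen N ⊤)

private theorem bij_rM {X : Scheme.{0}} (M : X.Modules) {V V' : X.Opens} (h : V' ≤ V)
    (e : V' = V) : Bijective (rM M h) := by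
  subst e
  have : ∀ s, rM M h s = s := fun s => rM_self h s
  exact ⟨fun a b hab => by rwa [this, this] at hab, fun s => ⟨s, this s⟩⟩

private theorem tau_bij {V : (Spec R).Opens} (h : V = ⊤) : Bijective (tau N V) := by
  subst h
  exact tau_top N

private theorem fromT (M : (Spec R).Modules) (V : (Spec R).Opens) (x : Γ(M, ⊤)) :
    ap M.fromTildeΓ V (tau ((modulesSpecToSheaf.obj M).presheaf.obj (.op ⊤)) V x) =
      rM M (le_top : V ≤ ⊤) x :=
  congr($(Scheme.Modules.toOpen_fromTildeΓ_app M V) x)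

private theorem mapT {N' : ModuleCat.{0} R} (f : N' ⟶ N) (V : (Spec R).Opens) (x : N') :
    ap (tilde.map f) V (tau N' V x) = tau N V (f x) :=
  congr($(tilde.toOpen_map_app f V) x)

/-- the localization of `N` at `r` -/
private theorem tau_loc (r : R) (hr : ∀ n : N, ∃ k : ℕ, r ^ k • n = 0)
    (s : Γ(tilde N, S2_D r)) : s = 0 := by
  obtain ⟨n, t, ht⟩ := ((S2_loc (tilde N)).1 (isLocalizing_tilde N) r).1 s
  obtain ⟨m, rfl⟩ := (tau_top N).2 t
  obtain ⟨k, hk⟩ := hr m
  rw [tau_res] at ht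
  have h1 : r ^ k • r ^ n • s = 0 := by
    rw [← ht, ← tau_smul, hk, map_zero]
  have hreg := (tilde N).isSMulRegular_of_le_basicOpen (f := r) (U := S2_D r) le_rfl
  exact (hreg.pow n).right_eq_zero_of_smul ((hreg.pow k).right_eq_zero_of_smul h1)

/-- vanishing on an open subset of the spectrum -/
private theorem tau_van (V : (Spec R).Opens)
    (hV : ∀ r : R, S2_D r ≤ V → ∀ n : N, ∃ k : ℕ, r ^ k • n = 0) (s : Γ(tilde N, V)) : s = 0 := by
  refine TopCat.Sheaf.eq_of_locally_eq' ⟨_, (tilde N).isSheaf⟩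
    (fun r : {r : R // S2_D r ≤ V} => S2_D r.1) V (fun r => homOfLE r.2) ?_ _ _ ?_
  · intro x hx
    obtain ⟨_, ⟨_, ⟨r, rfl⟩, rfl⟩, hxr, hrV⟩ :=
      PrimeSpectrum.isBasis_basic_opens.exists_subset_of_mem_open hx V.2
    exact Opens.mem_iSup.2 ⟨⟨r, hrV⟩, hxr⟩
  · intro r
    have h1 := tau_loc N r.1 (hV r.1 r.2)
    rw [map_zero]
    exact h1 _

end spec

section main

variable {X : Scheme.{0}} {U : X.Opens} (hU : IsAffineOpen U) (N : ModuleCat.{0} Γ(X, U))

/-- the sheaf `j_* (tilde N)` -/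
private def EE : X.Modules := (Scheme.Modules.pushforward hU.fromSpec).obj (tilde N)

/-- the map `N → Γ(E, U)` -/
private def eta : N →ₗ[Γ(X, U)] Γ(EE hU N, U) where
  toFun n := tau N (hU.fromSpec ⁻¹ᵁ U) n
  map_add' x y := map_add _ x y
  map_smul' r x := by
    rw [tau_smul, RingHom.id_apply]
    have h1 : (Spec Γ(X, U)).presheaf.map (homOfLE (le_top : hU.fromSpec ⁻¹ᵁ U ≤ ⊤)).op
        ((Scheme.ΓSpecIso Γ(X, U)).inv r) = hU.fromSpec.app U r := by
      rw [hU.fromSpec_app_self]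
      rfl
    rw [Scheme.Modules.smul_Spec_def]
    change _ = (hU.fromSpec.app U r) • (tau N (hU.fromSpec ⁻¹ᵁ U) x)
    rw [← h1]
    rfl

private theorem eta_bij : Bijective (eta hU N) := tau_bij N hU.fromSpec_preimage_self

/-- the morphism to `E` given by a linear map -/
private theorem exists_hom (F : X.Modules) (hF : F.IsQuasicoherent) (h : Γ(F, U) →ₗ[Γ(X, U)] N) :
    ∃ u : F ⟶ EE hU N, ∀ s, ap u U s = eta hU N (h s) := by
  have hq : (F.restrict hU.fromSpec).IsQuasicoherent :=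
    Scheme.Modules.isQuasicoherent_restrictFunctor hU.fromSpec F
  let G : (Spec Γ(X, U)).Modules := F.restrict hU.fromSpec
  have hi : IsIso G.fromTildeΓ := Scheme.Modules.isIso_fromTildeΓ_of_isQuasicoherent G
  let hl : Γ(G, ⊤) →ₗ[Γ(X, U)] N :=
    { toFun := fun x => h (S2_e F hU (S2_top hU) x)
      map_add' := fun x y => by
        have := map_add (S2_e F hU (S2_top hU)) x y
        exact (congrArg h this).trans (map_add h _ _)
      map_smul' := fun r x => by
        have h1 := S2_e_smul F hU (S2_top hU) le_rfl r x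
        rw [rO_self] at h1
        exact (congrArg h h1).trans (map_smul h r _) }
  let h₁ : ModuleCat.of Γ(X, U) Γ(G, ⊤) ⟶ ModuleCat.of Γ(X, U) N := ModuleCat.ofHom hl
  let h' : (modulesSpecToSheaf.obj G).presheaf.obj (.op ⊤) ⟶ N := h₁
  let v : G ⟶ tilde N := inv G.fromTildeΓ ≫ tilde.map h'
  refine ⟨(Scheme.Modules.restrictAdjunction hU.fromSpec).unit.app F ≫
    (Scheme.Modules.pushforward hU.fromSpec).map v, fun s => ?_⟩
  let x : Γ(G, ⊤) := S2_f F hU (S2_top hU) s
  have h1 : ap ((Scheme.Modules.restrictAdjunction hU.fromSpec).unit.app F ≫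
      (Scheme.Modules.pushforward hU.fromSpec).map v) U s =
      ap v (hU.fromSpec ⁻¹ᵁ U) (rM G (le_top : hU.fromSpec ⁻¹ᵁ U ≤ ⊤) x) := by
    have h2 : rM G (le_top : hU.fromSpec ⁻¹ᵁ U ≤ ⊤) x =
        rM F (hU.fromSpec.image_preimage_le U) s :=
      rM_rM (M := F) (S2_top hU).le (Scheme.Hom.image_mono hU.fromSpec le_top) s
    rw [h2]
    rfl
  refine h1.trans ?_
  have h4 : ap v (hU.fromSpec ⁻¹ᵁ U) (rM G (le_top : hU.fromSpec ⁻¹ᵁ U ≤ ⊤) x) =
      ap (tilde.map h') (hU.fromSpec ⁻¹ᵁ U) (tau _ (hU.fromSpec ⁻¹ᵁ U) x) := by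
    rw [← fromT G, ← ap_comp, IsIso.hom_inv_id_assoc]
  refine h4.trans ((mapT N h' (hU.fromSpec ⁻¹ᵁ U) x).trans ?_)
  change tau N (hU.fromSpec ⁻¹ᵁ U) (h (S2_e F hU (S2_top hU) (S2_f F hU (S2_top hU) s))) = _
  rw [S2_ef]
  rfl

end main

theorem thm_S7 (_h1 : St_S1) (_h2 : St_S2) (h6 : St_S6) : St_S7 := by
  intro X _ U hU N _ _
  let N' : ModuleCat.{0} Γ(X, U) := ModuleCat.of Γ(X, U) N
  have haff : IsAffineHom hU.fromSpec := by
    have : IsAffineHom (hU.fromSpec ≫ Limits.terminal.from X) := inferInstance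
    exact IsAffineHom.of_comp hU.fromSpec (Limits.terminal.from X)
  refine ⟨EE hU N', (LinearEquiv.ofBijective (eta hU N') (eta_bij hU N')).symm, ?_, ?_, ?_, ?_⟩
  · exact (h6 _ _ hU.fromSpec).1 _ inferInstance
  · exact bij_rM (tilde N') (Scheme.Hom.preimage_mono hU.fromSpec le_top)
      (by rw [hU.fromSpec_preimage_self]; rfl)
  · intro F hF h
    obtain ⟨u, hu⟩ := exists_hom hU N' F hF h
    refine ⟨u, fun s => ?_⟩
    rw [LinearEquiv.symm_apply_eq]
    exact hu s
  · intro O hO W hWO hW s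
    refine tau_van N' (hU.fromSpec ⁻¹ᵁ W) (fun r hr n => hO r ?_ n) s
    refine le_trans ?_ hWO
    rw [← hU.fromSpec_image_basicOpen]
    exact (Scheme.Hom.image_mono hU.fromSpec hr).trans (hU.fromSpec.image_preimage_le W)

end Pool.Agent.KSS
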