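import Pool.Agent.KSS.St

/-!
# KSS, module S8: adding a section to a coherent subsheaf
-/

set_option autoImplicit false

noncomputable section

namespace Pool.Agent.KSS

open CategoryTheory CategoryTheory.Limits AlgebraicGeometry TopologicalSpace Function
  Pool.Agent.Helper11

variable {X : Scheme.{0}}

/-- the structure sheaf as a sheaf of modules -/
private def s8O (X : Scheme.{0}) : X.Modules := SheafOfModules.unit X.ringCatSheaf

/-- its sections -/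
private def s8e (X : Scheme.{0}) (U : X.Opens) : Γ(X, U) ≃ₗ[Γ(X, U)] Γ(s8O X, U) where
  toFun r := r
  invFun r := r
  map_add' _ _ := rfl
  map_smul' _ _ := rfl
  left_inv _ := rfl
  right_inv _ := rfl

private theorem s8_rM {V U : X.Opens} (h : V ≤ U) (r : Γ(X, U)) :
    rM (s8O X) h (s8e X U r) = s8e X V (rO h r) := rfl

/-- the morphism given by a global section -/
private theorem s8_v (M : X.Modules) (m : Γ(M, ⊤)) : ∃ v : s8O X ⟶ M,
    ∀ (U : X.Opens) (r : Γ(X, U)), ap v U (s8e X U r) = r • rM M (le_top : U ≤ ⊤) m := by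
  obtain ⟨v, hv⟩ := (SheafOfModules.unitHomEquiv (R := X.ringCatSheaf) M).surjective
    (PresheafOfModules.sectionsMk (M := M.val) (fun U => rM M (le_top : U.unop ≤ ⊤) m) (by
      intro U V f
      exact rM_rM (M := M) (le_top : U.unop ≤ ⊤) f.unop.le m))
  obtain ⟨v', hv'⟩ : ∃ v' : s8O X ⟶ M, v' = v := ⟨v, rfl⟩
  refine ⟨v', fun U r => ?_⟩
  have h1 : ap v' U (s8e X U 1) = rM M (le_top : U ≤ ⊤) m := by
    rw [hv']
    have h2 := congrArg (fun s => s.val (Opposite.op U)) hv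
    exact h2
  have h2 : s8e X U r = r • s8e X U 1 := by
    rw [← map_smul, smul_eq_mul, mul_one]
  rw [h2, map_smul, h1]

/-- the structure sheaf is localizing -/
private theorem s8_QLoc : QLoc (s8O X) := by
  intro U hU f
  have hloc : IsLocalization.Away f Γ(X, X.basicOpen f) := hU.isLocalization_basicOpen f
  have halg : ∀ r : Γ(X, U), algebraMap Γ(X, U) Γ(X, X.basicOpen f) r =
      rO (X.basicOpen_le f) r := fun r => rfl
  constructor
  · intro s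
    obtain ⟨⟨a, ⟨_, n, rfl⟩⟩, h1⟩ := IsLocalization.surj (Submonoid.powers f)
      ((s8e X (X.basicOpen f)).symm s)
    refine ⟨n, s8e X U a, ?_⟩
    have h2 : (s8e X (X.basicOpen f)).symm s * rO (X.basicOpen_le f) (f ^ n) =
        rO (X.basicOpen_le f) a := h1
    rw [s8_rM, ← h2, map_pow]
    have h3 : s = s8e X (X.basicOpen f) ((s8e X (X.basicOpen f)).symm s) :=
      ((s8e X (X.basicOpen f)).apply_symm_apply s).symm
    conv_rhs => rw [h3]
    rw [← map_smul, smul_eq_mul, mul_comm]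
  · intro t ht
    have h1 : rO (X.basicOpen_le f) ((s8e X U).symm t) = 0 := ht
    obtain ⟨⟨_, n, rfl⟩, h2⟩ := (IsLocalization.map_eq_zero_iff (Submonoid.powers f)
      Γ(X, X.basicOpen f) ((s8e X U).symm t)).1 h1
    refine ⟨n, ?_⟩
    have h3 : f ^ n • t = s8e X U (f ^ n * (s8e X U).symm t) := rfl
    rw [h3]
    have h4 : f ^ n * (s8e X U).symm t = 0 := h2
    rw [h4, map_zero]

section biprod

variable (A B : X.Modules)

private theorem s8_sum (U : X.Opens) (s : Γ(A ⊞ B, U)) :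
    s = ap (biprod.inl : A ⟶ A ⊞ B) U (ap (biprod.fst : A ⊞ B ⟶ A) U s) +
      ap (biprod.inr : B ⟶ A ⊞ B) U (ap (biprod.snd : A ⊞ B ⟶ B) U s) := by
  rw [← ap_comp, ← ap_comp, ← ap_add, biprod.total, ap_id]

private theorem s8_QLoc_biprod (hA : QLoc A) (hB : QLoc B) : QLoc (A ⊞ B) := by
  intro U hU f
  obtain ⟨a1, a2⟩ := hA U hU f
  obtain ⟨b1, b2⟩ := hB U hU f
  constructor
  · intro s
    obtain ⟨n1, t1, h1⟩ := a1 (ap (biprod.fst : A ⊞ B ⟶ A) _ s)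
    obtain ⟨n2, t2, h2⟩ := b1 (ap (biprod.snd : A ⊞ B ⟶ B) _ s)
    refine ⟨n1 + n2, ap (biprod.inl : A ⟶ A ⊞ B) U (f ^ n2 • t1) +
      ap (biprod.inr : B ⟶ A ⊞ B) U (f ^ n1 • t2), ?_⟩
    rw [map_add, rM_ap, rM_ap, rM_smul, rM_smul, h1, h2, map_pow, map_pow, smul_smul, smul_smul,
      ← pow_add, ← pow_add, add_comm n2 n1, map_smul, map_smul, ← smul_add, ← s8_sum]
  · intro t ht
    obtain ⟨n1, h1⟩ := a2 (ap (biprod.fst : A ⊞ B ⟶ A) _ t) (by rw [rM_ap, ht, map_zero])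
    obtain ⟨n2, h2⟩ := b2 (ap (biprod.snd : A ⊞ B ⟶ B) _ t) (by rw [rM_ap, ht, map_zero])
    refine ⟨n1 + n2, ?_⟩
    have h3 : f ^ (n1 + n2) • ap (biprod.fst : A ⊞ B ⟶ A) _ t = 0 := by
      rw [add_comm, pow_add, ← smul_smul, h1, smul_zero]
    have h4 : f ^ (n1 + n2) • ap (biprod.snd : A ⊞ B ⟶ B) _ t = 0 := by
      rw [pow_add, ← smul_smul, h2, smul_zero]
    have h5 : f ^ (n1 + n2) • ap (biprod.inl : A ⟶ A ⊞ B) U
        (ap (biprod.fst : A ⊞ B ⟶ A) U t) = 0 := by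
      rw [← (ap (biprod.inl : A ⟶ A ⊞ B) U).map_smul, h3, map_zero]
    have h6 : f ^ (n1 + n2) • ap (biprod.inr : B ⟶ A ⊞ B) U
        (ap (biprod.snd : A ⊞ B ⟶ B) U t) = 0 := by
      rw [← (ap (biprod.inr : B ⟶ A ⊞ B) U).map_smul, h4, map_zero]
    rw [s8_sum A B U t, smul_add, h5, h6, add_zero]

variable {A B}

private theorem s8_inl {M : X.Modules} (u : A ⟶ M) (v : B ⟶ M) (U : X.Opens) (s : Γ(A, U)) :
    ap (biprod.desc u v) U (ap (biprod.inl : A ⟶ A ⊞ B) U s) = ap u U s := by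
  rw [← ap_comp, biprod.inl_desc]

private theorem s8_inr {M : X.Modules} (u : A ⟶ M) (v : B ⟶ M) (U : X.Opens) (s : Γ(B, U)) :
    ap (biprod.desc u v) U (ap (biprod.inr : B ⟶ A ⊞ B) U s) = ap v U s := by
  rw [← ap_comp, biprod.inr_desc]

end biprod

/-- [S8] -/
theorem thm_S8 (h2 : St_S2) (h4 : St_S4) : St_S8 := by
  intro X _ M F u hF hM m
  obtain ⟨v, hv⟩ := s8_v M m
  have hO : (s8O X).IsQuasicoherent := (h2 X _).2 s8_QLoc
  have hB : IsCoh (F ⊞ s8O X) := by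
    refine ⟨(h2 X _).2 (s8_QLoc_biprod _ _ ((h2 X _).1 hF.1) s8_QLoc), fun U hU => ?_⟩
    have hf1 : Module.Finite Γ(X, U) Γ(F, U) := hF.2 U hU
    have hf2 : Module.Finite Γ(X, U) Γ(s8O X, U) := Module.Finite.equiv (s8e X U)
    refine Module.Finite.of_surjective ((ap (biprod.inl : F ⟶ F ⊞ s8O X) U).coprod
      (ap (biprod.inr : s8O X ⟶ F ⊞ s8O X) U)) fun s => ?_
    exact ⟨(ap (biprod.fst : F ⊞ s8O X ⟶ F) U s, ap (biprod.snd : F ⊞ s8O X ⟶ s8O X) U s),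
      (s8_sum F (s8O X) U s).symm⟩
  obtain ⟨hk, -, -⟩ := h4 X
  obtain ⟨K, I, ι, π, κ, w, -, hI, -, hcomp, hκ, hπ, -, -⟩ := hk (F ⊞ s8O X) M (biprod.desc u v)
    hB hM
  refine ⟨I, κ, hI, hκ, fun W hW s => ⟨?_, ?_⟩⟩
  · rintro ⟨t, rfl⟩
    obtain ⟨t', rfl⟩ := hπ W hW t
    refine ⟨ap (biprod.fst : F ⊞ s8O X ⟶ F) W t',
      (s8e X W).symm (ap (biprod.snd : F ⊞ s8O X ⟶ s8O X) W t'), ?_⟩
    rw [← hv, (s8e X W).apply_symm_apply, ← ap_comp, hcomp]
    conv_lhs => rw [s8_sum F (s8O X) W t']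
    rw [map_add, s8_inl, s8_inr]
  · rintro ⟨t, r, rfl⟩
    refine ⟨ap π W (ap (biprod.inl : F ⟶ F ⊞ s8O X) W t +
      ap (biprod.inr : s8O X ⟶ F ⊞ s8O X) W (s8e X W r)), ?_⟩
    rw [← ap_comp, hcomp, map_add, s8_inl, s8_inr, hv]

end Pool.Agent.KSS
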