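import Pool.Agent.KSS.St

/-!
# KSS, module T1: schemes filtered by additive-quadratic varieties are good
-/

set_option autoImplicit false

noncomputable section

namespace Pool.Agent.KSS

open CategoryTheory AlgebraicGeometry TopologicalSpace Function Pool.Agent.Helper11

theorem t1_lift {K Q A : Type 1} [AddCommGroup K] [AddCommGroup Q] [AddCommGroup A]
    (q : K →+ Q) (hq : Surjective q) (φ : A →+ Q) (Γ : AddSubgroup A) (h : Γ.FG) :
    ∃ G : AddSubgroup K, G.FG ∧ ∀ x ∈ Γ, ∃ y ∈ G, q y = φ x := by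
  classical
  obtain ⟨s, hs⟩ := h
  choose c hc using fun a : A => hq (φ a)
  refine ⟨AddSubgroup.closure (s.image c : Finset K), ⟨s.image c, rfl⟩, ?_⟩
  intro x hx
  rw [← hs] at hx
  induction hx using AddSubgroup.closure_induction with
  | mem x hx =>
    exact ⟨c x, AddSubgroup.subset_closure (Finset.mem_coe.2 (Finset.mem_image_of_mem c hx)), hc x⟩
  | zero => exact ⟨0, zero_mem _, by rw [map_zero, map_zero]⟩
  | add x y _ _ ihx ihy =>
    obtain ⟨a, ha, ha'⟩ := ihx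
    obtain ⟨b, hb, hb'⟩ := ihy
    exact ⟨a + b, add_mem ha hb, by rw [map_add, map_add, ha', hb']⟩
  | neg x _ ih =>
    obtain ⟨a, ha, ha'⟩ := ih
    exact ⟨-a, neg_mem ha, by rw [map_neg, map_neg, ha']⟩

theorem t1_fil (h5 : St_S5) (k4 : St_K4) (k5 : St_K5) (r5 : St_R5) (p : ℕ) [Fact p.Prime]
    (Y : Scheme.{0}) [Y.IsSeparated] [IsLocallyNoetherian Y] (T : Set Y) (hT : AQFil p Y T) :
    IsClosed T ∧ ∀ O : Y.Opens, (O : Set Y) = Tᶜ →
      ∃ G : AddSubgroup (K0 Y), G.FG ∧ ∃ e : ℕ, ∀ x ∈ SO O, p ^ e • x ∈ G := by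
  induction hT with
  | empty =>
    refine ⟨isClosed_empty, fun O hO => ⟨⊥, ⟨∅, by simp⟩, 0, ?_⟩⟩
    have hO' : O = ⊤ := by
      ext x
      rw [hO]
      simp
    subst hO'
    intro x hx
    have h0 : SO (⊤ : Y.Opens) ≤ ⊥ := by
      unfold SO
      rw [AddSubgroup.closure_le]
      rintro x ⟨M, hM, hv, rfl⟩
      exact (h5 Y).2.2.2.1 M hM hv
    have h1 : x = 0 := h0 hx
    rw [h1, smul_zero]
    exact zero_mem _
  | step T T' hT' U hU V hV i h₁ h₂ h ih =>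
    obtain ⟨hTc, ih⟩ := ih
    refine ⟨hT', fun O hO => ?_⟩
    obtain ⟨g, hg⟩ := r5.2 Y U hU V i O (by rw [hO, compl_compl]; exact h₁)
    obtain ⟨φ, hφ⟩ := k4 Y U O hU V g hg
    have hk5 := k5 Y U O hU V g hg φ hφ
    obtain ⟨Γ, hΓ, e, he⟩ := r5.1 p V hV
    obtain ⟨G₂, hG₂, hl⟩ := t1_lift (QuotientAddGroup.mk' (SO (O ⊔ U)))
      (QuotientAddGroup.mk'_surjective _) φ Γ hΓ
    obtain ⟨G, hG, e', he'⟩ := ih ⟨Tᶜ, hTc.isOpen_compl⟩ rfl
    have hle : (⟨Tᶜ, hTc.isOpen_compl⟩ : Y.Opens) ≤ O ⊔ U := by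
      intro x hx
      have hx' : x ∉ T := hx
      by_cases hxU : x ∈ U
      · exact Or.inr hxU
      · left
        show x ∈ (O : Set Y)
        rw [hO]
        intro hxT
        exact hx' (h₂ ⟨hxT, hxU⟩)
    refine ⟨G₂ ⊔ G, hG₂.sup hG, e + e', ?_⟩
    intro x hx
    obtain ⟨a, ha⟩ := hk5 x hx
    obtain ⟨y, hy, hy'⟩ := hl (p ^ e • a) (he a)
    have h3 : p ^ e • x - y ∈ SO (O ⊔ U) := by
      rw [← QuotientAddGroup.eq_zero_iff]
      have h4 : (QuotientAddGroup.mk (p ^ e • x - y) : K0 Y ⧸ SO (O ⊔ U)) =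
        p ^ e • QuotientAddGroup.mk x - QuotientAddGroup.mk y := rfl
      have h5' : (QuotientAddGroup.mk y : K0 Y ⧸ SO (O ⊔ U)) = φ (p ^ e • a) := hy'
      rw [h4, h5', map_nsmul, ha, sub_self]
    have h6 := he' _ (SO_mono hle h3)
    have h7 : p ^ (e + e') • x = p ^ e' • y + p ^ e' • (p ^ e • x - y) := by
      rw [← smul_add, add_sub_cancel, smul_smul, ← pow_add, add_comm e']
    rw [h7]
    exact add_mem ((le_sup_left : G₂ ≤ G₂ ⊔ G) (nsmul_mem hy _))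
      ((le_sup_right : G ≤ G₂ ⊔ G) h6)

/-- [T1] -/
theorem thm_T1 (h5 : St_S5) (k4 : St_K4) (k5 : St_K5) (r5 : St_R5) : St_T1 := by
  intro p _ Y _ _ hY
  obtain ⟨G, hG, e, he⟩ := (t1_fil h5 k4 k5 r5 p Y Set.univ hY).2 ⊥ (by simp)
  refine ⟨G, hG, e, fun x => he x ?_⟩
  rw [SO_bot (h5 Y).2.2.1]
  exact AddSubgroup.mem_top x

end Pool.Agent.KSS
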