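import Pool.Agent.KSS.St

/-!
# KSS T2: the domination step over one affine open
-/

set_option autoImplicit false
set_option linter.style.haveILetI false

noncomputable section

namespace Pool.Agent.KSS

open CategoryTheory AlgebraicGeometry TopologicalSpace Function Pool.Agent.Helper11

/-- pushforward of an extension -/
private theorem T2_ext {X Y : Scheme.{0}} (f : Y ⟶ X) [IsFinite f] (U O : X.Opens)
    (I : Ideal Γ(X, U))
    (hfin : (Ideal.quotientMap (I.map (f.app U).hom) (f.app U).hom Ideal.le_comap_map).Finite)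
    (F : Y.Modules) (N : FGMod (Γ(Y, f ⁻¹ᵁ U) ⧸ I.map (f.app U).hom))
    (hF : IsExt (f ⁻¹ᵁ U) (f ⁻¹ᵁ O) (Ideal.Quotient.mk (I.map (f.app U).hom)) F N)
    (φ : G0 (Γ(X, U) ⧸ I) →+ K0 X ⧸ SO (O ⊔ U))
    (hφ : ∀ (N : FGMod (Γ(X, U) ⧸ I)) (F : X.Modules) (hF : IsCoh F),
      IsExt U O (Ideal.Quotient.mk I) F N → φ (G0.mk N) = QuotientAddGroup.mk (cl F hF))
    (hc : IsCoh ((Scheme.Modules.pushforward f).obj F)) :
    φ (resF (Ideal.quotientMap (I.map (f.app U).hom) (f.app U).hom Ideal.le_comap_map) hfin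
      (G0.mk N)) = QuotientAddGroup.mk (cl _ hc) := by
  set ψ := Ideal.quotientMap (I.map (f.app U).hom) (f.app U).hom Ideal.le_comap_map with hψ
  letI := ψ.toAlgebra
  haveI : Module.Finite (Γ(X, U) ⧸ I) (Γ(Y, f ⁻¹ᵁ U) ⧸ I.map (f.app U).hom) := hfin
  change φ (Pool.Agent.HPow.resG _ _ (G0.mk N)) = _
  rw [Pool.Agent.HPow.resG_mk]
  refine hφ _ _ hc ⟨?_, ?_⟩
  · intro W hW hWa s
    exact hF.1 (f ⁻¹ᵁ W) (fun x hx => hW hx) (hWa.preimage f) s
  · obtain ⟨e, he⟩ := hF.2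
    refine ⟨e.trans (Pool.Agent.HPow.resEquiv _ _ N).symm, fun r s => ?_⟩
    exact he ((f.app U).hom r) s

theorem thm_T2 (k2 : St_K2) (k4 : St_K4) (k5 : St_K5) (r1 : St_R1) (r2 : St_R2)
    (r3 : St_R3) : St_T2 := by
  intro X _ _ U O hU hnoeth hdim J _ Y f _ fs hfs N hN
  obtain ⟨n, hn⟩ := hdim
  obtain ⟨hcut, hcutf⟩ := r3 X U O hU
  obtain ⟨φ, hφ⟩ := k4 X U O hU _ _ hcut
  have h5 := k5 X U O hU _ _ hcut φ hφ
  let I : Ideal Γ(X, U) := idO U O
  let B : J → Type := fun j => Γ(Y j, (f j) ⁻¹ᵁ U) ⧸ I.map ((f j).app U).hom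
  let ψ : ∀ j, (Γ(X, U) ⧸ I) →+* B j := fun j =>
    Ideal.quotientMap (I.map ((f j).app U).hom) ((f j).app U).hom Ideal.le_comap_map
  have hψ : ∀ j, (ψ j).Finite := by
    intro j
    have h1 : ((ψ j).comp (Ideal.Quotient.mk I)).Finite := by
      have h2 : (ψ j).comp (Ideal.Quotient.mk I) =
          (Ideal.Quotient.mk (I.map ((f j).app U).hom)).comp ((f j).app U).hom := by
        ext x
        rfl
      rw [h2]
      exact RingHom.Finite.comp (RingHom.Finite.of_surjective _ Ideal.Quotient.mk_surjective)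
        ((f j).finite_app U hU)
    exact RingHom.Finite.of_comp_finite h1
  obtain ⟨e, he⟩ := r1 (Γ(X, U) ⧸ I) n hn J B ψ hψ N (by
    intro P hP d hd
    obtain ⟨x, hx⟩ := r2 X U hU I P hP
    refine hN x d ?_
    intro j y hy
    obtain ⟨Q, hQ, hQP, hr⟩ := hx (Y j) (f j) y hy
    rw [← hr]
    exact hd j Q hQ hQP)
  refine ⟨e, ?_⟩
  have key : ∀ j, ∀ b : G0 (B j), ∃ y ∈ (⨆ j, (fs j).range),
      φ (resF (ψ j) (hψ j) b) = QuotientAddGroup.mk y := by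
    intro j b
    haveI : IsLocallyNoetherian (Y j) := LocallyOfFiniteType.isLocallyNoetherian (f j)
    haveI : (Y j).IsSeparated := by
      refine ⟨?_⟩
      rw [← Limits.terminal.comp_from (f j)]
      infer_instance
    obtain ⟨hc, hc1, hc2⟩ := hfs j
    refine G0.induction (p := fun b => ∃ y ∈ (⨆ j, (fs j).range),
      φ (resF (ψ j) (hψ j) b) = QuotientAddGroup.mk y) ?_ ?_ ?_ ?_ b
    · exact ⟨0, zero_mem _, by rw [map_zero, map_zero]; rfl⟩
    · intro M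
      obtain ⟨F, hF, hFM⟩ := k2 (Y j) ((f j) ⁻¹ᵁ U) ((f j) ⁻¹ᵁ O) (hU.preimage (f j)) _ _
        (hcutf (Y j) (f j)) M
      refine ⟨fs j (cl F hF), (le_iSup (fun j => (fs j).range) j) ⟨_, rfl⟩, ?_⟩
      rw [hc1 F hF]
      exact T2_ext (f j) U O I (hψ j) F M hFM φ hφ (hc F hF)
    · rintro x ⟨y, hy, hxy⟩
      exact ⟨-y, neg_mem hy, by rw [map_neg, map_neg, hxy]; rfl⟩
    · rintro x x' ⟨y, hy, hxy⟩ ⟨y', hy', hxy'⟩
      exact ⟨y + y', add_mem hy hy', by rw [map_add, map_add, hxy, hxy']; rfl⟩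
  have key2 : ∀ a ∈ (⨆ j, (resF (ψ j) (hψ j)).range), ∃ y ∈ (⨆ j, (fs j).range),
      φ a = QuotientAddGroup.mk y := by
    intro a ha
    refine AddSubgroup.iSup_induction (fun j => (resF (ψ j) (hψ j)).range)
      (C := fun a => ∃ y ∈ (⨆ j, (fs j).range), φ a = QuotientAddGroup.mk y) ha ?_ ?_ ?_
    · rintro j _ ⟨b, rfl⟩
      exact key j b
    · exact ⟨0, zero_mem _, by rw [map_zero]; rfl⟩
    · rintro x x' ⟨y, hy, hxy⟩ ⟨y', hy', hxy'⟩
      exact ⟨y + y', add_mem hy hy', by rw [map_add, hxy, hxy']; rfl⟩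
  intro x hx
  obtain ⟨a, ha⟩ := h5 x hx
  obtain ⟨y, hy, hay⟩ := key2 _ (he a)
  rw [map_nsmul, ha] at hay
  have h6 : (QuotientAddGroup.mk (N ^ e • x) : K0 X ⧸ SO (O ⊔ U)) = QuotientAddGroup.mk y := hay
  have h7 := QuotientAddGroup.eq.mp h6.symm
  have h8 := add_mem (AddSubgroup.mem_sup_left (T := SO (O ⊔ U)) hy)
    (AddSubgroup.mem_sup_right (S := ⨆ j, (fs j).range) h7)
  rwa [add_neg_cancel_left] at h8

end Pool.Agent.KSS
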