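import Pool.Agent.KSS.St

/-!
# KSS, module T3: noetherian induction
-/

set_option autoImplicit false

noncomputable section

namespace Pool.Agent.KSS

open CategoryTheory AlgebraicGeometry TopologicalSpace Function Pool.Agent.Helper11

theorem t3_top (h5 : St_S5) (X : Scheme.{0}) (x : K0 X) (hx : x ∈ SO (⊤ : X.Opens)) : x = 0 := by
  induction hx using AddSubgroup.closure_induction with
  | mem x h =>
    obtain ⟨M, hM, hv, rfl⟩ := h
    exact (h5 X).2.2.2.1 M hM hv
  | zero => rfl
  | add x y _ _ hx hy => rw [hx, hy, add_zero]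
  | neg x _ hx => rw [hx, neg_zero]

theorem thm_T3 (h5 : St_S5) (k6 : St_K6) (r4 : St_R4) (t2 : St_T2) : St_T3 := by
  intro p _ X π _ _ _ J _ Y f _ N hN
  have hX : IsLocallyNoetherian X := LocallyOfFiniteType.isLocallyNoetherian π
  have hC : CompactSpace X := QuasiCompact.compactSpace_of_compactSpace π
  have hNX : AlgebraicGeometry.IsNoetherian X := { }
  have hsep : X.IsSeparated := ⟨by
    have := (inferInstance : IsSeparated (π ≫ Limits.terminal.from _))
    rwa [Limits.terminal.comp_from] at this⟩
  choose fs hfs using fun j => k6 X (Y j) (f j)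
  refine ⟨fs, ?_⟩
  have key : ∀ O : X.Opens, ∃ e : ℕ, ∀ x ∈ SO O, N ^ e • x ∈ ⨆ j, (fs j).range := by
    intro O
    induction O using WellFoundedGT.induction with
    | ind O ih =>
      by_cases hO : O = ⊤
      · subst hO
        refine ⟨0, fun x hx => ?_⟩
        rw [t3_top h5 X x hx, smul_zero]
        exact zero_mem _
      · obtain ⟨x, hx⟩ : ∃ x : X, x ∉ O := by
          by_contra hcon
          push Not at hcon
          exact hO (eq_top_iff.2 fun y _ => hcon y)
        obtain ⟨U, hU, hxU, -⟩ := exists_isAffineOpen_mem_and_subset (Opens.mem_top x)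
        obtain ⟨h1, h2⟩ := r4 p X π U hU (idO U O)
        obtain ⟨e, he⟩ := t2 X U O hU h1 h2 J Y f fs hfs N hN
        have hlt : O < O ⊔ U := by
          refine lt_of_le_of_ne le_sup_left fun h => hx ?_
          rw [h]
          exact Or.inr hxU
        obtain ⟨e', he'⟩ := ih (O ⊔ U) hlt
        refine ⟨e + e', fun y hy => ?_⟩
        obtain ⟨a, ha, b, hb, hab⟩ := AddSubgroup.mem_sup.1 (he y hy)
        rw [add_comm, pow_add, mul_smul, ← hab, smul_add]
        exact add_mem (AddSubgroup.nsmul_mem _ ha _) (he' b hb)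
  obtain ⟨e, he⟩ := key ⊥
  refine ⟨e, fun x => he x ?_⟩
  rw [SO_bot (h5 X).2.2.1]
  trivial

end Pool.Agent.KSS
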