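import Pool.Agent.KSS.S1
import Pool.Agent.KSS.S2
import Pool.Agent.KSS.S3
import Pool.Agent.KSS.S4
import Pool.Agent.KSS.S5
import Pool.Agent.KSS.S6
import Pool.Agent.KSS.S7
import Pool.Agent.KSS.S8
import Pool.Agent.KSS.K1
import Pool.Agent.KSS.K2
import Pool.Agent.KSS.K3
import Pool.Agent.KSS.K4
import Pool.Agent.KSS.K5
import Pool.Agent.KSS.K6
import Pool.Agent.KSS.R1
import Pool.Agent.KSS.R2
import Pool.Agent.KSS.R3
import Pool.Agent.KSS.R4
import Pool.Agent.KSS.R5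
import Pool.Agent.KSS.T1
import Pool.Agent.KSS.T2
import Pool.Agent.KSS.T3
import Pool.Agent.KSS.Fin

/-!
# KSS: the chain of all modules
-/

set_option autoImplicit false

namespace Pool.Agent.KSS

theorem all_S3 : St_S3 := thm_S3 thm_S1 thm_S2

theorem all_S4 : St_S4 := thm_S4 thm_S1 thm_S2 all_S3

theorem all_S5 : St_S5 := thm_S5 thm_S1 thm_S2

theorem all_S6 : St_S6 := thm_S6 thm_S1 thm_S2 all_S3

theorem all_S7 : St_S7 := thm_S7 thm_S1 thm_S2 all_S6

theorem all_S8 : St_S8 := thm_S8 thm_S2 all_S4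

theorem all_K1 : St_K1 := thm_K1 all_S4 all_S5

theorem all_K2 : St_K2 := thm_K2 all_S5 all_S7 all_S8

theorem all_K3 : St_K3 := thm_K3 all_S4 all_S7 all_K1

theorem all_K4 : St_K4 := thm_K4 all_S4 all_S7 all_K2 all_K3

theorem all_K5 : St_K5 := thm_K5 thm_S2 all_S4 all_S5 all_S7

theorem all_K6 : St_K6 := thm_K6 all_S3 all_S6

theorem all_T1 : St_T1 := thm_T1 all_S5 all_K4 all_K5 thm_R5

theorem all_T2 : St_T2 := thm_T2 all_K2 all_K4 all_K5 thm_R1 thm_R2 thm_R3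

theorem all_T3 : St_T3 := thm_T3 all_S5 all_K6 thm_R4 all_T2

theorem all_Fin : St_Fin := thm_Fin all_T1 all_T3

end Pool.Agent.KSS
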