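import Pool.Agent.KSS.St

/-!
# KSS, instances: products, pointed curves, Fermat hypersurfaces

Statements of the modules `Q…`: `theorem thm_Q… : St_Q…` in `Pool/Agent/KSS/Q….lean`.
-/

set_option autoImplicit false

noncomputable section

namespace Pool.Agent.KSS

open CategoryTheory AlgebraicGeometry TopologicalSpace Function

/-- **Q0** (0.5 h). `AQFilK → AQFil`. -/
def St_Q0 : Prop := ∀ (p : ℕ) (k : Type) [Field k] [Finite k] [CharP k p] (Y : Scheme.{0})
  (π : Y ⟶ Spec (CommRingCat.of k)) (T : Set Y), AQFilK p k Y π T → AQFil p Y T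

/-- **Q1a** (1.5 h). `V ⊗ V'` is additive-quadratic. -/
def St_Q1a : Prop := ∀ (p : ℕ) (k : Type) [Field k] (V V' : Type) [CommRing V] [CommRing V']
  [Algebra k V] [Algebra k V'], IsAQk p k V → IsAQk p k V' → IsAQk p k (TensorProduct k V V')

/-- **Q1b** (2.5 h). Closed immersions in affine opens and fibre products: `W = fst⁻¹ U ⊓ snd⁻¹ U'`
is affine (`≅ U ×_k U'`), and the product of the closed immersions gives a closed immersion of
`Spec (V ⊗ V')` in `W` whose range consists of the points lying over both ranges. -/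
def St_Q1b : Prop := ∀ (k : Type) [Field k] (Y Y' : Scheme.{0})
  (π : Y ⟶ Spec (CommRingCat.of k)) (π' : Y' ⟶ Spec (CommRingCat.of k)) (U : Y.Opens)
  (U' : Y'.Opens) (V V' : Type) [CommRing V] [CommRing V'] [Algebra k V] [Algebra k V']
  (i : Spec (CommRingCat.of V) ⟶ U.toScheme) (i' : Spec (CommRingCat.of V') ⟶ U'.toScheme)
  [IsClosedImmersion i] [IsClosedImmersion i'], IsAffineOpen U → IsAffineOpen U' →
    i ≫ U.ι ≫ π = Spec.map (CommRingCat.ofHom (algebraMap k V)) →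
    i' ≫ U'.ι ≫ π' = Spec.map (CommRingCat.ofHom (algebraMap k V')) →
    IsAffineOpen ((Limits.pullback.fst π π') ⁻¹ᵁ U ⊓ (Limits.pullback.snd π π') ⁻¹ᵁ U') ∧
    ∃ c : Spec (CommRingCat.of (TensorProduct k V V')) ⟶
        ((Limits.pullback.fst π π') ⁻¹ᵁ U ⊓ (Limits.pullback.snd π π') ⁻¹ᵁ U').toScheme,
      IsClosedImmersion c ∧
      c ≫ Scheme.Opens.ι _ ≫ Limits.pullback.fst π π' ≫ π =
        Spec.map (CommRingCat.ofHom (algebraMap k (TensorProduct k V V'))) ∧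
      ∀ z : ↑(Limits.pullback π π'), z ∈ Set.range (c ≫ Scheme.Opens.ι _) ↔
        Limits.pullback.fst π π' z ∈ Set.range (i ≫ U.ι) ∧
        Limits.pullback.snd π π' z ∈ Set.range (i' ≫ U'.ι)

/-- **Q1** (1.5 h). The class is closed under products: outer induction over the filtration of `Y`,
inner induction over the filtration of `Y'`, for the closed sets
`fst⁻¹ T ∪ (fst⁻¹ T' ∩ snd⁻¹ S)`.
needs: Q1a, Q1b -/
def St_Q1 : Prop := ∀ (p : ℕ) (k : Type) [Field k] (Y Y' : Scheme.{0})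
  (π : Y ⟶ Spec (CommRingCat.of k)) (π' : Y' ⟶ Spec (CommRingCat.of k)),
    AQFilK p k Y π Set.univ → AQFilK p k Y' π' Set.univ →
      AQFilK p k (Limits.pullback π π') (Limits.pullback.fst π π' ≫ π) Set.univ

/-- **Q2** (1.5 h). A `k`-scheme `C` which is the union of an open subscheme `Spec V`, `V`
additive-quadratic over `k`, and a `k`-rational closed point (for example the smooth
projective models of `y ^ q + y = x ^ (q + 1)`, of `y ^ 2 + y = x ^ 3` in characteristic `2` and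
the Suzuki curves). -/
def St_Q2 : Prop := ∀ (p : ℕ) (k : Type) [Field k] [Finite k] [CharP k p] (C : Scheme.{0})
  (π : C ⟶ Spec (CommRingCat.of k)) (V : Type) [CommRing V] [Algebra k V],
    IsAQk p k V → ∀ (j : Spec (CommRingCat.of V) ⟶ C) [IsOpenImmersion j],
    j ≫ π = Spec.map (CommRingCat.ofHom (algebraMap k V)) →
    ∀ (c : Spec (CommRingCat.of k) ⟶ C) [IsClosedImmersion c], c ≫ π = 𝟙 _ →
    Set.range j = (Set.range c)ᶜ → AQFilK p k C π Set.univ

attribute [local instance] MvPolynomial.gradedAlgebra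

/-- **Q3a** (3 h). A chart: `ℓ` a linear form, `θ : k[x] → V` a surjective `k`-algebra
homomorphism with `θ ℓ = 1`. `Spec V → D_+(ℓ)`, `Away 𝒜 ℓ → V`, `a / ℓ ^ d ↦ θ a`. -/
def St_Q3a : Prop := ∀ (k : Type) [Field k] (n : ℕ) (l : MvPolynomial (Fin n) k),
  l ∈ MvPolynomial.homogeneousSubmodule (Fin n) k 1 → ∀ (V : Type) [CommRing V] [Algebra k V]
  (θ : MvPolynomial (Fin n) k →ₐ[k] V), Surjective θ → θ l = 1 →
    IsAffineOpen (Proj.basicOpen (MvPolynomial.homogeneousSubmodule (Fin n) k) l) ∧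
    ∃ c : Spec (CommRingCat.of V) ⟶
        (Proj.basicOpen (MvPolynomial.homogeneousSubmodule (Fin n) k) l).toScheme,
      IsClosedImmersion c ∧
      c ≫ Scheme.Opens.ι _ ≫ PPπ k n = Spec.map (CommRingCat.ofHom (algebraMap k V)) ∧
      (∀ (v : Spec (CommRingCat.of V)) (d : ℕ) (a : MvPolynomial (Fin n) k), a.IsHomogeneous d →
        (a ∈ ((c ≫ Scheme.Opens.ι _) v).asHomogeneousIdeal ↔ θ a ∈ v.asIdeal)) ∧
      ∀ x : PP k n, x ∈ Set.range (c ≫ Scheme.Opens.ι _) ↔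
        l ∉ x.asHomogeneousIdeal ∧ ∀ (d : ℕ) (a : MvPolynomial (Fin n) k),
          a.IsHomogeneous d → θ a = 0 → a ∈ x.asHomogeneousIdeal

/-- **Q3b** (2 h). Lifting a closed immersion of a reduced affine scheme into a closed subscheme:
`i : Z ⟶ P` a closed immersion, `c : Spec V ⟶ U` a closed immersion, `V` reduced,
`range (c ≫ U.ι) ⊆ range i`. -/
def St_Q3b : Prop := ∀ (P Z : Scheme.{0}) (i : Z ⟶ P) [IsClosedImmersion i] (U : P.Opens)
  (V : Type) [CommRing V] [IsReduced V] (c : Spec (CommRingCat.of V) ⟶ U.toScheme)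
  [IsClosedImmersion c], Set.range (c ≫ U.ι) ⊆ Set.range i →
    ∃ c' : Spec (CommRingCat.of V) ⟶ (i ⁻¹ᵁ U).toScheme, IsClosedImmersion c' ∧
      c' ≫ (i ⁻¹ᵁ U).ι ≫ i = c ≫ U.ι ∧
      ∀ z : Z, z ∈ Set.range (c' ≫ (i ⁻¹ᵁ U).ι) ↔ i z ∈ Set.range (c ≫ U.ι)

/-- **Q3c** (1 h). `W[y] / P` is reduced for a domain `W` and a monic separable `P` (embed in
`K[y] / P`, `K` the fraction field). -/
def St_Q3c : Prop := ∀ (W : Type) [CommRing W] [IsDomain W] (P : Polynomial W), P.Monic →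
  P.Separable → IsReduced (AdjoinRoot P)

/-- the linear forms `x_l - z x_(l+1)`, `l` even, `l + 1 < n`, and `x_(n-1)` if `n` is odd: the form
of the index `a` is that of `l = 2 a` -/
def Ef {k : Type} [Field k] (n : ℕ) (z : k) (a : ℕ) (h : 2 * a < n) : MvPolynomial (Fin n) k :=
  if h1 : 2 * a + 1 < n then
    MvPolynomial.X ⟨2 * a, h⟩ - MvPolynomial.C z * MvPolynomial.X ⟨2 * a + 1, h1⟩
  else MvPolynomial.X ⟨2 * a, h⟩

/-- **Q3d** (3 h). The charts of the Fermat hypersurface of the first kind. `q = p ^ m`,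
`#k = q ^ (2 t)`, `z ^ (q + 1) = -1`. On `x_i = z x_(i+1)` (`i = 0, 2, …, 2 j - 2`), in the chart
`x_(2j) - z x_(2j+1) = 1`, the Fermat equation becomes
`1 + y + y ^ q + ∑_{i ≥ 2j+2} x_i ^ (q + 1) = 0`, `y = z x_(2j+1)`, with the free variables
`x_1, x_3, …, x_(2j-1)` (`H = {h | h ^ q + h = 0}`, see the lemmas of `Pool/Agent/HPow/Fq.lean`). -/
def St_Q3d : Prop := ∀ (p m q t : ℕ) (k : Type) [Field k] [CharP k p] [Finite k],
  Pool.Agent.HPow.Setg p m q t k → ∀ (n : ℕ) (z : k), z ^ (q + 1) = -1 →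
  ∀ (j : ℕ) (hj : 2 * j + 1 < n),
    ∃ (V : Type) (_ : CommRing V) (_ : Algebra k V) (θ : MvPolynomial (Fin n) k →ₐ[k] V),
      IsAQk p k V ∧ IsReduced V ∧ Surjective θ ∧
      θ (Ef n z j (by omega)) = 1 ∧ θ (∑ i, MvPolynomial.X i ^ (q + 1)) = 0 ∧
      (∀ (a : ℕ) (ha : a < j), θ (Ef n z a (by omega)) = 0) ∧
      RingHom.ker θ.toRingHom ≤ Ideal.span
        ({Ef n z j (by omega) - 1, ∑ i, MvPolynomial.X i ^ (q + 1)} ∪
          Set.range fun a : Fin j => Ef n z a (by omega))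

/-- **Q3e** (2 h). The charts of the second kind: on the linear subspace where all the forms `Ef`
and `x_1, x_3, …, x_(2j-1)` vanish, in the chart `x_(2j+1) = 1`; `V` is a polynomial ring. -/
def St_Q3e : Prop := ∀ (p : ℕ) (k : Type) [Field k] (q : ℕ) (n : ℕ) (z : k),
  z ^ (q + 1) = -1 → ∀ (j : ℕ) (hj : 2 * j + 1 < n),
    ∃ (V : Type) (_ : CommRing V) (_ : Algebra k V) (θ : MvPolynomial (Fin n) k →ₐ[k] V),
      IsAQk p k V ∧ IsReduced V ∧ Surjective θ ∧
      θ (MvPolynomial.X ⟨2 * j + 1, hj⟩) = 1 ∧ θ (∑ i, MvPolynomial.X i ^ (q + 1)) = 0 ∧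
      (∀ (a : ℕ) (ha : 2 * a < n), θ (Ef n z a ha) = 0) ∧
      (∀ (a : ℕ) (ha : a < j), θ (MvPolynomial.X ⟨2 * a + 1, by omega⟩) = 0) ∧
      RingHom.ker θ.toRingHom ≤ Ideal.span
        ({MvPolynomial.X ⟨2 * j + 1, hj⟩ - 1} ∪
          {f | ∃ (a : ℕ) (ha : 2 * a < n), f = Ef n z a ha} ∪
          Set.range fun a : Fin j => MvPolynomial.X (⟨2 * a + 1, by omega⟩ : Fin n))

/-- **Q3g** (1.5 h). Homogeneous elements of `I + (M - 1)`: if `I` is generated by the homogeneous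
elements of the set `S`, `M` is a linear form and `a` homogeneous with `a ∈ I + (M - 1)` then
`M ^ e a ∈ I` for some `e`. (With `a = b (M - 1) + c`, `c ∈ I`, compare the homogeneous
components of `b`: modulo `I`, `b_i = 0` for `i < deg a`, `b_(d+i) = - M ^ i a`.) -/
def St_Q3g : Prop := ∀ (k : Type) [Field k] (n : ℕ) (S : Set (MvPolynomial (Fin n) k)),
  (∀ f ∈ S, ∃ d, f.IsHomogeneous d) → ∀ (M a : MvPolynomial (Fin n) k) (d : ℕ),
    M.IsHomogeneous 1 → a.IsHomogeneous d → a ∈ Ideal.span ({M - 1} ∪ S) →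
      ∃ e : ℕ, M ^ e * a ∈ Ideal.span S

/-- **Q3f** (2 h). One step of the filtration of a closed subscheme `i : Z ⟶ PP k n`: with a chart
`θ`, `θ M = 1`, `θ S = 0`, `ker θ ≤ (M - 1, S)` (`S` homogeneous), the set `i⁻¹ V_+(S, M)` may be
enlarged to `i⁻¹ V_+(S)`, if `V_+(S) ∖ V_+(M)` is contained in the range of `i`.
needs: Q3a, Q3b, Q3g -/
def St_Q3f : Prop := ∀ (p : ℕ) (k : Type) [Field k] (n : ℕ) (Z : Scheme.{0}) (i : Z ⟶ PP k n)
  [IsClosedImmersion i] (V : Type) [CommRing V] [Algebra k V] [IsReduced V]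
  (θ : MvPolynomial (Fin n) k →ₐ[k] V) (S : Set (MvPolynomial (Fin n) k))
  (M : MvPolynomial (Fin n) k), IsAQk p k V → Surjective θ → M.IsHomogeneous 1 →
    (∀ f ∈ S, ∃ d, f.IsHomogeneous d) → θ M = 1 → (∀ f ∈ S, θ f = 0) →
    RingHom.ker θ.toRingHom ≤ Ideal.span ({M - 1} ∪ S) →
    (∀ x : PP k n, (∀ f ∈ S, x ∈ ZL f) → x ∉ ZL M → x ∈ Set.range i) →
    AQFilK p k Z (i ≫ PPπ k n) {y | (∀ f ∈ S, i y ∈ ZL f) ∧ i y ∈ ZL M} →
    AQFilK p k Z (i ≫ PPπ k n) {y | ∀ f ∈ S, i y ∈ ZL f}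

/-- **Q3** (2.5 h). The closed subschemes of projective space with underlying set the Fermat
hypersurface of degree `q + 1`, over a finite field containing `F_(q²)`. Filtration:
`V_+(F, E_0, …, E_(j-1))`, `E_j = Ef`, `j = 0, …`; for the last form `E = x_(n-1)` if `n` is
odd nothing changes (`x_(n-1) ^ (q + 1) = 0`); then `V_+(all E, x_1, x_3, …)`; `z` exists by
`Setg`.
needs: Q3d, Q3e, Q3f -/
def St_Q3 : Prop := ∀ (p m q t : ℕ) (k : Type) [Field k] [CharP k p] [Finite k],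
  Pool.Agent.HPow.Setg p m q t k → ∀ (n : ℕ) (Z : Scheme.{0}) (i : Z ⟶ PP k n)
    [IsClosedImmersion i], Set.range i = ZL (∑ j, MvPolynomial.X j ^ (q + 1)) →
      AQFilK p k Z (i ≫ PPπ k n) Set.univ

end Pool.Agent.KSS
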