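import Mathlib
import Pool.Agent.KSS.InstSt

/-!
# Charts of closed subschemes of projective space
-/

set_option autoImplicit false

noncomputable section

namespace Pool.Agent.KSS

open CategoryTheory AlgebraicGeometry TopologicalSpace Function HomogeneousLocalization

namespace Q3a

section gen

variable {A σ V : Type} [CommRing A] [SetLike σ A] [AddSubgroupClass σ A] (𝒜 : ℕ → σ)
  [GradedRing 𝒜] [CommRing V] {l : A} (θ : A →+* V) (hθ : θ l = 1)

/-- The ring homomorphism `a / l ^ d ↦ θ a`. -/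
def chart : Away 𝒜 l →+* V :=
  (Localization.awayLift θ l (by rw [hθ]; exact isUnit_one)).comp
    (algebraMap (Away 𝒜 l) (Localization.Away l))

lemma chart_mk (hl : l ∈ 𝒜 1) (d : ℕ) (a : A) (ha : a ∈ 𝒜 (d • 1)) :
    chart 𝒜 θ hθ (Away.mk 𝒜 hl d a ha) = θ a := by
  unfold chart
  rw [RingHom.comp_apply, HomogeneousLocalization.algebraMap_apply, Away.val_mk]
  have h1 : Localization.mk a (⟨l ^ d, by use d⟩ : Submonoid.powers l) *
      algebraMap A (Localization.Away l) (l ^ d) = algebraMap A (Localization.Away l) a := by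
    rw [← Localization.mk_one_eq_algebraMap, Localization.mk_mul, ← Localization.mk_one_eq_algebraMap,
      Localization.mk_eq_mk_iff, Localization.r_iff_exists]
    refine ⟨1, ?_⟩
    simp [mul_comm]
  have h2 := congrArg (Localization.awayLift θ l (by rw [hθ]; exact isUnit_one)) h1
  rw [map_mul] at h2
  have h3 : ∀ b : A, Localization.awayLift θ l (by rw [hθ]; exact isUnit_one)
      (algebraMap A (Localization.Away l) b) = θ b := fun b =>
    IsLocalization.Away.lift_eq _ _ _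
  have h4 : θ l ^ d = 1 := by rw [hθ, one_pow]
  rw [h3, h3, map_pow, h4, mul_one] at h2
  exact h2

lemma chart_zero (hl : l ∈ 𝒜 1) (r : 𝒜 0) :
    chart 𝒜 θ hθ (fromZeroRingHom 𝒜 (Submonoid.powers l) r) = θ r := by
  have h1 : (r : A) ∈ 𝒜 (0 • 1) := by
    rw [zero_smul]
    exact SetLike.coe_mem _
  have h2 : fromZeroRingHom 𝒜 (Submonoid.powers l) r = Away.mk 𝒜 hl 0 (r : A) h1 := by
    apply HomogeneousLocalization.val_injective
    rw [Away.val_mk]
    change Localization.mk (r : A) ⟨((1 : 𝒜 0) : A), _⟩ = _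
    rw [Localization.mk_eq_mk_iff, Localization.r_iff_exists]
    refine ⟨1, ?_⟩
    simp
  rw [h2, chart_mk]

lemma chart_surj (hl : l ∈ 𝒜 1) (hs : Surjective θ) : Surjective (chart 𝒜 θ hθ) := by
  classical
  intro v
  obtain ⟨a, rfl⟩ := hs v
  change θ a ∈ (chart 𝒜 θ hθ).range
  rw [← DirectSum.sum_support_decompose 𝒜 a, map_sum]
  refine Subring.sum_mem _ fun i _ => ?_
  refine ⟨Away.mk 𝒜 hl i (DirectSum.decompose 𝒜 a i) ?_, chart_mk 𝒜 θ hθ hl i _ _⟩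
  rw [smul_eq_mul, mul_one]
  exact SetLike.coe_mem _

/-- The chart, as a morphism of schemes. -/
def cmap (hl : l ∈ 𝒜 1) : Spec (CommRingCat.of V) ⟶ (Proj.basicOpen 𝒜 l).toScheme :=
  Spec.map (CommRingCat.ofHom (chart 𝒜 θ hθ)) ≫ (Proj.basicOpenIsoSpec 𝒜 l hl one_pos).inv

lemma cmap_ι (hl : l ∈ 𝒜 1) : cmap 𝒜 θ hθ hl ≫ (Proj.basicOpen 𝒜 l).ι =
    Spec.map (CommRingCat.ofHom (chart 𝒜 θ hθ)) ≫ Proj.awayι 𝒜 l hl one_pos := by
  rw [cmap, Category.assoc]
  rfl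

lemma cmap_closed (hl : l ∈ 𝒜 1) (hs : Surjective θ) :
    IsClosedImmersion (cmap 𝒜 θ hθ hl) := by
  have h1 : IsClosedImmersion (Spec.map (CommRingCat.ofHom (chart 𝒜 θ hθ))) :=
    IsClosedImmersion.spec_of_surjective _ (chart_surj 𝒜 θ hθ hl hs)
  unfold cmap
  infer_instance

/-- the image of a point of the chart -/
lemma awayι_mem (hl : l ∈ 𝒜 1) (w : Spec (CommRingCat.of (Away 𝒜 l))) (d : ℕ) (a : A)
    (ha : a ∈ 𝒜 (d • 1)) :
    a ∈ (Proj.awayι 𝒜 l hl one_pos w).asHomogeneousIdeal ↔ Away.mk 𝒜 hl d a ha ∈ w.asIdeal := by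
  have hll : ∀ w : Spec (CommRingCat.of (Away 𝒜 l)),
      l ∉ (Proj.awayι 𝒜 l hl one_pos w).asHomogeneousIdeal := by
    intro w
    rw [← Proj.mem_basicOpen 𝒜, ← Proj.opensRange_awayι 𝒜 l hl one_pos]
    exact ⟨w, rfl⟩
  have ha' : a * l ∈ 𝒜 (d + 1) := by
    rw [smul_eq_mul, mul_one] at ha
    exact SetLike.mul_mem_graded ha hl
  have h1 := Proj.awayι_preimage_basicOpen 𝒜 hl one_pos ha' (Nat.succ_pos d)
  have h2 : w ∈ Proj.awayι 𝒜 l hl one_pos ⁻¹ᵁ Proj.basicOpen 𝒜 (a * l) ↔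
      w ∈ PrimeSpectrum.basicOpen (Away.isLocalizationElem hl ha') := by
    rw [h1]
    rfl
  have h3 : Away.isLocalizationElem hl ha' = Away.mk 𝒜 hl d a ha := by
    apply HomogeneousLocalization.val_injective
    rw [Away.val_mk, Away.val_mk, Localization.mk_eq_mk_iff, Localization.r_iff_exists]
    refine ⟨1, ?_⟩
    simp only [OneMemClass.coe_one, one_mul, pow_succ]
    ring
  have h5 : w ∈ PrimeSpectrum.basicOpen (Away.mk 𝒜 hl d a ha) ↔
      Away.mk 𝒜 hl d a ha ∉ w.asIdeal := Iff.rfl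
  rw [h3, h5] at h2
  have h4 : w ∈ Proj.awayι 𝒜 l hl one_pos ⁻¹ᵁ Proj.basicOpen 𝒜 (a * l) ↔
      a * l ∉ (Proj.awayι 𝒜 l hl one_pos w).asHomogeneousIdeal := Iff.rfl
  rw [h4, not_iff_not] at h2
  rw [← h2]
  constructor
  · intro h
    exact Ideal.mul_mem_right _ _ h
  · intro h
    rcases (Proj.awayι 𝒜 l hl one_pos w).isPrime.mem_or_mem h with h | h
    · exact h
    · exact absurd h (hll w)

lemma cmap_mem (hl : l ∈ 𝒜 1) (v : Spec (CommRingCat.of V)) (d : ℕ) (a : A) (ha : a ∈ 𝒜 d) :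
    a ∈ ((cmap 𝒜 θ hθ hl ≫ (Proj.basicOpen 𝒜 l).ι) v).asHomogeneousIdeal ↔
      θ a ∈ v.asIdeal := by
  have ha' : a ∈ 𝒜 (d • 1) := by
    rw [smul_eq_mul, mul_one]
    exact ha
  rw [cmap_ι]
  have h1 := awayι_mem 𝒜 hl (Spec.map (CommRingCat.ofHom (chart 𝒜 θ hθ)) v) d a ha'
  have h2 : (Away.mk 𝒜 hl d a ha' ∈ (Spec.map (CommRingCat.ofHom (chart 𝒜 θ hθ)) v).asIdeal) ↔
      chart 𝒜 θ hθ (Away.mk 𝒜 hl d a ha') ∈ v.asIdeal := Iff.rfl
  rw [h2, chart_mk] at h1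
  exact h1

lemma cmap_range (hl : l ∈ 𝒜 1) (hs : Surjective θ) (x : Proj 𝒜) :
    x ∈ Set.range (cmap 𝒜 θ hθ hl ≫ (Proj.basicOpen 𝒜 l).ι) ↔
      l ∉ x.asHomogeneousIdeal ∧ ∀ (d : ℕ) (a : A), a ∈ 𝒜 d → θ a = 0 →
        a ∈ x.asHomogeneousIdeal := by
  constructor
  · rintro ⟨v, rfl⟩
    refine ⟨?_, fun d a ha h0 => ?_⟩
    · rw [cmap_mem 𝒜 θ hθ hl v 1 l hl, hθ]
      exact (Ideal.ne_top_iff_one _).1 v.isPrime.ne_top
    · rw [cmap_mem 𝒜 θ hθ hl v d a ha, h0]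
      exact Ideal.zero_mem _
  · rintro ⟨hx, h⟩
    have h1 : x ∈ (Proj.awayι 𝒜 l hl one_pos).opensRange := by
      rw [Proj.opensRange_awayι]
      exact hx
    obtain ⟨w, rfl⟩ := h1
    have h2 : w ∈ Set.range (Spec.map (CommRingCat.ofHom (chart 𝒜 θ hθ))) := by
      have h3 : w ∈ Set.range (PrimeSpectrum.comap (chart 𝒜 θ hθ)) := by
        rw [range_comap_of_surjective _ _ (chart_surj 𝒜 θ hθ hl hs)]
        intro y hy
        obtain ⟨d, a, ha, rfl⟩ := Away.mk_surjective 𝒜 hl y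
        have hy' : chart 𝒜 θ hθ (Away.mk 𝒜 hl d a ha) = 0 := hy
        rw [chart_mk] at hy'
        have h4 := (awayι_mem 𝒜 hl w d a ha).1 (h (d • 1) a ha hy')
        exact h4
      exact h3
    obtain ⟨v, rfl⟩ := h2
    refine ⟨v, ?_⟩
    rw [cmap_ι]
    rfl

end gen

end Q3a

attribute [local instance] MvPolynomial.gradedAlgebra

theorem thm_Q3a : St_Q3a := by
  intro k _ n l hl V _ _ θ hs hθ
  have hθ' : (θ : MvPolynomial (Fin n) k →+* V) l = 1 := hθ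
  refine ⟨Proj.isAffineOpen_basicOpen _ l hl one_pos,
    Q3a.cmap (MvPolynomial.homogeneousSubmodule (Fin n) k)
      (θ : MvPolynomial (Fin n) k →+* V) hθ' hl, Q3a.cmap_closed _ _ _ _ hs, ?_, ?_, ?_⟩
  · unfold PPπ
    rw [← Category.assoc, Q3a.cmap_ι, Category.assoc, Proj.awayι_toSpecZero_assoc, ← Spec.map_comp,
      ← Spec.map_comp, ← CommRingCat.ofHom_comp, ← CommRingCat.ofHom_comp]
    congr 2
    ext r
    rw [RingHom.comp_apply, RingHom.comp_apply, Q3a.chart_zero _ _ hθ' hl]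
    exact θ.commutes r
  · intro v d a ha
    exact Q3a.cmap_mem _ _ hθ' hl v d a ((MvPolynomial.mem_homogeneousSubmodule d a).2 ha)
  · intro x
    rw [Q3a.cmap_range _ _ hθ' hl hs x]
    refine and_congr_right fun _ => ?_
    exact ⟨fun h d a ha => h d a ((MvPolynomial.mem_homogeneousSubmodule d a).2 ha),
      fun h d a ha => h d a ((MvPolynomial.mem_homogeneousSubmodule d a).1 ha)⟩

end Pool.Agent.KSS
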