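import Pool.Agent.KSS.St

/-!
# KSS, module S1: sections and exactness
-/

set_option autoImplicit false

noncomputable section

namespace Pool.Agent.KSS
open CategoryTheory AlgebraicGeometry TopologicalSpace Function Pool.Agent.Helper11

variable {X : Scheme.{0}}

/-- sections over `U` as a functor to abelian groups -/
abbrev secF (X : Scheme.{0}) (U : X.Opens) : X.Modules ⥤ Ab :=
  Scheme.Modules.toPresheaf X ⋙ (evaluation _ _).obj (Opposite.op U)

instance (U : X.Opens) : Limits.PreservesLimits (secF X U) := by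
  have h1 : Limits.PreservesLimits (Scheme.Modules.toPresheaf X) := inferInstance
  have h2 : Limits.PreservesLimits ((evaluation (Opens X)ᵒᵖ Ab).obj (Opposite.op U)) :=
    inferInstance
  exact @Limits.comp_preservesLimits _ _ _ _ _ _ (Scheme.Modules.toPresheaf X) ((evaluation (Opens X)ᵒᵖ Ab).obj (Opposite.op U)) h1 h2

theorem s1_mono {M N : X.Modules} (φ : M ⟶ N) (h : Mono φ) (U : X.Opens) :
    Injective (ap φ U) := by
  have h1 : Mono ((secF X U).map φ) := inferInstance
  rw [AddCommGrpCat.mono_iff_injective] at h1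
  exact h1

instance (U : X.Opens) : (secF X U).Additive where
  map_add := rfl

theorem s1_left (S : ShortComplex X.Modules) (hS : S.Exact) (hf : Mono S.f) (U : X.Opens)
    (s : Γ(S.X₂, U)) (hs : ap S.g U s = 0) : ∃ t, ap S.f U t = s := by
  have h1 := (hS.map_of_mono_of_preservesKernel (secF X U) hf inferInstance)
  rw [ShortComplex.ab_exact_iff] at h1
  exact h1 s hs


/-- separatedness on affine opens -/
theorem s1_sep (M : X.Modules) (W : X.Opens) (s t : Γ(M, W))
    (h : ∀ V : X.Opens, ∀ hV : V ≤ W, IsAffineOpen V → rM M hV s = rM M hV t) : s = t := by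
  refine TopCat.Presheaf.IsSheaf.section_ext M.isSheaf fun x hx => ?_
  obtain ⟨V, hV, hxV, hVW⟩ := exists_isAffineOpen_mem_and_subset hx
  exact ⟨V, hVW, hxV, h V hVW hV⟩

theorem s1_van (M : X.Modules) (O : X.Opens) (h : Van O M) (W : X.Opens) (hW : W ≤ O)
    (s : Γ(M, W)) : s = 0 := by
  refine s1_sep M W s 0 fun V hV ha => ?_
  rw [h V (hV.trans hW) ha (rM M hV s), map_zero]

theorem s1_epi {M N : X.Modules} (φ : M ⟶ N)
    (h : ∀ U : X.Opens, IsAffineOpen U → Surjective (ap φ U)) : Epi φ := by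
  refine Preadditive.epi_of_cancel_zero _ fun {P} ψ hψ => ?_
  refine hom_ext_ap fun U s => ?_
  refine s1_sep P U _ _ fun V hV ha => ?_
  rw [rM_ap, rM_ap]
  obtain ⟨t, ht⟩ := h V ha (rM N hV s)
  rw [← ht, ← ap_comp, hψ]
  rfl

theorem s1_monoI {M N : X.Modules} (φ : M ⟶ N)
    (h : ∀ U : X.Opens, IsAffineOpen U → Injective (ap φ U)) : Mono φ := by
  refine Preadditive.mono_of_cancel_zero _ fun {P} ψ hψ => ?_
  refine hom_ext_ap fun U s => ?_
  refine s1_sep M U _ _ fun V hV ha => ?_
  rw [rM_ap, rM_ap]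
  refine h V ha ?_
  rw [← ap_comp, hψ, ap_zero, ap_zero, map_zero]

theorem s1_short (S : ShortComplex X.Modules)
    (hf : ∀ U : X.Opens, IsAffineOpen U → Injective (ap S.f U))
    (hm : ∀ U : X.Opens, IsAffineOpen U → ∀ s : Γ(S.X₂, U), ap S.g U s = 0 → ∃ t, ap S.f U t = s)
    (hg : ∀ U : X.Opens, IsAffineOpen U → Surjective (ap S.g U)) : S.ShortExact := by
  have h1 := s1_monoI S.f hf
  have h2 := s1_epi S.g hg
  refine { exact := ?_, mono_f := h1, epi_g := h2 }
  rw [S.exact_iff_epi_kernel_lift]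
  refine s1_epi _ fun U hU s => ?_
  have h3 : ap S.g U (ap (Limits.kernel.ι S.g) U s) = 0 := by
    rw [← ap_comp, Limits.kernel.condition]
    rfl
  obtain ⟨t, ht⟩ := hm U hU _ h3
  refine ⟨t, ?_⟩
  refine s1_mono (Limits.kernel.ι S.g) inferInstance U ?_
  rw [← ap_comp, Limits.kernel.lift_ι]
  exact ht

theorem thm_S1 : St_S1 := fun _ =>
  ⟨fun _ _ φ h U => s1_mono φ h U, fun S hS hf U s hs => s1_left S hS hf U s hs,
    fun _ _ φ h => s1_epi φ h, fun M O h W hW s => s1_van M O h W hW s,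
    fun S hf hm hg => s1_short S hf hm hg⟩

end Pool.Agent.KSS
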