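import Pool.Agent.KSS.Defs

/-!
# KSS: filtrations without a fixed base field
-/

set_option autoImplicit false

namespace Pool.Agent.KSS

open CategoryTheory AlgebraicGeometry

/-- `V` is isomorphic to the coordinate ring `k[y, x] / (A_i(y_i) - f_i(x))` of an
additive-quadratic variety over a finite field `k` of characteristic `p`: the `A_i` are
the polynomials `∏_{h ∈ H_i} (y - h)` of additive subgroups `H_i` of `k`, and the `f_i` are linear
combinations of monomials `1`, `x_j ^ (p ^ a)`, `x_j ^ (p ^ a) x_l ^ (p ^ b)`. -/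
def IsAQ (p : ℕ) (V : Type) [CommRing V] : Prop :=
  ∃ (k : Type) (_ : Field k) (_ : Finite k) (_ : CharP k p) (s n : ℕ)
    (H : Fin s → AddSubgroup k) (f : Fin s → MvPolynomial (Fin n) k),
    (∀ i, ∀ d ∈ (f i).support, d = 0 ∨ (∃ j a, d = Finsupp.single j (p ^ a)) ∨
      ∃ j l a b, d = Finsupp.single j (p ^ a) + Finsupp.single l (p ^ b)) ∧
    Nonempty (V ≃+* AQRing H f)

/-- `AQFil p Y T`: the closed subset `T` of `Y` has a finite filtration by closed subsets
`∅ = T₀, T₁, …, T_r = T` and there are affine open subschemes `U_i` of `Y` with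
`T_i ∖ U_i ⊆ T_(i-1)` such that `T_i ∩ U_i`, with a suitable structure of closed subscheme of `U_i`,
is isomorphic to an additive-quadratic variety over a finite field of characteristic `p`. -/
inductive AQFil (p : ℕ) (Y : Scheme.{0}) : Set Y → Prop
  | empty : AQFil p Y ∅
  | step (T T' : Set Y) (hT' : IsClosed T') (U : Y.Opens) (hU : IsAffineOpen U)
      (V : CommRingCat.{0}) (hV : IsAQ p V) (i : Spec V ⟶ U.toScheme) [IsClosedImmersion i]
      (h₁ : T' ∩ U = Set.range (i ≫ U.ι)) (h₂ : T' \ U ⊆ T) (h : AQFil p Y T) : AQFil p Y T'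

end Pool.Agent.KSS
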