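import Pool.Agent.HPow.Cl
import Pool.Agent.KSS.Fil

/-!
# KSS: basic notions for the modules

Sections, localizing sheaves, vanishing, classes in `K'₀`, subgroups with support, ranks.
-/

set_option autoImplicit false

noncomputable section

namespace Pool.Agent.KSS

open CategoryTheory AlgebraicGeometry TopologicalSpace Function Pool.Agent.Helper11

/-! ### sections -/

section sections

variable {X : Scheme.{0}}

/-- restriction of sections of a sheaf of modules -/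
def rM (M : X.Modules) {V U : X.Opens} (h : V ≤ U) : Γ(M, U) →+ Γ(M, V) :=
  (M.presheaf.map (homOfLE h).op).hom

/-- restriction of functions -/
def rO {V U : X.Opens} (h : V ≤ U) : Γ(X, U) →+* Γ(X, V) :=
  (X.presheaf.map (homOfLE h).op).hom

/-- the linear map on sections over `U` of a morphism of sheaves of modules -/
def ap {M N : X.Modules} (φ : M ⟶ N) (U : X.Opens) : Γ(M, U) →ₗ[Γ(X, U)] Γ(N, U) where
  toFun := φ.app U
  map_add' x y := by rw [map_add]
  map_smul' r x := by rw [Scheme.Modules.Hom.app_smul]; rfl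

variable {M N K : X.Modules}

theorem rM_smul {V U : X.Opens} (h : V ≤ U) (r : Γ(X, U)) (s : Γ(M, U)) :
    rM M h (r • s) = rO h r • rM M h s := Scheme.Modules.map_smul M (homOfLE h) r s

theorem rM_self {U : X.Opens} (h : U ≤ U) (s : Γ(M, U)) : rM M h s = s := by
  have h1 : (homOfLE h).op = 𝟙 (Opposite.op U) := rfl
  unfold rM
  rw [h1, M.presheaf.map_id]
  rfl

theorem rM_rM {W V U : X.Opens} (h : V ≤ U) (h' : W ≤ V) (s : Γ(M, U)) :
    rM M h' (rM M h s) = rM M (h'.trans h) s := by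
  have h1 : (homOfLE (h'.trans h)).op = (homOfLE h).op ≫ (homOfLE h').op := rfl
  unfold rM
  rw [h1, M.presheaf.map_comp]
  rfl

theorem rO_self {U : X.Opens} (h : U ≤ U) (s : Γ(X, U)) : rO h s = s := by
  have h1 : (homOfLE h).op = 𝟙 (Opposite.op U) := rfl
  unfold rO
  rw [h1, X.presheaf.map_id]
  rfl

theorem rO_rO {W V U : X.Opens} (h : V ≤ U) (h' : W ≤ V) (s : Γ(X, U)) :
    rO h' (rO h s) = rO (h'.trans h) s := by
  have h1 : (homOfLE (h'.trans h)).op = (homOfLE h).op ≫ (homOfLE h').op := rfl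
  unfold rO
  rw [h1, X.presheaf.map_comp]
  rfl

theorem rM_ap (φ : M ⟶ N) {V U : X.Opens} (h : V ≤ U) (s : Γ(M, U)) :
    rM N h (ap φ U s) = ap φ V (rM M h s) :=
  (congr($(φ.mapPresheaf.naturality (homOfLE h).op) s)).symm

theorem ap_comp (φ : M ⟶ N) (ψ : N ⟶ K) (U : X.Opens) (s : Γ(M, U)) :
    ap (φ ≫ ψ) U s = ap ψ U (ap φ U s) := rfl

theorem ap_id (U : X.Opens) (s : Γ(M, U)) : ap (𝟙 M) U s = s := rfl

theorem ap_zero (U : X.Opens) (s : Γ(M, U)) : ap (0 : M ⟶ N) U s = 0 := rfl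

theorem ap_add (φ ψ : M ⟶ N) (U : X.Opens) (s : Γ(M, U)) :
    ap (φ + ψ) U s = ap φ U s + ap ψ U s := rfl

theorem ap_sub (φ ψ : M ⟶ N) (U : X.Opens) (s : Γ(M, U)) :
    ap (φ - ψ) U s = ap φ U s - ap ψ U s := rfl

theorem hom_ext_ap {φ ψ : M ⟶ N} (h : ∀ U s, ap φ U s = ap ψ U s) : φ = ψ := by
  refine Scheme.Modules.hom_ext _ _ fun U => ?_
  ext s
  exact h U s

end sections

/-! ### localizing sheaves -/

/-- The sheaf of modules `M` is localizing: for `f ∈ Γ(X, U)`, `U` affine open, `Γ(M, D(f))` is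
the localization of `Γ(M, U)` at `f`. -/
def QLoc {X : Scheme.{0}} (M : X.Modules) : Prop :=
  ∀ U : X.Opens, IsAffineOpen U → ∀ f : Γ(X, U),
    (∀ s : Γ(M, X.basicOpen f), ∃ (n : ℕ) (t : Γ(M, U)),
      rM M (X.basicOpen_le f) t = rO (X.basicOpen_le f) f ^ n • s) ∧
    (∀ t : Γ(M, U), rM M (X.basicOpen_le f) t = 0 → ∃ n : ℕ, f ^ n • t = 0)

/-- `M` vanishes on the open set `O` (for quasi-coherent `M`: `M|_O = 0`) -/
def Van {X : Scheme.{0}} (O : X.Opens) (M : X.Modules) : Prop :=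
  ∀ W : X.Opens, W ≤ O → IsAffineOpen W → ∀ s : Γ(M, W), s = 0

/-! ### classes -/

/-- the class of a coherent sheaf -/
def cl {X : Scheme.{0}} (M : X.Modules) (h : IsCoh M) : K0 X :=
  QuotientAddGroup.mk (FreeAbelianGroup.of ⟨M, h⟩)

theorem cl_add {X : Scheme.{0}} (S : ShortComplex X.Modules) (hS : S.ShortExact)
    (h₁ : IsCoh S.X₁) (h₂ : IsCoh S.X₂) (h₃ : IsCoh S.X₃) :
    cl S.X₂ h₂ = cl S.X₁ h₁ + cl S.X₃ h₃ := by
  have h : (FreeAbelianGroup.of ⟨S.X₂, h₂⟩ - FreeAbelianGroup.of ⟨S.X₁, h₁⟩ -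
      FreeAbelianGroup.of ⟨S.X₃, h₃⟩) ∈ AddSubgroup.closure (KRel X) :=
    AddSubgroup.subset_closure ⟨S, h₁, h₂, h₃, hS, rfl⟩
  have h2 := (QuotientAddGroup.eq_zero_iff _).mpr h
  have h3 : cl S.X₂ h₂ - cl S.X₁ h₁ - cl S.X₃ h₃ = 0 := h2
  rw [sub_sub, sub_eq_zero] at h3
  exact h3

theorem cl_closure (X : Scheme.{0}) :
    AddSubgroup.closure {x : K0 X | ∃ (M : X.Modules) (h : IsCoh M), x = cl M h} = ⊤ := by
  rw [eq_top_iff]
  rintro x -
  obtain ⟨x, rfl⟩ := QuotientAddGroup.mk_surjective x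
  induction x using FreeAbelianGroup.induction_on with
  | zero => exact zero_mem _
  | of M => exact AddSubgroup.subset_closure ⟨M.1, M.2, rfl⟩
  | neg M hM => exact neg_mem hM
  | add x y hx hy => exact add_mem hx hy

/-- homomorphisms out of `K'₀(X)` -/
def K0lift {X : Scheme.{0}} {G : Type*} [AddCommGroup G]
    (χ : ∀ (M : X.Modules), IsCoh M → G)
    (h : ∀ (S : ShortComplex X.Modules) (h₁ : IsCoh S.X₁) (h₂ : IsCoh S.X₂) (h₃ : IsCoh S.X₃),
      S.ShortExact → χ S.X₂ h₂ = χ S.X₁ h₁ + χ S.X₃ h₃) : K0 X →+ G :=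
  QuotientAddGroup.lift _ (FreeAbelianGroup.lift fun M : {M : X.Modules // IsCoh M} => χ M.1 M.2)
    (by
      rw [AddSubgroup.closure_le]
      rintro x ⟨S, h₁, h₂, h₃, hS, rfl⟩
      simp [h S h₁ h₂ h₃ hS])

theorem K0lift_cl {X : Scheme.{0}} {G : Type*} [AddCommGroup G]
    (χ : ∀ (M : X.Modules), IsCoh M → G)
    (h : ∀ (S : ShortComplex X.Modules) (h₁ : IsCoh S.X₁) (h₂ : IsCoh S.X₂) (h₃ : IsCoh S.X₃),
      S.ShortExact → χ S.X₂ h₂ = χ S.X₁ h₁ + χ S.X₃ h₃) (M : X.Modules) (hM : IsCoh M) :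
    K0lift χ h (cl M hM) = χ M hM := by
  change (FreeAbelianGroup.lift fun M : {M : X.Modules // IsCoh M} => χ M.1 M.2)
    (FreeAbelianGroup.of ⟨M, hM⟩) = _
  rw [FreeAbelianGroup.lift_apply_of]

/-- the subgroup of `K'₀(X)` generated by the coherent sheaves which vanish on `O` -/
def SO {X : Scheme.{0}} (O : X.Opens) : AddSubgroup (K0 X) :=
  AddSubgroup.closure {x | ∃ (M : X.Modules) (h : IsCoh M), Van O M ∧ x = cl M h}

theorem SO_mono {X : Scheme.{0}} {O O' : X.Opens} (h : O ≤ O') : SO O' ≤ SO O := by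
  refine AddSubgroup.closure_mono ?_
  rintro x ⟨M, hM, hv, rfl⟩
  exact ⟨M, hM, fun W hW ha s => hv W (hW.trans h) ha s, rfl⟩

theorem SO_bot {X : Scheme.{0}} (h0 : ∀ M : X.Modules, Van ⊥ M) : SO (⊥ : X.Opens) = ⊤ := by
  rw [eq_top_iff, ← cl_closure X]
  refine AddSubgroup.closure_mono ?_
  rintro x ⟨M, hM, rfl⟩
  exact ⟨M, hM, h0 M, rfl⟩

/-! ### ranks -/

/-- For a prime `Q` of `B` over the prime `P` of `A`: the rank of `B / Q` over the domain
`A / P`, i.e. the degree of the extension of residue fields. -/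
def rkQ {A B : Type} [CommRing A] [CommRing B] (ψ : A →+* B) (Q : Ideal B) : ℕ :=
  letI := (Ideal.quotientMap Q ψ le_rfl).toAlgebra
  Module.finrank (A ⧸ Q.comap ψ) (B ⧸ Q)

/-- restriction of scalars along a finite ring homomorphism, `G₀(B) → G₀(A)` -/
def resF {A B : Type} [CommRing A] [CommRing B] (ψ : A →+* B) (hψ : ψ.Finite) :
    G0 B →+ G0 A :=
  letI := ψ.toAlgebra
  haveI : Module.Finite A B := hψ
  Pool.Agent.HPow.resG A B

end Pool.Agent.KSS
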