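import Pool.Agent.KSS.InstSt

/-!
# KSS, module Q0: filtrations over `k` are filtrations
-/

set_option autoImplicit false

noncomputable section

namespace Pool.Agent.KSS

open CategoryTheory AlgebraicGeometry TopologicalSpace Function

theorem thm_Q0 : St_Q0 := by
  intro p k _ _ _ Y π T h
  induction h with
  | empty => exact AQFil.empty
  | step T T' hT hT' U hU V hV i hi hTT' hTU hr h ih =>
    obtain ⟨s, n, H, f, hf, hV'⟩ := hV
    have hV2 : IsAQ p (CommRingCat.of V) := by
      refine ⟨k, inferInstance, inferInstance, inferInstance, s, n, H, f, hf, ?_⟩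
      obtain ⟨e⟩ := hV'
      exact ⟨e.toRingEquiv⟩
    refine AQFil.step T T' hT' U hU (CommRingCat.of V) hV2 i ?_ ?_ ih
    · rw [← hr]
      ext x
      constructor
      · rintro ⟨h1, h2⟩
        refine ⟨h1, fun h3 => ?_⟩
        have h4 : x ∈ T ∩ (U : Set Y) := ⟨h3, h2⟩
        rw [hTU] at h4
        exact h4
      · intro h1
        refine ⟨h1.1, ?_⟩
        rw [hr] at h1
        obtain ⟨y, rfl⟩ := h1
        exact (i y).2
    · rintro x ⟨h1, h2⟩
      by_contra h3
      have h4 : x ∈ T' \ T := ⟨h1, h3⟩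
      rw [hr] at h4
      obtain ⟨y, rfl⟩ := h4
      exact h2 (i y).2

end Pool.Agent.KSS
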