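import Pool.Agent.KSS.InstSt

/-!
# KSS, module Q1: products of filtered schemes
-/

set_option autoImplicit false

noncomputable section

namespace Pool.Agent.KSS

open CategoryTheory AlgebraicGeometry TopologicalSpace Function

/-- the inner induction -/
theorem q1_inner (h1 : St_Q1a) (h2 : St_Q1b) (p : ℕ) (k : Type) [Field k] (Y Y' : Scheme.{0})
    (π : Y ⟶ Spec (CommRingCat.of k)) (π' : Y' ⟶ Spec (CommRingCat.of k))
    (T T' : Set Y) (hT : IsClosed T) (hT' : IsClosed T') (U : Y.Opens) (hU : IsAffineOpen U)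
    (V : Type) [CommRing V] [Algebra k V] (hV : IsAQk p k V)
    (i : Spec (CommRingCat.of V) ⟶ U.toScheme) [IsClosedImmersion i]
    (hi : i ≫ U.ι ≫ π = Spec.map (CommRingCat.ofHom (algebraMap k V)))
    (hTT' : T ⊆ T') (hTU : T ∩ U = ∅) (hr : T' \ T = Set.range (i ≫ U.ι))
    (ih : AQFilK p k (Limits.pullback π π') (Limits.pullback.fst π π' ≫ π)
      (Limits.pullback.fst π π' ⁻¹' T)) (S : Set Y') (hS : AQFilK p k Y' π' S) :
    IsClosed S ∧ AQFilK p k (Limits.pullback π π') (Limits.pullback.fst π π' ≫ π)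
      (Limits.pullback.fst π π' ⁻¹' T ∪
        (Limits.pullback.fst π π' ⁻¹' T' ∩ Limits.pullback.snd π π' ⁻¹' S)) := by
  induction hS with
  | empty =>
    refine ⟨isClosed_empty, ?_⟩
    rwa [Set.preimage_empty, Set.inter_empty, Set.union_empty]
  | step S S' hSc hSc' U' hU' V' hV' i' hi' hSS' hSU' hr' _ ih' =>
    refine ⟨hSc', ?_⟩
    obtain ⟨hW, c, hc, hcπ, hcr⟩ := h2 k Y Y' π π' U U' V V' i i' hU hU' hi hi'
    have hcont : Continuous (Limits.pullback.fst π π') := (Limits.pullback.fst π π').continuous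
    have hcont' : Continuous (Limits.pullback.snd π π') := (Limits.pullback.snd π π').continuous
    refine AQFilK.step _ _ ((hT.preimage hcont).union ((hT'.preimage hcont).inter
      (hSc.preimage hcont'))) ((hT.preimage hcont).union ((hT'.preimage hcont).inter
      (hSc'.preimage hcont'))) _ hW (TensorProduct k V V') (h1 p k V V' hV hV') c hcπ ?_ ?_ ?_
      ih'.2
    · refine Set.union_subset_union_right _ (Set.inter_subset_inter_right _ ?_)
      exact Set.preimage_mono hSS'
    · ext z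
      simp only [Set.mem_inter_iff, Set.mem_union, Set.mem_preimage, Set.mem_empty_iff_false,
        iff_false, not_and]
      intro hz hzW
      have hz1 : Limits.pullback.fst π π' z ∈ U := hzW.1
      have hz2 : Limits.pullback.snd π π' z ∈ U' := hzW.2
      rcases hz with hz | ⟨_, hz⟩
      · have : Limits.pullback.fst π π' z ∈ T ∩ (U : Set Y) := ⟨hz, hz1⟩
        rw [hTU] at this
        exact this
      · have : Limits.pullback.snd π π' z ∈ S ∩ (U' : Set Y') := ⟨hz, hz2⟩
        rw [hSU'] at this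
        exact this
    · ext z
      rw [hcr, ← hr, ← hr']
      simp only [Set.mem_sdiff, Set.mem_union, Set.mem_inter_iff, Set.mem_preimage]
      constructor
      · rintro ⟨h | ⟨h3, h4⟩, h5⟩
        · exact (h5 (Or.inl h)).elim
        · exact ⟨⟨h3, fun h => h5 (Or.inl h)⟩, ⟨h4, fun h => h5 (Or.inr ⟨h3, h⟩)⟩⟩
      · rintro ⟨⟨h3, h4⟩, ⟨h5, h6⟩⟩
        exact ⟨Or.inr ⟨h3, h5⟩, fun h => h.elim h4 fun h => h6 h.2⟩

theorem q1_outer (h1 : St_Q1a) (h2 : St_Q1b) (p : ℕ) (k : Type) [Field k] (Y Y' : Scheme.{0})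
    (π : Y ⟶ Spec (CommRingCat.of k)) (π' : Y' ⟶ Spec (CommRingCat.of k))
    (hY' : AQFilK p k Y' π' Set.univ) (T : Set Y) (hT : AQFilK p k Y π T) :
    AQFilK p k (Limits.pullback π π') (Limits.pullback.fst π π' ≫ π)
      (Limits.pullback.fst π π' ⁻¹' T) := by
  induction hT with
  | empty =>
    rw [Set.preimage_empty]
    exact AQFilK.empty
  | step T T' hT hT' U hU V hV i hi hTT' hTU hr _ ih =>
    have h3 := (q1_inner h1 h2 p k Y Y' π π' T T' hT hT' U hU V hV i hi hTT' hTU hr ih
      Set.univ hY').2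
    rw [Set.preimage_univ, Set.inter_univ, Set.union_eq_self_of_subset_left
      (Set.preimage_mono hTT')] at h3
    exact h3

theorem thm_Q1 (h1 : St_Q1a) (h2 : St_Q1b) : St_Q1 := by
  intro p k _ Y Y' π π' hY hY'
  have h3 := q1_outer h1 h2 p k Y Y' π π' hY' Set.univ hY
  rwa [Set.preimage_univ] at h3

end Pool.Agent.KSS
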