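import Pool.Agent.KSS.InstSt

/-!
# KSS / Q1a: tensor products of additive-quadratic algebras
-/

set_option autoImplicit false

noncomputable section

namespace Pool.Agent.KSS

open MvPolynomial TensorProduct

/-- Tensor products of quotients of polynomial rings. -/
theorem Q1a_equiv {k : Type} [Field k] {σ σ' σ'' J J' J'' : Type} (r : J → MvPolynomial σ k)
    (r' : J' → MvPolynomial σ' k) (r'' : J'' → MvPolynomial σ'' k) (e : σ ⊕ σ' ≃ σ'')
    (h₁ : J → J'') (h₂ : J' → J'') (hr : ∀ i, rename (e ∘ Sum.inl) (r i) = r'' (h₁ i))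
    (hr' : ∀ i, rename (e ∘ Sum.inr) (r' i) = r'' (h₂ i))
    (hJ : ∀ i, (∃ j, h₁ j = i) ∨ ∃ j, h₂ j = i) :
    Nonempty (TensorProduct k (MvPolynomial σ k ⧸ Ideal.span (Set.range r))
      (MvPolynomial σ' k ⧸ Ideal.span (Set.range r')) ≃ₐ[k]
        (MvPolynomial σ'' k ⧸ Ideal.span (Set.range r''))) := by
  obtain ⟨I, hI⟩ : ∃ I, I = Ideal.span (Set.range r) := ⟨_, rfl⟩
  obtain ⟨I', hI'⟩ : ∃ I', I' = Ideal.span (Set.range r') := ⟨_, rfl⟩
  obtain ⟨I'', hI''⟩ : ∃ I'', I'' = Ideal.span (Set.range r'') := ⟨_, rfl⟩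
  rw [← hI, ← hI', ← hI'']
  have hm : ∀ i, Ideal.Quotient.mk I (r i) = 0 := fun i => by
    rw [Ideal.Quotient.eq_zero_iff_mem, hI]
    exact Ideal.subset_span ⟨i, rfl⟩
  have hm' : ∀ i, Ideal.Quotient.mk I' (r' i) = 0 := fun i => by
    rw [Ideal.Quotient.eq_zero_iff_mem, hI']
    exact Ideal.subset_span ⟨i, rfl⟩
  have hm'' : ∀ i, Ideal.Quotient.mk I'' (r'' i) = 0 := fun i => by
    rw [Ideal.Quotient.eq_zero_iff_mem, hI'']
    exact Ideal.subset_span ⟨i, rfl⟩
  -- the map forward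
  have hf : ∀ a ∈ I, ((Ideal.Quotient.mkₐ k I'').comp (rename (e ∘ Sum.inl))) a = 0 := by
    have h : I ≤ RingHom.ker
        ((Ideal.Quotient.mkₐ k I'').comp (rename (e ∘ Sum.inl))).toRingHom := by
      rw [hI, Ideal.span_le]
      rintro _ ⟨i, rfl⟩
      change Ideal.Quotient.mk I'' (rename (e ∘ Sum.inl) (r i)) = 0
      rw [hr, hm'']
    exact fun a ha => h ha
  have hf' : ∀ a ∈ I', ((Ideal.Quotient.mkₐ k I'').comp (rename (e ∘ Sum.inr))) a = 0 := by
    have h : I' ≤ RingHom.ker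
        ((Ideal.Quotient.mkₐ k I'').comp (rename (e ∘ Sum.inr))).toRingHom := by
      rw [hI', Ideal.span_le]
      rintro _ ⟨i, rfl⟩
      change Ideal.Quotient.mk I'' (rename (e ∘ Sum.inr) (r' i)) = 0
      rw [hr', hm'']
    exact fun a ha => h ha
  let F := Algebra.TensorProduct.lift
    (Ideal.Quotient.liftₐ I ((Ideal.Quotient.mkₐ k I'').comp (rename (e ∘ Sum.inl))) hf)
    (Ideal.Quotient.liftₐ I' ((Ideal.Quotient.mkₐ k I'').comp (rename (e ∘ Sum.inr))) hf')
    (fun _ _ => Commute.all _ _)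
  -- the map backward
  let ψ : σ'' → TensorProduct k (MvPolynomial σ k ⧸ I) (MvPolynomial σ' k ⧸ I') := fun v =>
    Sum.elim (fun a => Ideal.Quotient.mk I (X a) ⊗ₜ[k] 1)
      (fun b => 1 ⊗ₜ[k] Ideal.Quotient.mk I' (X b)) (e.symm v)
  have hψ1 : (aeval ψ : MvPolynomial σ'' k →ₐ[k] _).comp (rename (e ∘ Sum.inl)) =
      (Algebra.TensorProduct.includeLeft.comp (Ideal.Quotient.mkₐ k I)) := by
    apply MvPolynomial.algHom_ext
    intro a
    simp [ψ]
  have hψ2 : (aeval ψ : MvPolynomial σ'' k →ₐ[k] _).comp (rename (e ∘ Sum.inr)) =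
      (Algebra.TensorProduct.includeRight.comp (Ideal.Quotient.mkₐ k I')) := by
    apply MvPolynomial.algHom_ext
    intro a
    simp [ψ]
  have hb : ∀ a ∈ I'', (aeval ψ : MvPolynomial σ'' k →ₐ[k] _) a = 0 := by
    have h : I'' ≤ RingHom.ker (aeval ψ : MvPolynomial σ'' k →ₐ[k] _).toRingHom := by
      rw [hI'', Ideal.span_le]
      rintro _ ⟨i, rfl⟩
      change (aeval ψ : MvPolynomial σ'' k →ₐ[k] _) (r'' i) = 0
      rcases hJ i with ⟨j, rfl⟩ | ⟨j, rfl⟩
      · rw [← hr]
        have h := AlgHom.congr_fun hψ1 (r j)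
        rw [AlgHom.comp_apply] at h
        rw [h]
        change (Ideal.Quotient.mk I (r j)) ⊗ₜ[k] (1 : MvPolynomial σ' k ⧸ I') = 0
        rw [hm, TensorProduct.zero_tmul]
      · rw [← hr']
        have h := AlgHom.congr_fun hψ2 (r' j)
        rw [AlgHom.comp_apply] at h
        rw [h]
        change (1 : MvPolynomial σ k ⧸ I) ⊗ₜ[k] (Ideal.Quotient.mk I' (r' j)) = 0
        rw [hm', TensorProduct.tmul_zero]
    exact fun a ha => h ha
  let B := Ideal.Quotient.liftₐ I'' (aeval ψ : MvPolynomial σ'' k →ₐ[k] _) hb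
  refine ⟨AlgEquiv.ofAlgHom F B ?_ ?_⟩
  · apply Ideal.Quotient.algHom_ext
    apply MvPolynomial.algHom_ext
    intro v
    obtain ⟨w, rfl⟩ := e.surjective v
    change F (aeval ψ (X (e w))) = Ideal.Quotient.mk I'' (X (e w))
    rw [aeval_X]
    cases w with
    | inl a =>
      simp only [ψ, Equiv.symm_apply_apply, Sum.elim_inl]
      simp only [F]
      rw [Algebra.TensorProduct.lift_tmul, map_one, mul_one]
      change Ideal.Quotient.mk I'' (rename (e ∘ Sum.inl) (X a)) = _
      rw [rename_X]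
      rfl
    | inr a =>
      simp only [ψ, Equiv.symm_apply_apply, Sum.elim_inr]
      simp only [F]
      rw [Algebra.TensorProduct.lift_tmul, map_one, one_mul]
      change Ideal.Quotient.mk I'' (rename (e ∘ Sum.inr) (X a)) = _
      rw [rename_X]
      rfl
  · apply Algebra.TensorProduct.ext
    · apply Ideal.Quotient.algHom_ext
      apply MvPolynomial.algHom_ext
      intro a
      change B (F (Ideal.Quotient.mk I (X a) ⊗ₜ[k] 1)) = Ideal.Quotient.mk I (X a) ⊗ₜ[k] 1
      simp only [F]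
      rw [Algebra.TensorProduct.lift_tmul, map_one, mul_one]
      change (aeval ψ : MvPolynomial σ'' k →ₐ[k] _) (rename (e ∘ Sum.inl) (X a)) = _
      rw [rename_X, aeval_X]
      simp [ψ]
    · apply Ideal.Quotient.algHom_ext
      apply MvPolynomial.algHom_ext
      intro a
      change B (F (1 ⊗ₜ[k] Ideal.Quotient.mk I' (X a))) = 1 ⊗ₜ[k] Ideal.Quotient.mk I' (X a)
      simp only [F]
      rw [Algebra.TensorProduct.lift_tmul, map_one, one_mul]
      change (aeval ψ : MvPolynomial σ'' k →ₐ[k] _) (rename (e ∘ Sum.inr) (X a)) = _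
      rw [rename_X, aeval_X]
      simp [ψ]

/-- Renaming of the variable of the additive polynomial. -/
theorem Q1a_rename {k : Type} [Field k] {σ τ : Type} {g : σ → τ} (hg : Function.Injective g)
    (H : AddSubgroup k) (v : σ) :
    rename g (∏ᶠ a : H, (X v - C (a : k))) = ∏ᶠ a : H, (X (g v) - C (a : k)) := by
  have h := MonoidHom.map_finprod_of_injective
    ((rename g : MvPolynomial σ k →ₐ[k] MvPolynomial τ k) : MvPolynomial σ k →* MvPolynomial τ k)
    (rename_injective g hg) (fun a : H => (X v - C (a : k)))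
  refine (Eq.trans ?_ h).trans ?_
  · rfl
  · apply finprod_congr
    intro a
    change rename g (X v - C (a : k)) = _
    rw [map_sub, rename_X, rename_C]

/-- The exponents of the renamed polynomials. -/
theorem Q1a_supp {p : ℕ} {k : Type} [Field k] {n m : ℕ} {g : Fin n → Fin m}
    (hg : Function.Injective g) {f : MvPolynomial (Fin n) k}
    (hf : ∀ d ∈ f.support, d = 0 ∨ (∃ j a, d = Finsupp.single j (p ^ a)) ∨
      ∃ j l a b, d = Finsupp.single j (p ^ a) + Finsupp.single l (p ^ b)) :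
    ∀ d ∈ (rename g f).support, d = 0 ∨ (∃ j a, d = Finsupp.single j (p ^ a)) ∨
      ∃ j l a b, d = Finsupp.single j (p ^ a) + Finsupp.single l (p ^ b) := by
  classical
  intro d hd
  rw [support_rename_of_injective hg, Finset.mem_image] at hd
  obtain ⟨c, hc, rfl⟩ := hd
  rcases hf c hc with rfl | ⟨j, a, rfl⟩ | ⟨j, l, a, b, rfl⟩
  · left
    exact Finsupp.mapDomain_zero
  · right; left
    exact ⟨g j, a, Finsupp.mapDomain_single⟩
  · right; right
    refine ⟨g j, g l, a, b, ?_⟩
    rw [Finsupp.mapDomain_add, Finsupp.mapDomain_single, Finsupp.mapDomain_single]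

theorem thm_Q1a : St_Q1a := by
  rintro p k _ V V' _ _ _ _ ⟨s, n, H, f, hf, ⟨e₁⟩⟩ ⟨s', n', H', f', hf', ⟨e₂⟩⟩
  refine ⟨s + s', n + n', Fin.append H H', Fin.append (fun i => rename (Fin.castAdd n') (f i))
    (fun i => rename (Fin.natAdd n) (f' i)), ?_, ?_⟩
  · intro i
    refine Fin.addCases (fun i => ?_) (fun i => ?_) i
    · rw [Fin.append_left]
      exact Q1a_supp (Fin.castAdd_injective n n') (hf i)
    · rw [Fin.append_right]
      exact Q1a_supp (Fin.natAdd_injective n' n) (hf' i)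
  · let e : (Fin s ⊕ Fin n) ⊕ (Fin s' ⊕ Fin n') ≃ Fin (s + s') ⊕ Fin (n + n') :=
      (Equiv.sumSumSumComm _ _ _ _).trans (Equiv.sumCongr finSumFinEquiv finSumFinEquiv)
    obtain ⟨E⟩ := Q1a_equiv (k := k) (fun i : Fin s =>
        (∏ᶠ a : H i, (X (Sum.inl i) - C (a : k))) - rename Sum.inr (f i))
      (fun i : Fin s' => (∏ᶠ a : H' i, (X (Sum.inl i) - C (a : k))) - rename Sum.inr (f' i))
      (fun i : Fin (s + s') => (∏ᶠ a : (Fin.append H H' i : AddSubgroup k),
        (X (Sum.inl i) - C (a : k))) - rename Sum.inr ((Fin.append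
          (fun i => rename (Fin.castAdd n') (f i)) (fun i => rename (Fin.natAdd n) (f' i)) :
            Fin (s + s') → MvPolynomial (Fin (n + n')) k) i)) e
      (Fin.castAdd s') (Fin.natAdd s) (by
        intro i
        rw [map_sub, Q1a_rename (e.injective.comp Sum.inl_injective), Fin.append_left,
          Fin.append_left, rename_rename, rename_rename]
        rfl) (by
        intro i
        rw [map_sub, Q1a_rename (e.injective.comp Sum.inr_injective), Fin.append_right,
          Fin.append_right, rename_rename, rename_rename]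
        rfl) (by
        intro i
        refine Fin.addCases (fun j => Or.inl ⟨j, rfl⟩) (fun j => Or.inr ⟨j, rfl⟩) i)
    exact ⟨(Algebra.TensorProduct.congr e₁ e₂).trans E⟩

end Pool.Agent.KSS
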