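import Pool.Agent.KSS.InstSt

/-!
# KSS, module Q1b

Closed immersions in affine opens and fibre products.
-/

set_option autoImplicit false

noncomputable section

namespace Pool.Agent.KSS

open CategoryTheory AlgebraicGeometry TopologicalSpace Function

private lemma q1b_map_fst {X Y S X' Y' S' : Scheme.{0}} (f : X ⟶ S) (g : Y ⟶ S) (f' : X' ⟶ S')
    (g' : Y' ⟶ S') (i₁ : X ⟶ X') (i₂ : Y ⟶ Y') (i₃ : S ⟶ S') (e₁ : f ≫ i₃ = i₁ ≫ f')
    (e₂ : g ≫ i₃ = i₂ ≫ g') :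
    Limits.pullback.map f g f' g' i₁ i₂ i₃ e₁ e₂ ≫ Limits.pullback.fst f' g' =
      Limits.pullback.fst f g ≫ i₁ := Limits.pullback.lift_fst _ _ _

private lemma q1b_map_snd {X Y S X' Y' S' : Scheme.{0}} (f : X ⟶ S) (g : Y ⟶ S) (f' : X' ⟶ S')
    (g' : Y' ⟶ S') (i₁ : X ⟶ X') (i₂ : Y ⟶ Y') (i₃ : S ⟶ S') (e₁ : f ≫ i₃ = i₁ ≫ f')
    (e₂ : g ≫ i₃ = i₂ ≫ g') :
    Limits.pullback.map f g f' g' i₁ i₂ i₃ e₁ e₂ ≫ Limits.pullback.snd f' g' =
      Limits.pullback.snd f g ≫ i₂ := Limits.pullback.lift_snd _ _ _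

theorem thm_Q1b : St_Q1b := by
  intro k _ Y Y' π π' U U' V V' _ _ _ _ i i' _ _ hU hU' hi hi'
  -- the open immersion of the fibre product of the opens
  let m : Limits.pullback (U.ι ≫ π) (U'.ι ≫ π') ⟶ Limits.pullback π π' :=
    Limits.pullback.map (U.ι ≫ π) (U'.ι ≫ π') π π' U.ι U'.ι (𝟙 _) (Category.comp_id _)
      (Category.comp_id _)
  haveI hm : IsOpenImmersion m :=
    MorphismProperty.pullbackMap (P := @IsOpenImmersion) (f := U.ι ≫ π) (g := U'.ι ≫ π')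
      (f' := π) (g' := π') (i₁ := U.ι) (i₂ := U'.ι) inferInstance inferInstance rfl rfl
  haveI : IsAffine U.toScheme := hU
  haveI : IsAffine U'.toScheme := hU'
  have hW : m.opensRange =
      (Limits.pullback.fst π π') ⁻¹ᵁ U ⊓ (Limits.pullback.snd π π') ⁻¹ᵁ U' := by
    apply Opens.ext
    have h := Scheme.Pullback.range_map (U.ι ≫ π) (U'.ι ≫ π') π π' U.ι U'.ι (𝟙 _)
      (Category.comp_id _) (Category.comp_id _)
    rw [Scheme.Opens.range_ι, Scheme.Opens.range_ι] at h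
    exact h
  have haff : IsAffineOpen
      ((Limits.pullback.fst π π') ⁻¹ᵁ U ⊓ (Limits.pullback.snd π π') ⁻¹ᵁ U') := by
    rw [← hW]
    exact isAffineOpen_opensRange m
  refine ⟨haff, ?_⟩
  -- the closed immersion
  let n : Limits.pullback (i ≫ U.ι ≫ π) (i' ≫ U'.ι ≫ π') ⟶
      Limits.pullback (U.ι ≫ π) (U'.ι ≫ π') :=
    Limits.pullback.map (i ≫ U.ι ≫ π) (i' ≫ U'.ι ≫ π') (U.ι ≫ π) (U'.ι ≫ π') i i' (𝟙 _)
      (Category.comp_id _) (Category.comp_id _)
  haveI hn : IsClosedImmersion n :=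
    MorphismProperty.pullbackMap (P := @IsClosedImmersion) (f := i ≫ U.ι ≫ π)
      (g := i' ≫ U'.ι ≫ π') (f' := U.ι ≫ π) (g' := U'.ι ≫ π') (i₁ := i) (i₂ := i')
      inferInstance inferInstance rfl rfl
  let e : Limits.pullback (i ≫ U.ι ≫ π) (i' ≫ U'.ι ≫ π') ≅
      Limits.pullback (Spec.map (CommRingCat.ofHom (algebraMap k V)))
        (Spec.map (CommRingCat.ofHom (algebraMap k V'))) := Limits.pullback.congrHom hi hi'
  let s : Spec (CommRingCat.of (TensorProduct k V V')) ≅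
      Limits.pullback (i ≫ U.ι ≫ π) (i' ≫ U'.ι ≫ π') := (pullbackSpecIso k V V').symm ≪≫ e.symm
  let w := m.isoOpensRange ≪≫ Scheme.isoOfEq _ hW
  have hwι : w.hom ≫ Scheme.Opens.ι _ = m := by
    simp [w]
  have hs : s.hom ≫ Limits.pullback.fst _ _ =
      Spec.map (CommRingCat.ofHom (Algebra.TensorProduct.includeLeftRingHom
        (R := k) (A := V) (B := V'))) := by
    have h1 : e.inv ≫ Limits.pullback.fst (i ≫ U.ι ≫ π) (i' ≫ U'.ι ≫ π') =
        Limits.pullback.fst _ _ := by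
      rw [Iso.inv_comp_eq]
      exact ((q1b_map_fst _ _ _ _ (𝟙 _) (𝟙 _) (𝟙 _) (by rw [Category.comp_id, Category.id_comp, hi])
        (by rw [Category.comp_id, Category.id_comp, hi'])).trans (Category.comp_id _)).symm
    show ((pullbackSpecIso k V V').inv ≫ e.inv) ≫ _ = _
    rw [Category.assoc, h1, pullbackSpecIso_inv_fst]
  have hc : (s.hom ≫ n ≫ w.hom) ≫ Scheme.Opens.ι _ = s.hom ≫ n ≫ m := by
    rw [Category.assoc, Category.assoc, hwι]
  have h1 : m ≫ Limits.pullback.fst π π' = Limits.pullback.fst _ _ ≫ U.ι :=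
    q1b_map_fst _ _ _ _ _ _ _ _ _
  have h2 : n ≫ Limits.pullback.fst (U.ι ≫ π) (U'.ι ≫ π') = Limits.pullback.fst _ _ ≫ i :=
    q1b_map_fst _ _ _ _ _ _ _ _ _
  have h1' : m ≫ Limits.pullback.snd π π' = Limits.pullback.snd _ _ ≫ U'.ι :=
    q1b_map_snd _ _ _ _ _ _ _ _ _
  have h2' : n ≫ Limits.pullback.snd (U.ι ≫ π) (U'.ι ≫ π') = Limits.pullback.snd _ _ ≫ i' :=
    q1b_map_snd _ _ _ _ _ _ _ _ _
  refine ⟨s.hom ≫ n ≫ w.hom, inferInstance, ?_, ?_⟩
  · rw [← Category.assoc, hc, Category.assoc, Category.assoc, ← Category.assoc m, h1,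
      Category.assoc, ← Category.assoc n, h2, Category.assoc, ← Category.assoc s.hom, hs, hi,
      ← Spec.map_comp]
    rfl
  · intro z
    rw [hc]
    have h3 : n ≫ m = Limits.pullback.map (i ≫ U.ι ≫ π) (i' ≫ U'.ι ≫ π') π π' (i ≫ U.ι)
        (i' ≫ U'.ι) (𝟙 _) (by simp) (by simp) := by
      apply Limits.pullback.hom_ext
      · rw [Category.assoc, h1, q1b_map_fst]
        exact (Category.assoc _ _ _).symm.trans ((congrArg (· ≫ U.ι) h2).trans
          (Category.assoc _ _ _))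
      · rw [Category.assoc, h1', q1b_map_snd]
        exact (Category.assoc _ _ _).symm.trans ((congrArg (· ≫ U'.ι) h2').trans
          (Category.assoc _ _ _))
    have h4 := Scheme.Pullback.range_map (i ≫ U.ι ≫ π) (i' ≫ U'.ι ≫ π') π π' (i ≫ U.ι)
        (i' ≫ U'.ι) (𝟙 _) (by simp) (by simp)
    have h5 : Set.range (s.hom ≫ n ≫ m) = Set.range (n ≫ m) := by
      rw [Scheme.Hom.comp_base, TopCat.coe_comp, Set.range_comp, Set.range_eq_univ.mpr s.hom.surjective,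
        Set.image_univ]
    rw [h5, h3, h4]
    rfl

end Pool.Agent.KSS
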