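import Pool.Agent.KSS.InstSt

/-!
# KSS, module Q2: one-point compactifications of additive-quadratic varieties
-/

set_option autoImplicit false

noncomputable section

namespace Pool.Agent.KSS

open CategoryTheory AlgebraicGeometry TopologicalSpace Function

theorem q2_isAQk (p : ℕ) (k : Type) [Field k] : IsAQk p k k := by
  refine ⟨0, 0, fun i => i.elim0, fun i => i.elim0, fun i => i.elim0, ⟨?_⟩⟩
  have h : (Ideal.span (Set.range fun i : Fin 0 =>
      (∏ᶠ a : (i.elim0 : AddSubgroup k), (MvPolynomial.X (Sum.inl i) - MvPolynomial.C (a : k))) -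
        MvPolynomial.rename Sum.inr (i.elim0 : MvPolynomial (Fin 0) k)) :
        Ideal (MvPolynomial (Fin 0 ⊕ Fin 0) k)) = ⊥ := by
    rw [Set.range_eq_empty, Ideal.span_empty]
  exact (MvPolynomial.isEmptyAlgEquiv k (Fin 0 ⊕ Fin 0)).symm.trans
    ((AlgEquiv.quotientBot k _).symm.trans (Ideal.quotientEquivAlgOfEq k h.symm))

theorem thm_Q2 : St_Q2 := by
  intro p k _ _ _ C π V _ _ hV j _ hj c _ hc hr
  -- the point
  let pt : ↑(Spec (CommRingCat.of k)) := (inferInstance : Inhabited (PrimeSpectrum k)).default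
  have hsub : ∀ a : ↑(Spec (CommRingCat.of k)), a = pt := fun a =>
    Subsingleton.elim (α := PrimeSpectrum k) a pt
  obtain ⟨U, hU, hxU, -⟩ := exists_isAffineOpen_mem_and_subset (Opens.mem_top (c pt))
  have hcr : Set.range c ⊆ Set.range U.ι := by
    rintro _ ⟨a, rfl⟩
    rw [hsub a, Scheme.Opens.range_ι]
    exact hxU
  let i : Spec (CommRingCat.of k) ⟶ U.toScheme := IsOpenImmersion.lift U.ι c hcr
  have hi : i ≫ U.ι = c := IsOpenImmersion.lift_fac _ _ _
  have hci : IsClosedImmersion (i ≫ U.ι) := by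
    rw [hi]
    infer_instance
  have hii : IsClosedImmersion i := IsClosedImmersion.of_comp i U.ι
  have h1 : AQFilK p k C π (Set.range c) := by
    refine AQFilK.step ∅ (Set.range c) isClosed_empty
      (Scheme.Hom.isClosedEmbedding c).isClosed_range U hU k (q2_isAQk p k) i ?_
      (Set.empty_subset _) (Set.empty_inter _) ?_ AQFilK.empty
    · rw [← Category.assoc, hi, hc]
      exact (Spec.map_id _).symm
    · rw [hi, Set.sdiff_empty]
  refine AQFilK.step (Set.range c) Set.univ (Scheme.Hom.isClosedEmbedding c).isClosed_range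
    isClosed_univ j.opensRange (isAffineOpen_opensRange j) V hV j.isoOpensRange.hom ?_
    (Set.subset_univ _) ?_ ?_ h1
  · rw [← Category.assoc, Scheme.Hom.isoOpensRange_hom_ι, hj]
  · rw [Scheme.Hom.coe_opensRange, hr, Set.inter_compl_self]
  · rw [Scheme.Hom.isoOpensRange_hom_ι, hr, Set.compl_eq_univ_sdiff]

end Pool.Agent.KSS
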