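import Pool.Agent.KSS.InstSt
import Pool.Agent.HPow.Fq

/-!
# KSS, module Q3: Fermat hypersurfaces of degree `q + 1`
-/

set_option autoImplicit false

noncomputable section

namespace Pool.Agent.KSS

open CategoryTheory AlgebraicGeometry TopologicalSpace Function

attribute [local instance] MvPolynomial.gradedAlgebra

section

variable {k : Type} [Field k] {n : ℕ}

/-- the Fermat polynomial -/
def FP (k : Type) [Field k] (n q : ℕ) : MvPolynomial (Fin n) k := ∑ i, MvPolynomial.X i ^ (q + 1)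

theorem q3_FP_hom (n q : ℕ) : (FP k n q).IsHomogeneous (q + 1) := by
  refine MvPolynomial.IsHomogeneous.sum _ _ _ fun i _ => ?_
  have := (MvPolynomial.isHomogeneous_X k i).pow (q + 1)
  rwa [one_mul] at this

theorem q3_E_hom (z : k) (a : ℕ) (h : 2 * a < n) : (Ef n z a h).IsHomogeneous 1 := by
  unfold Ef
  split_ifs with h1
  · refine (MvPolynomial.isHomogeneous_X k _).sub ?_
    have := (MvPolynomial.isHomogeneous_C (Fin n) z).mul
      (MvPolynomial.isHomogeneous_X k (⟨2 * a + 1, h1⟩ : Fin n))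
    rwa [zero_add] at this
  · exact MvPolynomial.isHomogeneous_X k _

/-- the sets of forms, first kind -/
def SA (n q : ℕ) (z : k) (j : ℕ) : Set (MvPolynomial (Fin n) k) :=
  {FP k n q} ∪ {f | ∃ (a : ℕ) (h : 2 * a < n), a < j ∧ f = Ef n z a h}

/-- the sets of forms, second kind -/
def SB (n q : ℕ) (z : k) (j : ℕ) : Set (MvPolynomial (Fin n) k) :=
  {FP k n q} ∪ ({f | ∃ (a : ℕ) (h : 2 * a < n), f = Ef n z a h} ∪
    {f | ∃ (a : ℕ) (h : 2 * a + 1 < n), a < j ∧ f = MvPolynomial.X ⟨2 * a + 1, h⟩})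

theorem q3_sum_pairs {R : Type} [AddCommMonoid R] (g : ℕ → R) (h : ℕ)
    (hg : ∀ a < h, g (2 * a) + g (2 * a + 1) = 0) : ∑ i ∈ Finset.range (2 * h), g i = 0 := by
  induction h with
  | zero => simp
  | succ h ih =>
    rw [show 2 * (h + 1) = 2 * h + 1 + 1 from by ring, Finset.sum_range_succ,
      Finset.sum_range_succ, ih fun a ha => hg a (by omega), zero_add]
    exact hg h (by omega)

/-- in a domain over `k`: if the first pairs satisfy `x_(2a) = z x_(2a+1)` and the Fermat sum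
vanishes then the last coordinate vanishes -/
theorem q3_last {q : ℕ} {z : k} (hz : z ^ (q + 1) = -1) {R : Type} [CommRing R] [IsDomain R]
    [Algebra k R] (x : ℕ → R) (h : ℕ)
    (hx : ∀ a < h, x (2 * a) = algebraMap k R z * x (2 * a + 1))
    (hs : ∑ i ∈ Finset.range (2 * h + 1), x i ^ (q + 1) = 0) : x (2 * h) = 0 := by
  rw [Finset.sum_range_succ, q3_sum_pairs _ h, zero_add] at hs
  · exact pow_eq_zero_iff (Nat.succ_ne_zero q) |>.1 hs
  · intro a ha
    rw [hx a ha, mul_pow, ← map_pow, hz, map_neg, map_one]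
    ring

/-- the last form vanishes on the zero locus of `SA` -/
theorem q3_mem_last {q : ℕ} {z : k} (hz : z ^ (q + 1) = -1) (h : ℕ) (hn : n = 2 * h + 1)
    (x : PP k n) (hx : ∀ f ∈ SA n q z h, x ∈ ZL f) : x ∈ ZL (Ef n z h (by omega)) := by
  subst hn
  let I := x.asHomogeneousIdeal.toIdeal
  have hI : I.IsPrime := x.isPrime
  have hF : FP k (2 * h + 1) q ∈ I := hx _ (Or.inl rfl)
  let φ := Ideal.Quotient.mk I
  let g : ℕ → MvPolynomial (Fin (2 * h + 1)) k ⧸ I := fun i =>
    if hi : i < 2 * h + 1 then φ (MvPolynomial.X ⟨i, hi⟩) else 0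
  have hg : ∀ i (hi : i < 2 * h + 1), g i = φ (MvPolynomial.X ⟨i, hi⟩) := fun i hi => dif_pos hi
  have h1 := q3_last (R := MvPolynomial (Fin (2 * h + 1)) k ⧸ I) hz g h ?_ ?_
  · have h2 : Ef (2 * h + 1) z h (by omega) = MvPolynomial.X ⟨2 * h, by omega⟩ := by
      unfold Ef
      rw [dif_neg (by omega)]
    rw [hg _ (by omega)] at h1
    have h3 := Ideal.Quotient.eq_zero_iff_mem.1 h1
    rw [h2]
    exact h3
  · intro a ha
    rw [hg _ (by omega), hg _ (by omega)]
    have h2 : x ∈ ZL (Ef (2 * h + 1) z a (by omega)) := hx _ (Or.inr ⟨a, by omega, ha, rfl⟩)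
    have h3 : Ef (2 * h + 1) z a (by omega) ∈ I := h2
    unfold Ef at h3
    rw [dif_pos (by omega)] at h3
    have h4 := Ideal.Quotient.eq_zero_iff_mem.2 h3
    rw [map_sub, map_mul, sub_eq_zero] at h4
    exact h4
  · have h2 : φ (FP k (2 * h + 1) q) = 0 := Ideal.Quotient.eq_zero_iff_mem.2 hF
    unfold FP at h2
    rw [map_sum] at h2
    rw [← Fin.sum_univ_eq_sum_range (fun i => g i ^ (q + 1)) (2 * h + 1), ← h2]
    refine Finset.sum_congr rfl fun i _ => ?_
    rw [hg _ i.2, map_pow]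

/-- no point lies on all the forms -/
theorem q3_empty {q : ℕ} {z : k} (h : ℕ) (hn : n ≤ 2 * h + 1) (x : PP k n)
    (hx : ∀ f ∈ SB n q z h, x ∈ ZL f) : False := by
  let I := x.asHomogeneousIdeal.toIdeal
  have hodd : ∀ a (ha : 2 * a + 1 < n), MvPolynomial.X (⟨2 * a + 1, ha⟩ : Fin n) ∈ I :=
    fun a ha => hx _ (Or.inr (Or.inr ⟨a, ha, by omega, rfl⟩))
  have heven : ∀ a (ha : 2 * a < n), MvPolynomial.X (⟨2 * a, ha⟩ : Fin n) ∈ I := by
    intro a ha
    have h1 : Ef n z a ha ∈ I := hx _ (Or.inr (Or.inl ⟨a, ha, rfl⟩))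
    unfold Ef at h1
    split_ifs at h1 with h2
    · have h3 := I.add_mem h1 (I.mul_mem_left (MvPolynomial.C z) (hodd a h2))
      rwa [sub_add_cancel] at h3
    · exact h1
  have hall : ∀ i : Fin n, MvPolynomial.X i ∈ I := by
    rintro ⟨i, hi⟩
    obtain ⟨a, rfl | rfl⟩ := Nat.even_or_odd' i
    · exact heven a hi
    · exact hodd a hi
  refine x.not_irrelevant_le ?_
  intro f hf
  have h1 : MvPolynomial.homogeneousComponent 0 f = 0 := by
    have h2 := (HomogeneousIdeal.mem_irrelevant_iff _ _).1 hf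
    rw [GradedRing.proj_apply] at h2
    exact (MvPolynomial.decomposition.decompose'_apply f 0).symm.trans h2
  have h3 : MvPolynomial.coeff 0 f = 0 := by
    rw [MvPolynomial.homogeneousComponent_zero] at h1
    exact (map_eq_zero _).1 h1
  have h4 : f ∈ MvPolynomial.idealOfVars (Fin n) k ^ 1 := by
    rw [MvPolynomial.mem_pow_idealOfVars_iff]
    intro d hd
    rw [Nat.one_le_iff_ne_zero]
    intro hd0
    rw [Finsupp.degree_eq_zero_iff] at hd0
    rw [hd0, MvPolynomial.mem_support_iff] at hd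
    exact hd h3
  rw [pow_one] at h4
  have h5 : MvPolynomial.idealOfVars (Fin n) k ≤ I := by
    refine Ideal.span_le.2 ?_
    rintro _ ⟨i, rfl⟩
    exact hall i
  exact h5 h4

end

theorem thm_Q3 (hd : St_Q3d) (he : St_Q3e) (hf : St_Q3f) : St_Q3 := by
  intro p m q t k _ _ _ hk n Z i _ hi
  obtain ⟨z, -, hz⟩ := hk.exists_norm (-1) (by
    rw [hk.neg_pow, one_pow]) (by
    exact neg_ne_zero.2 one_ne_zero)
  have hiF : ∀ x : PP k n, x ∈ ZL (FP k n q) → x ∈ Set.range i := by
    intro x hx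
    rw [hi]
    exact hx
  let h := n / 2
  -- second kind
  have hB : ∀ j ≤ h, AQFilK p k Z (i ≫ PPπ k n) {y | ∀ f ∈ SB n q z j, i y ∈ ZL f} := by
    intro j hj
    induction hj using Nat.decreasingInduction with
    | self =>
      have h1 : {y : Z | ∀ f ∈ SB n q z h, i y ∈ ZL f} = ∅ := by
        refine Set.eq_empty_iff_forall_notMem.2 fun y hy => ?_
        exact q3_empty h (by omega) (i y) hy
      rw [h1]
      exact AQFilK.empty
    | of_succ j hj ih =>
      obtain ⟨V, _, _, θ, hV, hVr, hθ, hθ1, hθF, hθE, hθX, hker⟩ := he p k q n z hz j (by omega)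
      refine hf p k n Z i V θ (SB n q z j) (MvPolynomial.X ⟨2 * j + 1, by omega⟩) hV hθ
        (MvPolynomial.isHomogeneous_X k _) ?_ hθ1 ?_ ?_ ?_ ?_
      · rintro f (rfl | ⟨a, ha, rfl⟩ | ⟨a, ha, -, rfl⟩)
        · exact ⟨_, q3_FP_hom n q⟩
        · exact ⟨_, q3_E_hom z a ha⟩
        · exact ⟨_, MvPolynomial.isHomogeneous_X k _⟩
      · rintro f (rfl | ⟨a, ha, rfl⟩ | ⟨a, ha, haj, rfl⟩)
        · exact hθF
        · exact hθE a ha
        · exact hθX a haj
      · refine hker.trans (Ideal.span_mono ?_)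
        rintro f ((rfl | ⟨a, ha, rfl⟩) | ⟨a, rfl⟩)
        · exact Or.inl rfl
        · exact Or.inr (Or.inr (Or.inl ⟨a, ha, rfl⟩))
        · exact Or.inr (Or.inr (Or.inr ⟨a, by omega, a.2, rfl⟩))
      · intro x hx _
        exact hiF x (hx _ (Or.inl rfl))
      · have h2 : {y : Z | (∀ f ∈ SB n q z j, i y ∈ ZL f) ∧
            i y ∈ ZL (MvPolynomial.X ⟨2 * j + 1, by omega⟩)} =
            {y : Z | ∀ f ∈ SB n q z (j + 1), i y ∈ ZL f} := by
          ext y
          constructor
          · rintro ⟨h3, h4⟩ f (rfl | ⟨a, ha, rfl⟩ | ⟨a, ha, haj, rfl⟩)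
            · exact h3 _ (Or.inl rfl)
            · exact h3 _ (Or.inr (Or.inl ⟨a, ha, rfl⟩))
            · by_cases haj' : a < j
              · exact h3 _ (Or.inr (Or.inr ⟨a, ha, haj', rfl⟩))
              · obtain rfl : a = j := by omega
                exact h4
          · intro h3
            refine ⟨fun f hf' => h3 f ?_, h3 _ (Or.inr (Or.inr ⟨j, by omega, by omega, rfl⟩))⟩
            rcases hf' with rfl | ⟨a, ha, rfl⟩ | ⟨a, ha, haj, rfl⟩
            · exact Or.inl rfl
            · exact Or.inr (Or.inl ⟨a, ha, rfl⟩)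
            · exact Or.inr (Or.inr ⟨a, ha, by omega, rfl⟩)
        rw [h2]
        exact ih
  -- first kind
  have hA : ∀ j ≤ h, AQFilK p k Z (i ≫ PPπ k n) {y | ∀ f ∈ SA n q z j, i y ∈ ZL f} := by
    intro j hj
    induction hj using Nat.decreasingInduction with
    | self =>
      have h1 : {y : Z | ∀ f ∈ SA n q z h, i y ∈ ZL f} =
          {y : Z | ∀ f ∈ SB n q z 0, i y ∈ ZL f} := by
        ext y
        constructor
        · rintro h3 f (rfl | ⟨a, ha, rfl⟩ | ⟨a, ha, haj, rfl⟩)
          · exact h3 _ (Or.inl rfl)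
          · by_cases hah : a < h
            · exact h3 _ (Or.inr ⟨a, ha, hah, rfl⟩)
            · obtain rfl : a = h := by omega
              exact q3_mem_last hz h (by omega) (i y) h3
          · omega
        · rintro h3 f (rfl | ⟨a, ha, haj, rfl⟩)
          · exact h3 _ (Or.inl rfl)
          · exact h3 _ (Or.inr (Or.inl ⟨a, ha, rfl⟩))
      rw [h1]
      exact hB 0 (Nat.zero_le _)
    | of_succ j hj ih =>
      obtain ⟨V, _, _, θ, hV, hVr, hθ, hθ1, hθF, hθE, hker⟩ :=
        hd p m q t k hk n z hz j (by omega)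
      refine hf p k n Z i V θ (SA n q z j) (Ef n z j (by omega)) hV hθ
        (q3_E_hom z j _) ?_ hθ1 ?_ ?_ ?_ ?_
      · rintro f (rfl | ⟨a, ha, -, rfl⟩)
        · exact ⟨_, q3_FP_hom n q⟩
        · exact ⟨_, q3_E_hom z a ha⟩
      · rintro f (rfl | ⟨a, ha, haj, rfl⟩)
        · exact hθF
        · exact hθE a haj
      · refine hker.trans (Ideal.span_mono ?_)
        rintro f ((rfl | rfl) | ⟨a, rfl⟩)
        · exact Or.inl rfl
        · exact Or.inr (Or.inl rfl)
        · exact Or.inr (Or.inr ⟨a, by omega, a.2, rfl⟩)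
      · intro x hx _
        exact hiF x (hx _ (Or.inl rfl))
      · have h2 : {y : Z | (∀ f ∈ SA n q z j, i y ∈ ZL f) ∧
            i y ∈ ZL (Ef n z j (by omega))} =
            {y : Z | ∀ f ∈ SA n q z (j + 1), i y ∈ ZL f} := by
          ext y
          constructor
          · rintro ⟨h3, h4⟩ f (rfl | ⟨a, ha, haj, rfl⟩)
            · exact h3 _ (Or.inl rfl)
            · by_cases haj' : a < j
              · exact h3 _ (Or.inr ⟨a, ha, haj', rfl⟩)
              · obtain rfl : a = j := by omega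
                exact h4
          · intro h3
            refine ⟨fun f hf' => h3 f ?_, h3 _ (Or.inr ⟨j, by omega, by omega, rfl⟩)⟩
            rcases hf' with rfl | ⟨a, ha, haj, rfl⟩
            · exact Or.inl rfl
            · exact Or.inr ⟨a, ha, by omega, rfl⟩
        rw [h2]
        exact ih
  have h1 : {y : Z | ∀ f ∈ SA n q z 0, i y ∈ ZL f} = Set.univ := by
    refine Set.eq_univ_of_forall fun y => ?_
    rintro f (rfl | ⟨a, ha, haj, rfl⟩)
    · have h2 : i y ∈ Set.range i := ⟨y, rfl⟩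
      rw [hi] at h2
      exact h2
    · omega
  rw [← h1]
  exact hA 0 (Nat.zero_le _)

end Pool.Agent.KSS
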