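import Pool.Agent.KSS.InstSt

/-!
# KSS, module Q3b

Lifting a closed immersion of a reduced affine scheme into a closed subscheme.
-/

set_option autoImplicit false

noncomputable section

namespace Pool.Agent.KSS

open CategoryTheory AlgebraicGeometry TopologicalSpace Function

theorem thm_Q3b : St_Q3b := by
  intro P Z i _ U V _ _ c _ hr
  let j : Spec (CommRingCat.of V) ⟶ P := c ≫ U.ι
  -- the base change of `i` is an isomorphism
  haveI hs : AlgebraicGeometry.Surjective (Limits.pullback.fst j i) := by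
    refine ⟨fun v => ?_⟩
    obtain ⟨z, hz⟩ := hr ⟨v, rfl⟩
    obtain ⟨w, hw, -⟩ := Scheme.Pullback.exists_preimage_pullback v z
      (show j v = i z from hz.symm)
    exact ⟨w, hw⟩
  haveI : IsReduced (Spec (CommRingCat.of V)) := inferInstance
  haveI : IsIso (Limits.pullback.fst j i) := isIso_of_isClosedImmersion_of_surjective _
  let g : Spec (CommRingCat.of V) ⟶ Z := inv (Limits.pullback.fst j i) ≫ Limits.pullback.snd j i
  have hg : g ≫ i = j := by
    show (inv (Limits.pullback.fst j i) ≫ Limits.pullback.snd j i) ≫ i = j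
    rw [Category.assoc, ← Limits.pullback.condition, IsIso.inv_hom_id_assoc]
  have hgr : Set.range g ⊆ Set.range (i ⁻¹ᵁ U).ι := by
    rintro _ ⟨v, rfl⟩
    rw [Scheme.Opens.range_ι]
    show i (g v) ∈ U
    have h1 : i (g v) = U.ι (c v) := by
      rw [← Scheme.Hom.comp_apply, hg]
      rfl
    rw [h1]
    exact (c v).2
  let c' : Spec (CommRingCat.of V) ⟶ (i ⁻¹ᵁ U).toScheme :=
    IsOpenImmersion.lift (i ⁻¹ᵁ U).ι g hgr
  have hc' : c' ≫ (i ⁻¹ᵁ U).ι = g := IsOpenImmersion.lift_fac _ _ _
  have hres : c' ≫ (i ∣_ U) = c := by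
    rw [← cancel_mono U.ι, Category.assoc, morphismRestrict_ι, ← Category.assoc, hc', hg]
  haveI : IsClosedImmersion (c' ≫ (i ∣_ U)) := by rw [hres]; infer_instance
  refine ⟨c', IsClosedImmersion.of_comp c' (i ∣_ U), ?_, ?_⟩
  · rw [← Category.assoc, hc', hg]
  · intro z
    rw [hc']
    constructor
    · rintro ⟨v, rfl⟩
      refine ⟨v, ?_⟩
      rw [← Scheme.Hom.comp_apply, hg]
    · rintro ⟨v, hv⟩
      refine ⟨v, ?_⟩
      apply i.isClosedEmbedding.injective
      rw [← Scheme.Hom.comp_apply, hg]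
      exact hv

end Pool.Agent.KSS
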