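import Pool.Agent.KSS.InstSt

/-!
# KSS, module Q3c: `W[y] / P` is reduced for a monic separable `P` over a domain `W`
-/

set_option autoImplicit false

noncomputable section

namespace Pool.Agent.KSS

open Polynomial

theorem thm_Q3c : St_Q3c := by
  intro W _ _ P hP hs
  refine ⟨fun x hx => ?_⟩
  obtain ⟨g, rfl⟩ := AdjoinRoot.mk_surjective x
  obtain ⟨n, hn⟩ := hx
  rw [← map_pow, AdjoinRoot.mk_eq_zero] at hn
  have hinj := IsFractionRing.injective W (FractionRing W)
  have h1 : P.map (algebraMap W (FractionRing W)) ∣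
      (g.map (algebraMap W (FractionRing W))) ^ n := by
    rw [← Polynomial.map_pow]
    exact Polynomial.map_dvd _ hn
  have h2 : Squarefree (P.map (algebraMap W (FractionRing W))) := hs.map.squarefree
  have h3 := h2.isRadical n _ h1
  rw [Polynomial.map_dvd_map _ hinj hP] at h3
  exact AdjoinRoot.mk_eq_zero.2 h3

end Pool.Agent.KSS
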