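import Pool.Agent.KSS.InstSt
import Pool.Agent.HPow.Fq

/-!
# KSS, module Q3d: charts of the first kind of the Fermat hypersurface
-/

set_option autoImplicit false

noncomputable section

namespace Pool.Agent.KSS

open Function

namespace Q3d

section alg

variable {p m q t : ℕ} {k : Type} [Field k]

/-- the kernel of the trace -/
def Htr (h : Pool.Agent.HPow.Setg p m q t k) : AddSubgroup k where
  carrier := {c | c ^ q + c = 0}
  zero_mem' := by
    change (0 : k) ^ q + 0 = 0
    rw [zero_pow (by have := h.q_two_le; omega), add_zero]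
  add_mem' {a b} ha hb := by
    change (a + b) ^ q + (a + b) = 0
    rw [h.add_pow]
    have ha' : a ^ q + a = 0 := ha
    have hb' : b ^ q + b = 0 := hb
    linear_combination ha' + hb'
  neg_mem' {a} ha := by
    change (-a) ^ q + (-a) = 0
    rw [h.neg_pow]
    have ha' : a ^ q + a = 0 := ha
    linear_combination -ha'

theorem mem_Htr (h : Pool.Agent.HPow.Setg p m q t k) (c : k) : c ∈ Htr h ↔ c ^ q + c = 0 :=
  Iff.rfl

theorem prod_poly (h : Pool.Agent.HPow.Setg p m q t k) :
    (∏ᶠ a : Htr h, (Polynomial.X - Polynomial.C (a : k))) =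
      (Polynomial.X ^ q + Polynomial.X : Polynomial k) := by
  classical
  have := h.finite
  have : Fintype (Htr h) := Fintype.ofFinite _
  set F : Polynomial k := Polynomial.X ^ q + Polynomial.X with hF
  have hsep : F.Separable := by
    rw [Polynomial.Separable]
    have : Polynomial.derivative F = 1 := by
      rw [hF, Polynomial.derivative_add, Polynomial.derivative_X_pow, Polynomial.derivative_X,
        h.fq_q_zero, Polynomial.C_0, zero_mul, zero_add]
    rw [this]
    exact isCoprime_one_right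
  have hne : F ≠ 0 := h.fq_monic_tr.ne_zero
  have h1 := h.fq_splits_tr.eq_prod_roots_of_monic h.fq_monic_tr
  rw [← hF] at h1
  have h2 : F.roots.toFinset.val = F.roots := by
    rw [Multiset.toFinset_val, Multiset.dedup_eq_self]
    exact Polynomial.nodup_roots hsep
  rw [finprod_eq_prod_of_fintype, h1, ← h2]
  have h3 : ((F.roots.toFinset.val).map fun a => Polynomial.X - Polynomial.C a).prod =
      ∏ c ∈ F.roots.toFinset, (Polynomial.X - Polynomial.C c) := rfl
  rw [h3, ← Finset.prod_coe_sort F.roots.toFinset (fun c => Polynomial.X - Polynomial.C c)]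
  have e : ∀ c : k, c ∈ Htr h ↔ c ∈ F.roots.toFinset := by
    intro c
    rw [Multiset.mem_toFinset, Polynomial.mem_roots hne, Polynomial.IsRoot.def, mem_Htr, hF]
    simp
  exact Fintype.prod_equiv (Equiv.subtypeEquivRight e)
    (fun a : {c // c ∈ Htr h} => Polynomial.X - Polynomial.C (a : k))
    (fun a : {c // c ∈ F.roots.toFinset} => Polynomial.X - Polynomial.C (a : k)) fun _ => rfl

theorem prod_alg (h : Pool.Agent.HPow.Setg p m q t k) {B : Type} [CommRing B] [Algebra k B]
    (β : B) : (∏ᶠ a : Htr h, (β - algebraMap k B (a : k))) = β ^ q + β := by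
  have := h.finite
  have h1 := congrArg (Polynomial.aeval β) (prod_poly h)
  rw [map_add, map_pow, Polynomial.aeval_X] at h1
  rw [← h1]
  have h2 : (Polynomial.aeval β) (∏ᶠ a : Htr h, (Polynomial.X - Polynomial.C (a : k))) =
      ∏ᶠ a : Htr h, (Polynomial.aeval β) (Polynomial.X - Polynomial.C (a : k)) :=
    ((Polynomial.aeval β : Polynomial k →ₐ[k] B) : Polynomial k →* B).map_finprod
      (f := fun a : Htr h => Polynomial.X - Polynomial.C (a : k)) (Set.toFinite _)
  rw [h2]
  refine finprod_congr fun a => ?_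
  rw [map_sub, Polynomial.aeval_X, Polynomial.aeval_C]

end alg

section ring

variable {p m q t : ℕ} {k : Type} [Field k] (h : Pool.Agent.HPow.Setg p m q t k) {r : ℕ}
  (f : MvPolynomial (Fin r) k)

/-- the ring -/
abbrev VV : Type := AQRing (fun _ : Fin 1 => Htr h) (fun _ : Fin 1 => f)

/-- the coordinate `y` -/
def vy : VV h f := Ideal.Quotient.mk _ (MvPolynomial.X (Sum.inl 0))

/-- the coordinates `x` -/
def vx (b : Fin r) : VV h f := Ideal.Quotient.mk _ (MvPolynomial.X (Sum.inr b))

theorem gen_eq (i : Fin 1) :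
    ((∏ᶠ a : Htr h, (MvPolynomial.X (Sum.inl i) - MvPolynomial.C (a : k))) -
      MvPolynomial.rename Sum.inr f : MvPolynomial (Fin 1 ⊕ Fin r) k) =
    MvPolynomial.X (Sum.inl i) ^ q + MvPolynomial.X (Sum.inl i) -
      MvPolynomial.rename Sum.inr f := by
  rw [← prod_alg h (MvPolynomial.X (Sum.inl i) : MvPolynomial (Fin 1 ⊕ Fin r) k)]
  rfl

theorem V_rel : vy h f ^ q + vy h f = MvPolynomial.aeval (vx h f) f := by
  have h1 : (Ideal.Quotient.mk (Ideal.span (Set.range fun i : Fin 1 =>
      (∏ᶠ a : Htr h, (MvPolynomial.X (Sum.inl i) - MvPolynomial.C (a : k))) -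
        MvPolynomial.rename Sum.inr f : Set (MvPolynomial (Fin 1 ⊕ Fin r) k))))
      ((∏ᶠ a : Htr h, (MvPolynomial.X (Sum.inl 0) - MvPolynomial.C (a : k))) -
        MvPolynomial.rename Sum.inr f) = 0 :=
    Ideal.Quotient.eq_zero_iff_mem.mpr (Ideal.subset_span ⟨0, rfl⟩)
  rw [gen_eq, map_sub, map_add, map_pow, sub_eq_zero] at h1
  have h2 : ∀ g : MvPolynomial (Fin r) k, (Ideal.Quotient.mk (Ideal.span (Set.range fun i : Fin 1 =>
      (∏ᶠ a : Htr h, (MvPolynomial.X (Sum.inl i) - MvPolynomial.C (a : k))) -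
        MvPolynomial.rename Sum.inr f : Set (MvPolynomial (Fin 1 ⊕ Fin r) k))))
      (MvPolynomial.rename Sum.inr g) = MvPolynomial.aeval (vx h f) g := by
    intro g
    have h3 : ((Ideal.Quotient.mkₐ k _).comp (MvPolynomial.rename Sum.inr) :
        MvPolynomial (Fin r) k →ₐ[k] VV h f) = MvPolynomial.aeval (vx h f) := by
      apply MvPolynomial.algHom_ext
      intro b
      rw [MvPolynomial.aeval_X, AlgHom.comp_apply, MvPolynomial.rename_X]
      rfl
    exact DFunLike.congr_fun h3 g
  rw [h2] at h1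
  exact h1

/-- the universal property -/
theorem V_lift {B : Type} [CommRing B] [Algebra k B] (σ : MvPolynomial (Fin 1 ⊕ Fin r) k →ₐ[k] B)
    (hσ : σ (MvPolynomial.X (Sum.inl 0)) ^ q + σ (MvPolynomial.X (Sum.inl 0)) =
      MvPolynomial.aeval (fun b => σ (MvPolynomial.X (Sum.inr b))) f) :
    ∃ ψ : VV h f →ₐ[k] B, ∀ g, ψ (Ideal.Quotient.mk _ g) = σ g := by
  refine ⟨Ideal.Quotient.liftₐ _ σ ?_, fun g => rfl⟩
  intro a ha
  have h1 : Ideal.span (Set.range fun i : Fin 1 =>
      (∏ᶠ a : Htr h, (MvPolynomial.X (Sum.inl i) - MvPolynomial.C (a : k))) -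
        MvPolynomial.rename Sum.inr f : Set (MvPolynomial (Fin 1 ⊕ Fin r) k)) ≤
      RingHom.ker σ.toRingHom := by
    rw [Ideal.span_le]
    rintro _ ⟨i, rfl⟩
    obtain rfl : i = 0 := Subsingleton.elim _ _
    change σ ((∏ᶠ a : Htr h, (MvPolynomial.X (Sum.inl 0) - MvPolynomial.C (a : k))) -
      MvPolynomial.rename Sum.inr f) = 0
    rw [gen_eq]
    rw [map_sub, map_add, map_pow, hσ, sub_eq_zero]
    have h3 : σ.comp (MvPolynomial.rename Sum.inr) =
        MvPolynomial.aeval (fun b : Fin r => σ (MvPolynomial.X (Sum.inr b))) := by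
      apply MvPolynomial.algHom_ext
      intro b
      rw [MvPolynomial.aeval_X, AlgHom.comp_apply, MvPolynomial.rename_X]
    exact (DFunLike.congr_fun h3 f).symm
  exact h1 ha

theorem V_ext {B : Type} [CommRing B] [Algebra k B] {φ ψ : VV h f →ₐ[k] B}
    (hy : φ (vy h f) = ψ (vy h f)) (hx : ∀ b, φ (vx h f b) = ψ (vx h f b)) : φ = ψ := by
  apply Ideal.Quotient.algHom_ext
  apply MvPolynomial.algHom_ext
  rintro (i | b)
  · obtain rfl : i = 0 := Subsingleton.elim _ _
    exact hy
  · exact hx b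

theorem V_red (h3 : St_Q3c) : IsReduced (VV h f) := by
  classical
  have hq := h.q_two_le
  set P : Polynomial (MvPolynomial (Fin r) k) := Polynomial.X ^ q + (Polynomial.X - Polynomial.C f) with hP
  have hqW : (q : MvPolynomial (Fin r) k) = 0 := by
    have h1 := congrArg (algebraMap k (MvPolynomial (Fin r) k)) h.fq_q_zero
    rwa [map_natCast, map_zero] at h1
  have hmon : P.Monic := by
    apply Polynomial.monic_X_pow_add
    rw [Polynomial.degree_X_sub_C]
    exact_mod_cast (by omega : 1 < q)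
  have hsep : P.Separable := by
    rw [Polynomial.Separable]
    have : Polynomial.derivative P = 1 := by
      rw [hP, Polynomial.derivative_add, Polynomial.derivative_X_pow, Polynomial.derivative_sub,
        Polynomial.derivative_X, Polynomial.derivative_C, hqW, Polynomial.C_0, zero_mul, zero_add,
        sub_zero]
    rw [this]
    exact isCoprime_one_right
  have hred : IsReduced (AdjoinRoot P) := h3 _ P hmon hsep
  -- the map to `AdjoinRoot P`
  have hroot : AdjoinRoot.root P ^ q + AdjoinRoot.root P = algebraMap (MvPolynomial (Fin r) k) (AdjoinRoot P) f := by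
    have h1 := AdjoinRoot.eval₂_root P
    rw [hP, Polynomial.eval₂_add, Polynomial.eval₂_pow, Polynomial.eval₂_X, Polynomial.eval₂_sub,
      Polynomial.eval₂_X, Polynomial.eval₂_C] at h1
    have h2 : (algebraMap (MvPolynomial (Fin r) k) (AdjoinRoot P)) f = AdjoinRoot.of P f := rfl
    rw [h2]
    linear_combination h1
  obtain ⟨ψ, hψ⟩ := V_lift h f (B := AdjoinRoot P) (MvPolynomial.aeval (Sum.elim
    (fun _ : Fin 1 => AdjoinRoot.root P)
    (fun b : Fin r => algebraMap (MvPolynomial (Fin r) k) (AdjoinRoot P) (MvPolynomial.X b)))) (by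
      rw [MvPolynomial.aeval_X, Sum.elim_inl, hroot]
      have h4 : (fun b : Fin r => (MvPolynomial.aeval (Sum.elim
          (fun _ : Fin 1 => AdjoinRoot.root P)
          (fun b : Fin r => algebraMap (MvPolynomial (Fin r) k) (AdjoinRoot P) (MvPolynomial.X b))))
            (MvPolynomial.X (Sum.inr b) : MvPolynomial (Fin 1 ⊕ Fin r) k)) =
          fun b => algebraMap (MvPolynomial (Fin r) k) (AdjoinRoot P) (MvPolynomial.X b) := by
        funext b
        rw [MvPolynomial.aeval_X, Sum.elim_inr]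
      rw [h4]
      have h5 : (IsScalarTower.toAlgHom k (MvPolynomial (Fin r) k) (AdjoinRoot P)) =
          MvPolynomial.aeval (fun b : Fin r => algebraMap (MvPolynomial (Fin r) k) (AdjoinRoot P) (MvPolynomial.X b)) := by
        apply MvPolynomial.algHom_ext
        intro b
        rw [MvPolynomial.aeval_X]
        rfl
      exact DFunLike.congr_fun h5 f)
  -- the map back
  let ρ : AdjoinRoot P →+* VV h f := AdjoinRoot.lift (MvPolynomial.aeval (vx h f)).toRingHom
    (vy h f) (by
      rw [hP, Polynomial.eval₂_add, Polynomial.eval₂_pow, Polynomial.eval₂_X,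
        Polynomial.eval₂_sub, Polynomial.eval₂_X, Polynomial.eval₂_C]
      have h6 := V_rel h f
      change _ + (_ - MvPolynomial.aeval (vx h f) f) = 0
      linear_combination h6)
  have hcomp : ∀ v, ρ (ψ v) = v := by
    intro v
    obtain ⟨g, rfl⟩ := Ideal.Quotient.mk_surjective v
    rw [hψ]
    induction g using MvPolynomial.induction_on with
    | C a =>
      rw [MvPolynomial.aeval_C]
      have h7 : algebraMap k (AdjoinRoot P) a = AdjoinRoot.of P (MvPolynomial.C a) := rfl
      rw [h7]
      change ρ (AdjoinRoot.of P (MvPolynomial.C a)) = _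
      rw [AdjoinRoot.lift_of]
      change MvPolynomial.aeval (vx h f) (MvPolynomial.C a) = _
      rw [MvPolynomial.aeval_C]
      rfl
    | add g g' hg hg' => rw [map_add, map_add, map_add, hg, hg']
    | mul_X g i hg =>
      rw [map_mul, map_mul, map_mul, hg, MvPolynomial.aeval_X]
      congr 1
      rcases i with i | b
      · obtain rfl : i = 0 := Subsingleton.elim _ _
        rw [Sum.elim_inl]
        exact AdjoinRoot.lift_root _
      · rw [Sum.elim_inr]
        change ρ (AdjoinRoot.of P (MvPolynomial.X b)) = _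
        rw [AdjoinRoot.lift_of]
        change MvPolynomial.aeval (vx h f) (MvPolynomial.X b) = _
        rw [MvPolynomial.aeval_X]
        rfl
  exact isReduced_of_injective ψ (fun v w hvw => by rw [← hcomp v, hvw, hcomp])

end ring

/-! ### sums -/

theorem sum_pairs {R : Type} [CommRing R] (U : ℕ → R) (j : ℕ) :
    ∑ i ∈ Finset.range (2 * j), U i = ∑ a ∈ Finset.range j, (U (2 * a) + U (2 * a + 1)) := by
  induction j with
  | zero => rfl
  | succ j ih =>
    rw [Finset.sum_range_succ, ← ih, (by ring : 2 * (j + 1) = 2 * j + 1 + 1),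
      Finset.sum_range_succ, Finset.sum_range_succ, add_assoc]

theorem sum_split {R : Type} [CommRing R] (j r : ℕ) (u : Fin (2 * j + 2 + r) → R)
    (h0 : ∀ a (ha : a < j), u ⟨2 * a, by omega⟩ + u ⟨2 * a + 1, by omega⟩ = 0) :
    ∑ i, u i = u ⟨2 * j, by omega⟩ + u ⟨2 * j + 1, by omega⟩ +
      ∑ b : Fin r, u ⟨2 * j + 2 + b, by omega⟩ := by
  set U : ℕ → R := fun i => if h : i < 2 * j + 2 + r then u ⟨i, h⟩ else 0 with hU
  have hUu : ∀ i (hi : i < 2 * j + 2 + r), U i = u ⟨i, hi⟩ := fun i hi => dif_pos hi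
  have h1 : ∑ i, u i = ∑ i ∈ Finset.range (2 * j + 2 + r), U i := by
    rw [Finset.sum_range]
    exact Finset.sum_congr rfl fun i _ => (hUu i i.2).symm
  rw [h1, Finset.sum_range_add, Finset.sum_range_succ, Finset.sum_range_succ, sum_pairs,
    Finset.sum_eq_zero, zero_add, hUu _ (by omega), hUu _ (by omega)]
  · congr 1
    rw [Finset.sum_range]
    exact Finset.sum_congr rfl fun b _ => hUu _ _
  · intro a ha
    have ha' := Finset.mem_range.mp ha
    rw [hUu _ (by omega), hUu _ (by omega)]
    exact h0 a ha'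

/-! ### the chart -/

section chart

variable {p m q t : ℕ} {k : Type} [Field k]

/-- the polynomial `-1 - ∑ x_b ^ (q + 1)` in the variables after the first `j` -/
def ff (k : Type) [Field k] (q j r : ℕ) : MvPolynomial (Fin (j + r)) k :=
  -1 - ∑ b : Fin r, MvPolynomial.X (Fin.natAdd j b) ^ (q + 1)

theorem ff_supp (h : Pool.Agent.HPow.Setg p m q t k) (j r : ℕ) :
    ∀ d ∈ (ff k q j r).support, d = 0 ∨ (∃ l a, d = Finsupp.single l (p ^ a)) ∨
      ∃ l l' a b, d = Finsupp.single l (p ^ a) + Finsupp.single l' (p ^ b) := by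
  classical
  intro d hd
  rw [MvPolynomial.mem_support_iff] at hd
  by_cases hd0 : d = 0
  · exact Or.inl hd0
  · right
    right
    have h1 : ∃ b : Fin r, MvPolynomial.coeff d
        ((MvPolynomial.X (Fin.natAdd j b) : MvPolynomial (Fin (j + r)) k) ^ (q + 1)) ≠ 0 := by
      by_contra hcon
      push Not at hcon
      apply hd
      unfold ff
      rw [MvPolynomial.coeff_sub, MvPolynomial.coeff_neg, MvPolynomial.coeff_one,
        if_neg (Ne.symm hd0), MvPolynomial.coeff_sum, Finset.sum_eq_zero fun b _ => hcon b,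
        neg_zero, sub_zero]
    obtain ⟨b, hb⟩ := h1
    rw [MvPolynomial.coeff_X_pow] at hb
    have h2 : Finsupp.single (Fin.natAdd j b) (q + 1) = d := by
      by_contra h3
      rw [if_neg h3] at hb
      exact hb rfl
    refine ⟨Fin.natAdd j b, Fin.natAdd j b, m, 0, ?_⟩
    rw [← h2, ← h.hq, pow_zero, ← Finsupp.single_add]

/-- the chart, `n = 2 j + 2 + r` -/
theorem chart (h3 : St_Q3c) (h : Pool.Agent.HPow.Setg p m q t k) (j r : ℕ) (z : k)
    (hz : z ^ (q + 1) = -1) :
    ∃ (V : Type) (_ : CommRing V) (_ : Algebra k V)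
      (θ : MvPolynomial (Fin (2 * j + 2 + r)) k →ₐ[k] V),
      IsAQk p k V ∧ IsReduced V ∧ Surjective θ ∧
      θ (Ef (2 * j + 2 + r) z j (by omega)) = 1 ∧
      θ (∑ i, MvPolynomial.X i ^ (q + 1)) = 0 ∧
      (∀ (a : ℕ) (ha : a < j), θ (Ef (2 * j + 2 + r) z a (by omega)) = 0) ∧
      RingHom.ker θ.toRingHom ≤ Ideal.span
        ({Ef (2 * j + 2 + r) z j (by omega) - 1, ∑ i, MvPolynomial.X i ^ (q + 1)} ∪
          Set.range fun a : Fin j => Ef (2 * j + 2 + r) z a (by omega)) := by
  classical
  have hz0 : z ≠ 0 := by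
    rintro rfl
    rw [zero_pow (by omega)] at hz
    exact one_ne_zero (neg_eq_zero.mp hz.symm)
  set f := ff k q j r with hf
  set y := vy h f with hy
  set x := vx h f with hx
  -- the values of the variables
  let val : Fin (2 * j + 2 + r) → VV h f := fun i =>
    if h1 : (i : ℕ) < 2 * j then
      if (i : ℕ) % 2 = 0 then algebraMap k _ z * x ⟨i / 2, by omega⟩ else x ⟨i / 2, by omega⟩
    else if h2 : (i : ℕ) = 2 * j then 1 + y
    else if h3 : (i : ℕ) = 2 * j + 1 then algebraMap k _ z⁻¹ * y
    else x ⟨i - (j + 2), by omega⟩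
  have val_even : ∀ a (ha : a < j), val ⟨2 * a, by omega⟩ = algebraMap k _ z * x ⟨a, by omega⟩ := by
    intro a ha
    have e : 2 * a / 2 = a := by omega
    simp only [val]
    rw [dif_pos (by omega), if_pos (by omega)]
    congr 2
    exact Fin.ext e
  have val_odd : ∀ a (ha : a < j), val ⟨2 * a + 1, by omega⟩ = x ⟨a, by omega⟩ := by
    intro a ha
    have e : (2 * a + 1) / 2 = a := by omega
    simp only [val]
    rw [dif_pos (by omega), if_neg (by omega)]
    congr 1
    exact Fin.ext e
  have val_j : val ⟨2 * j, by omega⟩ = 1 + y := by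
    simp only [val]
    rw [dif_neg (by omega), dif_pos trivial]
  have val_j1 : val ⟨2 * j + 1, by omega⟩ = algebraMap k _ z⁻¹ * y := by
    simp only [val]
    rw [dif_neg (by omega), dif_neg (by omega), dif_pos trivial]
  have val_r : ∀ b (hb : b < r), val ⟨2 * j + 2 + b, by omega⟩ = x ⟨j + b, by omega⟩ := by
    intro b hb
    have e : 2 * j + 2 + b - (j + 2) = j + b := by omega
    simp only [val]
    rw [dif_neg (by omega), dif_neg (by omega), dif_neg (by omega)]
    congr 1
    exact Fin.ext e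
  let θ : MvPolynomial (Fin (2 * j + 2 + r)) k →ₐ[k] VV h f := MvPolynomial.aeval val
  have θX : ∀ i, θ (MvPolynomial.X i) = val i := fun i => MvPolynomial.aeval_X _ _
  have θC : ∀ c, θ (MvPolynomial.C c) = algebraMap k _ c := fun c => MvPolynomial.aeval_C _ _
  have hzi : ∀ (B : Type) [CommRing B] [Algebra k B],
      algebraMap k B z * algebraMap k B z⁻¹ = 1 := by
    intro B _ _
    rw [← map_mul, mul_inv_cancel₀ hz0, map_one]
  have hzq : ∀ (B : Type) [CommRing B] [Algebra k B], algebraMap k B z ^ (q + 1) = -1 := by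
    intro B _ _
    rw [← map_pow, hz, map_neg, map_one]
  have hziq : ∀ (B : Type) [CommRing B] [Algebra k B], algebraMap k B z⁻¹ ^ (q + 1) = -1 := by
    intro B _ _
    have h1 : (algebraMap k B z * algebraMap k B z⁻¹) ^ (q + 1) = 1 := by rw [hzi, one_pow]
    rw [mul_pow, hzq] at h1
    linear_combination -h1
  have hpow : ∀ (B : Type) [CommRing B] [Algebra k B] (w : B),
      (1 + w) ^ (q + 1) - w ^ (q + 1) = 1 + w + w ^ q := by
    intro B _ _ w
    rw [pow_succ, h.add_pow, one_pow]
    ring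
  -- the section
  let sval : Fin (j + r) → MvPolynomial (Fin (2 * j + 2 + r)) k := fun b =>
    if h1 : (b : ℕ) < j then MvPolynomial.X ⟨2 * b + 1, by omega⟩
    else MvPolynomial.X ⟨b + (j + 2), by omega⟩
  have sval_a : ∀ a (ha : a < j), sval ⟨a, by omega⟩ = MvPolynomial.X ⟨2 * a + 1, by omega⟩ := by
    intro a ha
    simp only [sval]
    rw [dif_pos ha]
  have sval_b : ∀ b (hb : b < r), sval ⟨j + b, by omega⟩ =
      MvPolynomial.X ⟨2 * j + 2 + b, by omega⟩ := by
    intro b hb
    have e : j + b + (j + 2) = 2 * j + 2 + b := by omega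
    simp only [sval]
    rw [dif_neg (by omega)]
    congr 1
    exact Fin.ext e
  have hcase : ∀ b : Fin (j + r), (∃ (a : ℕ) (ha : a < j), b = ⟨a, by omega⟩) ∨
      ∃ (c : ℕ) (hc : c < r), b = ⟨j + c, by omega⟩ := by
    intro b
    by_cases hb : (b : ℕ) < j
    · exact Or.inl ⟨b, hb, rfl⟩
    · exact Or.inr ⟨b - j, by omega, Fin.ext (by simp only []; omega)⟩
  let σ : MvPolynomial (Fin 1 ⊕ Fin (j + r)) k →ₐ[k] MvPolynomial (Fin (2 * j + 2 + r)) k :=
    MvPolynomial.aeval (Sum.elim
      (fun _ => MvPolynomial.C z * MvPolynomial.X ⟨2 * j + 1, by omega⟩) sval)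
  have σy : ∀ i, σ (MvPolynomial.X (Sum.inl i)) =
      MvPolynomial.C z * MvPolynomial.X ⟨2 * j + 1, by omega⟩ := by
    intro i
    change MvPolynomial.aeval _ _ = _
    rw [MvPolynomial.aeval_X, Sum.elim_inl]
  have σx : ∀ b, σ (MvPolynomial.X (Sum.inr b)) = sval b := by
    intro b
    change MvPolynomial.aeval _ _ = _
    rw [MvPolynomial.aeval_X, Sum.elim_inr]
  have hθσ : ∀ g, θ (σ g) = Ideal.Quotient.mk _ g := by
    have h1 : θ.comp σ = Ideal.Quotient.mkₐ k _ := by
      apply MvPolynomial.algHom_ext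
      rintro (i | b)
      · obtain rfl : i = 0 := Subsingleton.elim _ _
        rw [AlgHom.comp_apply, σy, map_mul, θC, θX, val_j1, ← mul_assoc, hzi, one_mul]
        rfl
      · rw [AlgHom.comp_apply, σx]
        rcases hcase b with ⟨a, ha, rfl⟩ | ⟨c, hc, rfl⟩
        · rw [sval_a a ha, θX, val_odd a ha]
          rfl
        · rw [sval_b c hc, θX, val_r c hc]
          rfl
    exact fun g => DFunLike.congr_fun h1 g
  have hEf : ∀ (a : ℕ) (ha : a ≤ j), Ef (2 * j + 2 + r) z a (by omega) =
      MvPolynomial.X ⟨2 * a, by omega⟩ - MvPolynomial.C z * MvPolynomial.X ⟨2 * a + 1, by omega⟩ := by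
    intro a ha
    unfold Ef
    rw [dif_pos (by omega)]
  have hff : ∀ {B : Type} [CommRing B] [Algebra k B] (ξ : Fin (j + r) → B),
      MvPolynomial.aeval ξ f = -1 - ∑ b : Fin r, ξ (Fin.natAdd j b) ^ (q + 1) := by
    intro B _ _ ξ
    rw [hf]
    unfold ff
    rw [map_sub, map_neg, map_one, map_sum]
    congr 1
    refine Finset.sum_congr rfl fun b _ => ?_
    rw [map_pow, MvPolynomial.aeval_X]
  refine ⟨VV h f, inferInstance, inferInstance, θ,
    ⟨1, j + r, fun _ => Htr h, fun _ => f, fun _ => ff_supp h j r, ⟨AlgEquiv.refl⟩⟩, V_red h f h3,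
    fun v => ?_, ?_, ?_, ?_, ?_⟩
  · obtain ⟨g, rfl⟩ := Ideal.Quotient.mk_surjective v
    exact ⟨σ g, hθσ g⟩
  · rw [hEf j le_rfl, map_sub, map_mul, θC, θX, θX, val_j, val_j1, ← mul_assoc, hzi, one_mul]
    ring
  · rw [map_sum]
    have h1 : ∀ i, θ (MvPolynomial.X i ^ (q + 1)) = val i ^ (q + 1) := fun i => by
      rw [map_pow, θX]
    rw [Finset.sum_congr rfl fun i _ => h1 i, sum_split j r (fun i => val i ^ (q + 1))]
    · have h2 := V_rel h f
      rw [hff] at h2
      have h4 : ∑ b : Fin r, val ⟨2 * j + 2 + b, by omega⟩ ^ (q + 1) =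
          ∑ b : Fin r, vx h f (Fin.natAdd j b) ^ (q + 1) :=
        Finset.sum_congr rfl fun b _ => by rw [val_r b b.2]; rfl
      rw [h4, val_j, val_j1, mul_pow, hziq]
      have h5 := hpow (VV h f) y
      linear_combination h5 + h2
    · intro a ha
      rw [val_even a ha, val_odd a ha, mul_pow, hzq]
      ring
  · intro a ha
    rw [hEf a ha.le, map_sub, map_mul, θC, θX, θX, val_even a ha, val_odd a ha, sub_self]
  · -- the kernel
    set I : Ideal (MvPolynomial (Fin (2 * j + 2 + r)) k) := Ideal.span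
        ({Ef (2 * j + 2 + r) z j (by omega) - 1, ∑ i, MvPolynomial.X i ^ (q + 1)} ∪
          Set.range fun a : Fin j => Ef (2 * j + 2 + r) z a (by omega)) with hI
    let π := Ideal.Quotient.mkₐ k I
    have hπ : ∀ g ∈ I, π g = 0 := fun g hg => Ideal.Quotient.eq_zero_iff_mem.mpr hg
    have πC : ∀ c, π (MvPolynomial.C c) = algebraMap k _ c := fun c => rfl
    have e1 : π (MvPolynomial.X ⟨2 * j, by omega⟩) =
        1 + algebraMap k _ z * π (MvPolynomial.X ⟨2 * j + 1, by omega⟩) := by
      have h1 := hπ _ (Ideal.subset_span (Or.inl (Or.inl rfl)))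
      rw [hEf j le_rfl, map_sub, map_sub, map_mul, map_one, πC] at h1
      linear_combination h1
    have e2 : ∀ a (ha : a < j), π (MvPolynomial.X ⟨2 * a, by omega⟩) =
        algebraMap k _ z * π (MvPolynomial.X ⟨2 * a + 1, by omega⟩) := by
      intro a ha
      have h1 : π (Ef (2 * j + 2 + r) z a (by omega)) = 0 :=
        hπ _ (Ideal.subset_span (Or.inr ⟨⟨a, ha⟩, rfl⟩))
      rw [hEf a ha.le, map_sub, map_mul, πC] at h1
      linear_combination h1
    have e3 : ∑ i, π (MvPolynomial.X i) ^ (q + 1) = 0 := by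
      have h1 := hπ _ (Ideal.subset_span (Or.inl (Or.inr rfl)))
      rw [map_sum] at h1
      rw [← h1]
      exact Finset.sum_congr rfl fun i _ => (map_pow _ _ _).symm
    rw [sum_split j r (fun i => π (MvPolynomial.X i) ^ (q + 1)) (fun a ha => by
      rw [e2 a ha, mul_pow, hzq]
      ring)] at e3
    obtain ⟨ψ, hψ⟩ := V_lift h f (π.comp σ) (by
      rw [hff]
      have h4 : ∑ b : Fin r, (π.comp σ) (MvPolynomial.X (Sum.inr (Fin.natAdd j b))) ^ (q + 1) =
          ∑ b : Fin r, π (MvPolynomial.X ⟨2 * j + 2 + b, by omega⟩) ^ (q + 1) :=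
        Finset.sum_congr rfl fun b _ => by
          rw [AlgHom.comp_apply, σx]
          congr 2
          exact sval_b b b.2
      rw [h4, AlgHom.comp_apply, σy, map_mul, πC]
      rw [e1] at e3
      have h5 := hpow _ (algebraMap k _ z * π (MvPolynomial.X ⟨2 * j + 1, by omega⟩))
      have h6 : (algebraMap k (MvPolynomial (Fin (2 * j + 2 + r)) k ⧸ I) z *
          π (MvPolynomial.X ⟨2 * j + 1, by omega⟩)) ^ (q + 1) =
          -π (MvPolynomial.X ⟨2 * j + 1, by omega⟩) ^ (q + 1) := by
        rw [mul_pow, hzq]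
        ring
      linear_combination e3 - h5 - h6)
    have hψθ : ψ.comp θ = π := by
      apply MvPolynomial.algHom_ext
      intro i
      rw [AlgHom.comp_apply, θX]
      have ψy : ψ y = algebraMap k _ z * π (MvPolynomial.X ⟨2 * j + 1, by omega⟩) := by
        have h1 := hψ (MvPolynomial.X (Sum.inl 0))
        rw [AlgHom.comp_apply, σy, map_mul, πC] at h1
        exact h1
      have ψx : ∀ b, ψ (x b) = π (sval b) := by
        intro b
        have h1 := hψ (MvPolynomial.X (Sum.inr b))
        rw [AlgHom.comp_apply, σx] at h1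
        exact h1
      by_cases hi : (i : ℕ) < 2 * j
      · rcases Nat.mod_two_eq_zero_or_one (i : ℕ) with hm | hm
        · obtain ⟨a, hia⟩ : ∃ a, (i : ℕ) = 2 * a := ⟨i / 2, by omega⟩
          have ha : a < j := by omega
          have ei : i = ⟨2 * a, by omega⟩ := Fin.ext hia
          rw [ei]
          rw [val_even _ ha, map_mul, AlgHom.commutes, ψx, sval_a _ ha, e2 _ ha]
        · obtain ⟨a, hia⟩ : ∃ a, (i : ℕ) = 2 * a + 1 := ⟨i / 2, by omega⟩
          have ha : a < j := by omega
          have ei : i = ⟨2 * a + 1, by omega⟩ := Fin.ext hia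
          rw [ei]
          rw [val_odd _ ha, ψx, sval_a _ ha]
      · by_cases hi2 : (i : ℕ) = 2 * j
        · have ei : i = ⟨2 * j, by omega⟩ := Fin.ext hi2
          rw [ei, val_j, map_add, map_one, ψy, e1]
        · by_cases hi3 : (i : ℕ) = 2 * j + 1
          · have ei : i = ⟨2 * j + 1, by omega⟩ := Fin.ext hi3
            rw [ei, val_j1, map_mul, AlgHom.commutes, ψy, ← mul_assoc, mul_comm (algebraMap k _ z⁻¹),
              hzi, one_mul]
          · obtain ⟨b, hib⟩ : ∃ b, (i : ℕ) = 2 * j + 2 + b := ⟨i - (2 * j + 2), by omega⟩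
            have hb : b < r := by omega
            have ei : i = ⟨2 * j + 2 + b, by omega⟩ := Fin.ext hib
            rw [ei]
            rw [val_r _ hb, ψx, sval_b _ hb]
    intro g hg
    have h1 : θ g = 0 := hg
    have h2 : π g = 0 := by
      rw [← hψθ, AlgHom.comp_apply, h1, map_zero]
    exact Ideal.Quotient.eq_zero_iff_mem.mp h2

end chart

end Q3d

/-- **Q3d**: the charts of the first kind of the Fermat hypersurface. -/
theorem thm_Q3d (h3 : St_Q3c) : St_Q3d := by
  intro p m q t k _ _ _ h n z hz j hj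
  obtain ⟨r, rfl⟩ : ∃ r, n = 2 * j + 2 + r := ⟨n - (2 * j + 2), by omega⟩
  exact Q3d.chart h3 h j r z hz

end Pool.Agent.KSS
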