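import Pool.Agent.KSS.InstSt

/-!
# KSS, module Q3e: charts of the second kind
-/

set_option autoImplicit false

noncomputable section

namespace Pool.Agent.KSS

open CategoryTheory AlgebraicGeometry TopologicalSpace Function

/-- a polynomial ring is additive-quadratic -/
theorem Q3e_aq (p : ℕ) (k : Type) [Field k] (N : ℕ) : IsAQk p k (MvPolynomial (Fin N) k) := by
  refine ⟨0, N, Fin.elim0, Fin.elim0, fun i => i.elim0, ⟨?_⟩⟩
  have h : (⊥ : Ideal (MvPolynomial (Fin 0 ⊕ Fin N) k)) =
      Ideal.span (Set.range fun i : Fin 0 =>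
        (∏ᶠ a : (Fin.elim0 i : AddSubgroup k), (MvPolynomial.X (Sum.inl i) -
          MvPolynomial.C (a : k))) - MvPolynomial.rename Sum.inr
            (Fin.elim0 i : MvPolynomial (Fin N) k)) := by
    rw [Set.range_eq_empty, Ideal.span_empty]
  exact ((MvPolynomial.renameEquiv k (Equiv.emptySum (Fin 0) (Fin N)).symm).trans
    (AlgEquiv.quotientBot k (MvPolynomial (Fin 0 ⊕ Fin N) k)).symm).trans
    (Ideal.quotientEquivAlgOfEq k h)

/-- the values of the odd variables -/
def Q3e_h (k : Type) [Field k] (n j : ℕ) (a : ℕ) : MvPolynomial (Fin (n / 2 - (j + 1))) k :=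
  if a < j then 0 else if a = j then 1 else
    if h : a - (j + 1) < n / 2 - (j + 1) then MvPolynomial.X ⟨a - (j + 1), h⟩ else 0

/-- the values of all variables -/
def Q3e_G (k : Type) [Field k] (n j : ℕ) (z : k) (i : ℕ) :
    MvPolynomial (Fin (n / 2 - (j + 1))) k :=
  if i % 2 = 0 then MvPolynomial.C z * Q3e_h k n j (i / 2) else Q3e_h k n j (i / 2)

theorem Q3e_G_even (k : Type) [Field k] (n j : ℕ) (z : k) (a : ℕ) :
    Q3e_G k n j z (2 * a) = MvPolynomial.C z * Q3e_h k n j a := by
  unfold Q3e_G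
  rw [if_pos (by omega), show 2 * a / 2 = a by omega]

theorem Q3e_G_odd (k : Type) [Field k] (n j : ℕ) (z : k) (a : ℕ) :
    Q3e_G k n j z (2 * a + 1) = Q3e_h k n j a := by
  unfold Q3e_G
  rw [if_neg (by omega), show (2 * a + 1) / 2 = a by omega]

theorem Q3e_h_zero (k : Type) [Field k] (n j : ℕ) (hj : 2 * j + 1 < n) (a : ℕ)
    (ha : n ≤ 2 * a + 1) : Q3e_h k n j a = 0 := by
  unfold Q3e_h
  rw [if_neg (by omega), if_neg (by omega), dif_neg (by omega)]

theorem Q3e_sum {R : Type} [CommRing R] (F : ℕ → R) (m : ℕ) :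
    ∑ i ∈ Finset.range (2 * m), F i = ∑ a ∈ Finset.range m, (F (2 * a) + F (2 * a + 1)) := by
  induction m with
  | zero => simp
  | succ m ih =>
    rw [Finset.sum_range_succ, ← ih, show 2 * (m + 1) = 2 * m + 1 + 1 by ring,
      Finset.sum_range_succ, Finset.sum_range_succ]
    ring

theorem thm_Q3e : St_Q3e := by
  intro p k _ q n z hz j hj
  set N : ℕ := n / 2 - (j + 1) with hN
  let θ : MvPolynomial (Fin n) k →ₐ[k] MvPolynomial (Fin N) k :=
    MvPolynomial.aeval fun i => Q3e_G k n j z i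
  let σ : MvPolynomial (Fin N) k →ₐ[k] MvPolynomial (Fin n) k :=
    MvPolynomial.aeval fun b => MvPolynomial.X ⟨2 * (j + 1 + b) + 1, by have := b.2; omega⟩
  have hθX : ∀ i : Fin n, θ (MvPolynomial.X i) = Q3e_G k n j z i := fun i =>
    MvPolynomial.aeval_X _ _
  have hσX : ∀ b : Fin N, σ (MvPolynomial.X b) =
      MvPolynomial.X ⟨2 * (j + 1 + b) + 1, by have := b.2; omega⟩ := fun b =>
    MvPolynomial.aeval_X _ _
  have hhX : ∀ b : Fin N, Q3e_h k n j (j + 1 + b) = MvPolynomial.X b := by
    intro b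
    have hb := b.2
    unfold Q3e_h
    rw [if_neg (by omega), if_neg (by omega), dif_pos (by omega)]
    congr 1
    ext
    show j + 1 + (b : ℕ) - (j + 1) = b
    omega
  have hθσ : θ.comp σ = AlgHom.id k _ := by
    refine MvPolynomial.algHom_ext fun b => ?_
    rw [AlgHom.comp_apply, hσX, hθX]
    show Q3e_G k n j z (2 * (j + 1 + b) + 1) = _
    rw [Q3e_G_odd, hhX]
    rfl
  have hpow : ∀ a, (Q3e_G k n j z (2 * a)) ^ (q + 1) + (Q3e_G k n j z (2 * a + 1)) ^ (q + 1) =
      0 := by
    intro a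
    rw [Q3e_G_even, Q3e_G_odd, mul_pow, ← map_pow, hz, map_neg, map_one]
    ring
  refine ⟨MvPolynomial (Fin N) k, inferInstance, inferInstance, θ, Q3e_aq p k N, inferInstance,
    ?_, ?_, ?_, ?_, ?_, ?_⟩
  · intro w
    exact ⟨σ w, DFunLike.congr_fun hθσ w⟩
  · rw [hθX]
    show Q3e_G k n j z (2 * j + 1) = 1
    rw [Q3e_G_odd]
    unfold Q3e_h
    rw [if_neg (by omega), if_pos rfl]
  · rw [map_sum]
    simp only [map_pow, hθX]
    rw [Fin.sum_univ_eq_sum_range (fun i => Q3e_G k n j z i ^ (q + 1)) n]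
    rcases Nat.even_or_odd' n with ⟨m, hm | hm⟩
    · have h2 : Finset.range n = Finset.range (2 * m) := by rw [hm]
      rw [h2, Q3e_sum]
      exact Finset.sum_eq_zero fun a _ => hpow a
    · have h1 : Q3e_G k n j z (2 * m) = 0 := by
        rw [Q3e_G_even, Q3e_h_zero k n j hj m (by omega), mul_zero]
      have h2 : Finset.range n = Finset.range (2 * m + 1) := by rw [hm]
      rw [h2, Finset.sum_range_succ, Q3e_sum, h1, zero_pow (by omega), add_zero]
      exact Finset.sum_eq_zero fun a _ => hpow a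
  · intro a ha
    unfold Ef
    split_ifs with h1
    · rw [map_sub, map_mul, hθX, hθX]
      show Q3e_G k n j z (2 * a) - θ (MvPolynomial.C z) * Q3e_G k n j z (2 * a + 1) = 0
      have h2 : θ (MvPolynomial.C z) = MvPolynomial.C z := θ.commutes z
      rw [Q3e_G_even, Q3e_G_odd, h2, sub_self]
    · rw [hθX]
      show Q3e_G k n j z (2 * a) = 0
      rw [Q3e_G_even, Q3e_h_zero k n j hj a (by omega), mul_zero]
  · intro a ha
    rw [hθX]
    show Q3e_G k n j z (2 * a + 1) = 0
    rw [Q3e_G_odd]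
    unfold Q3e_h
    rw [if_pos ha]
  · set J : Ideal (MvPolynomial (Fin n) k) := Ideal.span
        ({MvPolynomial.X ⟨2 * j + 1, hj⟩ - 1} ∪
          {f | ∃ (a : ℕ) (ha : 2 * a < n), f = Ef n z a ha} ∪
          Set.range fun a : Fin j => MvPolynomial.X (⟨2 * a + 1, by omega⟩ : Fin n)) with hJ
    have hodd : ∀ (a : ℕ) (ha : 2 * a + 1 < n),
        (Ideal.Quotient.mkₐ k J) (MvPolynomial.X ⟨2 * a + 1, ha⟩) =
          (Ideal.Quotient.mkₐ k J) (σ (Q3e_h k n j a)) := by
      intro a ha
      rcases lt_trichotomy a j with h | h | h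
      · have h1 : Q3e_h k n j a = 0 := by
          unfold Q3e_h
          rw [if_pos h]
        rw [h1, map_zero, map_zero]
        refine Ideal.Quotient.eq_zero_iff_mem.mpr (Ideal.subset_span (Or.inr ⟨⟨a, h⟩, rfl⟩))
      · subst h
        have h1 : Q3e_h k n a a = 1 := by
          unfold Q3e_h
          rw [if_neg (by omega), if_pos rfl]
        rw [h1, map_one]
        refine Ideal.Quotient.eq.mpr (Ideal.subset_span (Or.inl (Or.inl rfl)))
      · have h1 : Q3e_h k n j a = MvPolynomial.X ⟨a - (j + 1), by omega⟩ := by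
          unfold Q3e_h
          rw [if_neg (by omega), if_neg (by omega), dif_pos (by omega)]
        rw [h1, hσX]
        congr 2
        ext
        show 2 * a + 1 = 2 * (j + 1 + (a - (j + 1))) + 1
        omega
    have hall : (Ideal.Quotient.mkₐ k J).comp (σ.comp θ) = Ideal.Quotient.mkₐ k J := by
      refine MvPolynomial.algHom_ext fun i => ?_
      rw [AlgHom.comp_apply, AlgHom.comp_apply, hθX]
      obtain ⟨i, hi⟩ := i
      rcases Nat.even_or_odd' i with ⟨a, ha | ha⟩
      · subst ha
        show (Ideal.Quotient.mkₐ k J) (σ (Q3e_G k n j z (2 * a))) = _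
        rw [Q3e_G_even, map_mul, map_mul]
        have h2 : σ (MvPolynomial.C z) = MvPolynomial.C z := σ.commutes z
        have hE : Ef n z a hi ∈ J := Ideal.subset_span (Or.inl (Or.inr ⟨a, hi, rfl⟩))
        rw [h2]
        by_cases h1 : 2 * a + 1 < n
        · rw [← hodd a h1, ← map_mul]
          symm
          refine Ideal.Quotient.eq.mpr ?_
          unfold Ef at hE
          rw [dif_pos h1] at hE
          exact hE
        · rw [Q3e_h_zero k n j hj a (by omega), map_zero, map_zero, mul_zero]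
          symm
          refine Ideal.Quotient.eq_zero_iff_mem.mpr ?_
          unfold Ef at hE
          rw [dif_neg h1] at hE
          exact hE
      · subst ha
        show (Ideal.Quotient.mkₐ k J) (σ (Q3e_G k n j z (2 * a + 1))) = _
        rw [Q3e_G_odd, hodd a hi]
    intro f hf
    have hf' : θ f = 0 := hf
    have h1 := DFunLike.congr_fun hall f
    rw [AlgHom.comp_apply, AlgHom.comp_apply, hf', map_zero, map_zero] at h1
    exact Ideal.Quotient.eq_zero_iff_mem.mp h1.symm

end Pool.Agent.KSS
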