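import Pool.Agent.KSS.InstSt

/-!
# KSS, module Q3f: one step of the filtration of a closed subscheme of projective space
-/

set_option autoImplicit false

noncomputable section

namespace Pool.Agent.KSS

open CategoryTheory AlgebraicGeometry TopologicalSpace Function

attribute [local instance] MvPolynomial.gradedAlgebra

theorem q3f_closed {k : Type} [Field k] {n : ℕ} (F : MvPolynomial (Fin n) k) :
    IsClosed (ZL F) := by
  have h : ZL F = ProjectiveSpectrum.zeroLocus
      (MvPolynomial.homogeneousSubmodule (Fin n) k) {F} := by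
    refine Set.ext fun x => ?_
    exact (Set.singleton_subset_iff (a := F)
      (s := (x.asHomogeneousIdeal : Set (MvPolynomial (Fin n) k)))).symm
  rw [h]
  exact ProjectiveSpectrum.isClosed_zeroLocus _ _

theorem q3f_closedS {k : Type} [Field k] {n : ℕ} (S : Set (MvPolynomial (Fin n) k)) :
    IsClosed {x : PP k n | ∀ f ∈ S, x ∈ ZL f} := by
  have h : {x : PP k n | ∀ f ∈ S, x ∈ ZL f} = ⋂ f ∈ S, ZL f := by
    ext x
    simp
  rw [h]
  exact isClosed_biInter fun f _ => q3f_closed f

theorem thm_Q3f (ha : St_Q3a) (hb : St_Q3b) (hg : St_Q3g) : St_Q3f := by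
  intro p k _ n Z i _ V _ _ _ θ S M hV hθ hM hS hθM hθS hker hrange hT
  obtain ⟨hU, c, hc, hcπ, -, hcr⟩ := ha k n M
    ((MvPolynomial.mem_homogeneousSubmodule _ _).2 hM) V θ hθ hθM
  have hr : ∀ x : PP k n, x ∈ Set.range (c ≫ Scheme.Opens.ι _) ↔
      (∀ f ∈ S, x ∈ ZL f) ∧ x ∉ ZL M := by
    intro x
    rw [hcr]
    constructor
    · rintro ⟨h1, h2⟩
      refine ⟨fun f hf => ?_, h1⟩
      obtain ⟨d, hd⟩ := hS f hf
      exact h2 d f hd (hθS f hf)
    · rintro ⟨h1, h2⟩
      refine ⟨h2, fun d a hd h0 => ?_⟩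
      have h3 : a ∈ Ideal.span ({M - 1} ∪ S) := hker h0
      obtain ⟨e, he⟩ := hg k n S hS M a d hM hd h3
      have h4 : Ideal.span S ≤ x.asHomogeneousIdeal.toIdeal := by
        rw [Ideal.span_le]
        exact fun f hf => h1 f hf
      have hp : x.asHomogeneousIdeal.toIdeal.IsPrime := x.isPrime
      rcases hp.mem_or_mem (h4 he) with h5 | h5
      · exact (h2 (hp.mem_of_pow_mem e h5)).elim
      · exact h5
  have hsub : Set.range (c ≫ Scheme.Opens.ι _) ⊆ Set.range i := by
    intro x hx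
    obtain ⟨h1, h2⟩ := (hr x).1 hx
    exact hrange x h1 h2
  obtain ⟨c', hc', hcc, hcr'⟩ := hb (PP k n) Z i _ V c hsub
  have hcont : Continuous i := i.continuous
  refine AQFilK.step _ _ ?_ ?_ _ (hU.preimage i) V hV c' ?_ ?_ ?_ ?_ hT
  · exact ((q3f_closedS S).preimage hcont).inter ((q3f_closed M).preimage hcont)
  · exact (q3f_closedS S).preimage hcont
  · rw [← hcπ, ← Category.assoc, ← Category.assoc, Category.assoc c', hcc, Category.assoc]
  · exact fun y hy => hy.1
  · ext y
    simp only [Set.mem_inter_iff, Set.mem_ofPred_eq, Set.mem_empty_iff_false, iff_false, not_and]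
    intro hy hyU
    exact hyU hy.2
  · ext y
    rw [hcr', hr]
    constructor
    · rintro ⟨h1, h2⟩
      exact ⟨h1, fun h => h2 ⟨h1, h⟩⟩
    · rintro ⟨h1, h2⟩
      exact ⟨h1, fun h => h2 h.2⟩

end Pool.Agent.KSS
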