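import Pool.Agent.KSS.InstSt

/-!
# KSS, module Q3g: homogeneous elements of `I + (M - 1)`
-/

set_option autoImplicit false

noncomputable section

namespace Pool.Agent.KSS

open MvPolynomial

theorem q3g_aeval {k : Type} [Field k] {n : ℕ} {L : Type} [CommRing L] [Algebra k L]
    (c : L) (u : Fin n → L) (f : MvPolynomial (Fin n) k) (d : ℕ) (hf : f.IsHomogeneous d) :
    aeval (fun i => c * u i) f = c ^ d * aeval u f := by
  rw [aeval_def, aeval_def, eval₂_eq, eval₂_eq, Finset.mul_sum]
  refine Finset.sum_congr rfl fun m hm => ?_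
  have hd : ∑ i ∈ m.support, m i = d := by
    have h1 := hf (mem_support_iff.1 hm)
    rw [Finsupp.weight_apply, Finsupp.sum] at h1
    simpa using h1
  rw [← hd, ← Finset.prod_pow_eq_pow_sum, mul_left_comm, ← Finset.prod_mul_distrib]
  congr 1
  refine Finset.prod_congr rfl fun i _ => ?_
  rw [mul_pow]

theorem thm_Q3g : St_Q3g := by
  intro k _ n S hS M a d hM ha h
  let R := MvPolynomial (Fin n) k ⧸ Ideal.span S
  let φ : MvPolynomial (Fin n) k →ₐ[k] R := Ideal.Quotient.mkₐ k (Ideal.span S)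
  let L := Localization.Away (φ M)
  let ψ : R →ₐ[k] L := IsScalarTower.toAlgHom k R L
  obtain ⟨c, hc⟩ := IsLocalization.Away.algebraMap_isUnit (S := L) (φ M)
  let u : Fin n → L := fun i => ψ (φ (X i))
  let η : MvPolynomial (Fin n) k →ₐ[k] L := aeval fun i => (↑c⁻¹ : L) * u i
  have hu : ∀ f, aeval u f = ψ (φ f) := by
    intro f
    have h1 : aeval u = ψ.comp φ := by
      ext i
      simp [u]
    rw [h1]
    rfl
  have hη : ∀ (f : MvPolynomial (Fin n) k) (e : ℕ), f.IsHomogeneous e →
      η f = (↑c⁻¹ : L) ^ e * ψ (φ f) := by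
    intro f e hf
    rw [← hu]
    exact q3g_aeval _ _ f e hf
  have h0 : η a = 0 := by
    have h1 : Ideal.span ({M - 1} ∪ S) ≤ RingHom.ker η.toRingHom := by
      rw [Ideal.span_le]
      rintro f (rfl | hf)
      · show η (M - 1) = 0
        rw [map_sub, map_one, hη M 1 hM, pow_one]
        have h2 : ψ (φ M) = c := hc.symm
        rw [h2, Units.inv_mul, sub_self]
      · show η f = 0
        obtain ⟨e, he⟩ := hS f hf
        rw [hη f e he]
        have h2 : φ f = 0 := Ideal.Quotient.eq_zero_iff_mem.2 (Ideal.subset_span hf)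
        rw [h2, map_zero, mul_zero]
    exact h1 h
  rw [hη a d ha] at h0
  have h1 : ψ (φ a) = 0 := by
    have h2 := congrArg (fun y => (c : L) ^ d * y) h0
    simp only [mul_zero] at h2
    rwa [← mul_assoc, ← mul_pow, Units.mul_inv, one_pow, one_mul] at h2
  obtain ⟨⟨_, e, rfl⟩, he⟩ := (IsLocalization.map_eq_zero_iff (Submonoid.powers (φ M)) L _).1 h1
  refine ⟨e, ?_⟩
  rw [← Ideal.Quotient.eq_zero_iff_mem, map_mul, map_pow]
  exact he

end Pool.Agent.KSS
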