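import Pool.Agent.KSS.St
import Pool.Agent.AQS.All

/-!
# KSS, module R5: additive-quadratic rings are good, closed subschemes of affine open subschemes
-/

set_option autoImplicit false

noncomputable section

namespace Pool.Agent.KSS

open CategoryTheory AlgebraicGeometry TopologicalSpace Function Pool.Agent.Helper11

theorem thm_R5 : St_R5 := by
  refine ⟨?_, ?_⟩
  · intro p _ V _ hV
    obtain ⟨k, _, _, _, s, n, H, f, hf, ⟨e⟩⟩ := hV
    exact Pool.Agent.HPow.GoodP.of_equiv e.symm (Pool.Agent.AQS.all_Fin p k s n H f hf)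
  · intro Y U hU V i _ O hO
    haveI : IsAffine U.toScheme := hU
    have hs := (IsClosedImmersion.isAffine_surjective_of_isAffine i).2
    refine ⟨((Scheme.ΓSpecIso V).hom.hom).comp (i.appTop.hom.comp U.topIso.inv.hom), ?_, ?_⟩
    · have h1 : Surjective (Scheme.ΓSpecIso V).hom.hom :=
        (ConcreteCategory.bijective_of_isIso (Scheme.ΓSpecIso V).hom).2
      have h2 : Surjective U.topIso.inv.hom :=
        (ConcreteCategory.bijective_of_isIso U.topIso.inv).2
      have h3 : Surjective i.appTop.hom := hs
      intro v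
      obtain ⟨a, ha⟩ := h1 v
      obtain ⟨b, hb⟩ := h3 a
      obtain ⟨c, hc⟩ := h2 b
      refine ⟨c, ?_⟩
      show (Scheme.ΓSpecIso V).hom.hom (i.appTop.hom (U.topIso.inv.hom c)) = v
      rw [hc, hb, ha]
    · intro r
      have hD : Y.basicOpen r ≤ U := Y.basicOpen_le r
      -- points
      have hx : ∀ x : Spec V, (i ≫ U.ι) x ∈ Y.basicOpen r ↔
          x ∈ PrimeSpectrum.basicOpen ((Scheme.ΓSpecIso V).hom (i.appTop (U.topIso.inv r))) := by
        intro x
        rw [← basicOpen_eq_of_affine', ← Scheme.preimage_basicOpen_top]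
        have h1 : (i ≫ U.ι) x = U.ι (i x) := Scheme.Hom.comp_apply i U.ι x
        rw [h1, ← Scheme.Opens.ι_image_basicOpen_topIso_inv]
        constructor
        · rintro ⟨y, hy, hyx⟩
          have h2 : y = i x := U.ι.isOpenEmbedding.injective hyx
          subst h2
          exact hy
        · intro h
          exact ⟨i x, h, rfl⟩
      have h3 : Y.basicOpen r ≤ O ↔ ∀ x : Spec V, (i ≫ U.ι) x ∉ Y.basicOpen r := by
        constructor
        · intro h x hxr
          have h4 : (i ≫ U.ι) x ∈ ((O : Set Y)ᶜ ∩ U : Set Y) := by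
            rw [hO]
            exact ⟨x, rfl⟩
          exact h4.1 (h hxr)
        · intro h y hy
          by_contra hyO
          have h4 : y ∈ ((O : Set Y)ᶜ ∩ U : Set Y) := ⟨hyO, hD hy⟩
          rw [hO] at h4
          obtain ⟨x, rfl⟩ := h4
          exact h x hy
      rw [h3]
      have h5 : IsNilpotent ((Scheme.ΓSpecIso V).hom (i.appTop (U.topIso.inv r))) ↔
          ∀ x : Spec V,
            x ∉ PrimeSpectrum.basicOpen ((Scheme.ΓSpecIso V).hom (i.appTop (U.topIso.inv r))) := by
        rw [← PrimeSpectrum.basicOpen_eq_bot_iff]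
        constructor
        · intro h x hx'
          rw [h] at hx'
          exact hx'
        · intro h
          rw [eq_bot_iff]
          intro x hx'
          exact (h x hx').elim
      refine Iff.trans ?_ h5.symm
      exact forall_congr' fun x => not_congr (hx x)

end Pool.Agent.KSS
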