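import Pool.Agent.KSS.SrcThm

/-!
# Finite generation of `K'₀(X)[1/(p N)]`, with an explicit `N`, for schemes `X` dominated by products
of Fermat-Hermitian hypersurfaces and of other schemes filtered by additive-quadratic varieties
-/

namespace Pool.Agent.KSS.RetiredSupersingularK0

open Pool.Agent.KSS CategoryTheory AlgebraicGeometry

/-- Let `X` be a separated scheme of finite type over `𝔽_p` and `f_j : Y_j → X` finitely many finite
morphisms, where `Y_j` belongs to the class `Src` over a finite field `k_j` of characteristic `p`.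
Suppose that for each point `x` of `X` the greatest common divisor of the degrees `[κ(y) : κ(x)]`,
`y` a point of some `Y_j` over `x`, divides `N`. Then there are a finitely generated subgroup `G` of
`K'₀(X)` and `e` with `(p N) ^ e K'₀(X) ⊆ G`; in particular `K'₀(X)[1/(p N)]` is a finitely generated
`ℤ[1/(p N)]`-module, and `K'₀(X)/l` is finite for every prime `l` not dividing `p N`. -/
theorem result {p : ℕ} [Fact p.Prime] {X : Scheme.{0}}
    (π : X ⟶ Spec (CommRingCat.of (ZMod p))) [IsSeparated π] [LocallyOfFiniteType π]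
    [QuasiCompact π] {J : Type} [Finite J] (k : J → Type) [∀ j, Field (k j)] [∀ j, Finite (k j)]
    [∀ j, CharP (k j) p] (Y : J → Scheme.{0}) (σ : ∀ j, Y j ⟶ Spec (CommRingCat.of (k j)))
    (hY : ∀ j, Src p (k j) (Y j) (σ j)) (f : ∀ j, Y j ⟶ X) [∀ j, IsFinite (f j)] (N : ℕ)
    (hN : ∀ x : X, ∀ d : ℕ, (∀ j, ∀ y : Y j, f j y = x → d ∣ resDeg (f j) y) → d ∣ N) :
    ∃ G : AddSubgroup (K0 X), G.FG ∧ ∃ e : ℕ, ∀ x : K0 X, (p * N) ^ e • x ∈ G :=
  all_Src π k Y σ hY f N hN

end Pool.Agent.KSS.RetiredSupersingularK0
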