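import Pool.Agent.KSS.All
import Pool.Agent.KSS.Q0
import Pool.Agent.KSS.Q1a
import Pool.Agent.KSS.Q1b
import Pool.Agent.KSS.Q1
import Pool.Agent.KSS.Q3a
import Pool.Agent.KSS.Q3b
import Pool.Agent.KSS.Q3c
import Pool.Agent.KSS.Q3d
import Pool.Agent.KSS.Q3e
import Pool.Agent.KSS.Q3f
import Pool.Agent.KSS.Q3g
import Pool.Agent.KSS.Q3

/-!
# KSS: the theorem for schemes dominated by members of the class `Src`
-/

set_option autoImplicit false

namespace Pool.Agent.KSS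

open CategoryTheory AlgebraicGeometry

theorem all_Q1 : St_Q1 := thm_Q1 thm_Q1a thm_Q1b

theorem all_Q3f : St_Q3f := thm_Q3f thm_Q3a thm_Q3b thm_Q3g

theorem all_Q3 : St_Q3 := thm_Q3 (thm_Q3d thm_Q3c) thm_Q3e all_Q3f

theorem src_fil {p : ℕ} [hp : Fact p.Prime] {k : Type} [Field k] [Finite k] [CharP k p]
    {Y : Scheme.{0}} {π : Y ⟶ Spec (CommRingCat.of k)} (h : Src p k Y π) :
    AQFilK p k Y π Set.univ := by
  induction h with
  | fil Y π h => exact h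
  | fermat m n t hm hk Z i hi =>
    have ht : 1 ≤ t := by
      rcases Nat.eq_zero_or_pos t with rfl | h
      · rw [mul_zero, pow_zero] at hk
        have := Finite.one_lt_card (α := k)
        omega
      · exact h
    exact all_Q3 p m (p ^ m) t k ⟨hp.out, hm, rfl, ht, hk⟩ n Z i hi
  | prod Y Y' π π' _ _ ih ih' => exact all_Q1 p k Y Y' π π' ih ih'

theorem all_Src {p : ℕ} [Fact p.Prime] {X : Scheme.{0}}
    (π : X ⟶ Spec (CommRingCat.of (ZMod p))) [IsSeparated π] [LocallyOfFiniteType π]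
    [QuasiCompact π] {J : Type} [Finite J] (k : J → Type) [∀ j, Field (k j)] [∀ j, Finite (k j)]
    [∀ j, CharP (k j) p] (Y : J → Scheme.{0}) (σ : ∀ j, Y j ⟶ Spec (CommRingCat.of (k j)))
    (hY : ∀ j, Src p (k j) (Y j) (σ j)) (f : ∀ j, Y j ⟶ X) [∀ j, IsFinite (f j)] (N : ℕ)
    (hN : ∀ x : X, ∀ d : ℕ, (∀ j, ∀ y : Y j, f j y = x → d ∣ resDeg (f j) y) → d ∣ N) :
    ∃ G : AddSubgroup (K0 X), G.FG ∧ ∃ e : ℕ, ∀ x : K0 X, (p * N) ^ e • x ∈ G :=
  all_Fin p X π J Y f (fun j => thm_Q0 p (k j) (Y j) (σ j) Set.univ (src_fil (hY j))) N hN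

end Pool.Agent.KSS
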