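import Pool.Agent.KSS.Basic

/-!
# KSS: statements of the modules

Each module `X` proves `theorem thm_X (h… : St_…) : St_X` in `Pool/Agent/KSS/X.lean`
(namespace `Pool.Agent.KSS`), where the hypotheses may be any of the statements listed as `needs`.
-/

set_option autoImplicit false

noncomputable section

namespace Pool.Agent.KSS

open CategoryTheory AlgebraicGeometry TopologicalSpace Function Pool.Agent.Helper11

/-! ### sheaf side -/

/-- **S1** (2 h). Sections and exactness.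
(1) monomorphisms are injective on sections over every open set (`Modules.toPresheaf` preserves
limits, hence monomorphisms; monomorphisms of presheaves of abelian groups are injective).
(2) left exactness: `S.Exact`, `S.f` mono, `S.g s = 0` ⟹ `s` comes from `S.X₁` (the functor
`toPresheaf ⋙ evaluation` preserves limits, so `S.f`, a kernel of `S.g`, stays a kernel).
(3) if `φ` is surjective on sections over all affine opens then `φ` is epi (if `φ ≫ ψ = 0`, then
`ψ` is zero on affine sections, hence zero by separatedness; use `Preadditive.epi_of_cancel_zero`).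
(4) if all sections of `M` over affine open sets `W ≤ O` vanish then all sections over all
`W ≤ O` vanish.
(5) recognition of short exact sequences from affine sections: `S.f` mono: by (1) in presheaf form
or `Preadditive.mono_of_cancel_zero` + (4)-type argument; `S.g` epi by (3); exact in the middle:
`ShortComplex.exact_iff_epi_kernel_lift` and (3) and (2) applied to `kernel.ι S.g`.
needs: nothing -/
def St_S1 : Prop := ∀ (X : Scheme.{0}),
  (∀ (M N : X.Modules) (φ : M ⟶ N), Mono φ → ∀ U : X.Opens, Injective (ap φ U)) ∧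
  (∀ S : ShortComplex X.Modules, S.Exact → Mono S.f → ∀ (U : X.Opens) (s : Γ(S.X₂, U)),
    ap S.g U s = 0 → ∃ t, ap S.f U t = s) ∧
  (∀ (M N : X.Modules) (φ : M ⟶ N), (∀ U : X.Opens, IsAffineOpen U → Surjective (ap φ U)) →
    Epi φ) ∧
  (∀ (M : X.Modules) (O : X.Opens), Van O M → ∀ W : X.Opens, W ≤ O → ∀ s : Γ(M, W), s = 0) ∧
  (∀ S : ShortComplex X.Modules, (∀ U : X.Opens, IsAffineOpen U → Injective (ap S.f U)) →
    (∀ U : X.Opens, IsAffineOpen U → ∀ s : Γ(S.X₂, U), ap S.g U s = 0 → ∃ t, ap S.f U t = s) →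
    (∀ U : X.Opens, IsAffineOpen U → Surjective (ap S.g U)) → S.ShortExact)

/-- **S2** (4 h). Quasi-coherent = localizing. `→`: `M.restrict hU.fromSpec` is quasi-coherent on
`Spec Γ(X,U)`, so `isIso_fromTildeΓ_iff_isLocalizing` gives the statement (translate as in
`aux_basicOpen_of_aux_restrict` of Mathlib's Tilde.lean). `←`: for `U` affine the restriction along
`hU.fromSpec` is localizing, so is a `tilde`, which has a presentation (`presentationTilde`);
transport to `M.over U` by `overFunctorEquiv`, `overEquiv`, and use `QuasicoherentData`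
(reverse of `exists_isOpenCover_presentation`).
needs: nothing -/
def St_S2 : Prop := ∀ (X : Scheme.{0}) (M : X.Modules), M.IsQuasicoherent ↔ QLoc M

/-- **S3** (4 h). Sections over an affine open are exact on quasi-coherent sheaves.
Restrict along `hU.fromSpec` (`restrictFunctor` is a left adjoint and a right adjoint, so exact);
on `Spec R`: `S.X₁ ≅ tilde N'`, `S.X₂ ≅ tilde N` (`isIso_fromTildeΓ_of_isQuasicoherent`), `S.f`
corresponds to `a : N' → N` (`tilde.functor` is full), `S.X₃` is the cokernel of `S.f`, so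
isomorphic to `tilde (cokernel a)` as `tilde.functor` preserves cokernels, and on global sections
`N → cokernel a` is surjective. Quasi-coherence of `S.X₃`: this shows it is localizing
(`St_S2`), or directly.
needs: S1, S2 -/
def St_S3 : Prop := ∀ (X : Scheme.{0}) (S : ShortComplex X.Modules), S.ShortExact →
  S.X₁.IsQuasicoherent → S.X₂.IsQuasicoherent →
    S.X₃.IsQuasicoherent ∧ ∀ U : X.Opens, IsAffineOpen U → Surjective (ap S.g U)

/-- **S4** (3 h). Kernels, images, cokernels and fibre products of coherent sheaves.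
(1) kernel and image of `φ : M ⟶ N`, `M` coherent, `N` quasi-coherent: `K = kernel φ`,
`I = image φ` (e.g. `Abelian.coimage φ`/`cokernel (kernel.ι φ)`, `Abelian.factorThruImage`). The
kernel is localizing by an easy direct argument from left exactness; sections over affine opens:
submodules and quotients of finitely generated modules over the noetherian ring `Γ(X, U)`.
(2) cokernel of a mono between coherent sheaves.
(3) fibre product `P` of `u : F ⟶ E`, `u' : F' ⟶ E` (`F`, `F'` coherent, `E` quasi-coherent).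
needs: S1, S2, S3 -/
def St_S4 : Prop := ∀ (X : Scheme.{0}) [IsLocallyNoetherian X],
  (∀ (M N : X.Modules) (φ : M ⟶ N), IsCoh M → N.IsQuasicoherent →
    ∃ (K I : X.Modules) (ι : K ⟶ M) (π : M ⟶ I) (κ : I ⟶ N) (w : ι ≫ π = 0),
      IsCoh K ∧ IsCoh I ∧ (ShortComplex.mk ι π w).ShortExact ∧ π ≫ κ = φ ∧
      (∀ U : X.Opens, Injective (ap κ U)) ∧
      (∀ U : X.Opens, IsAffineOpen U → Surjective (ap π U)) ∧
      (∀ U : X.Opens, Injective (ap ι U)) ∧
      (∀ (U : X.Opens) (s : Γ(M, U)), ap φ U s = 0 ↔ ∃ t, ap ι U t = s)) ∧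
  (∀ (M N : X.Modules) (φ : M ⟶ N), IsCoh M → IsCoh N → (∀ U : X.Opens, Injective (ap φ U)) →
    ∃ (C : X.Modules) (ρ : N ⟶ C) (w : φ ≫ ρ = 0),
      IsCoh C ∧ (ShortComplex.mk φ ρ w).ShortExact ∧
      (∀ U : X.Opens, IsAffineOpen U → Surjective (ap ρ U)) ∧
      (∀ (U : X.Opens) (s : Γ(N, U)), ap ρ U s = 0 ↔ ∃ t, ap φ U t = s)) ∧
  (∀ (F F' E : X.Modules) (u : F ⟶ E) (u' : F' ⟶ E), IsCoh F → IsCoh F' → E.IsQuasicoherent →
    ∃ (P : X.Modules) (a : P ⟶ F) (b : P ⟶ F'), IsCoh P ∧ a ≫ u = b ≫ u' ∧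
      (∀ (U : X.Opens) (s s' : Γ(P, U)), ap a U s = ap a U s' → ap b U s = ap b U s' → s = s') ∧
      (∀ (U : X.Opens) (s : Γ(F, U)) (s' : Γ(F', U)), ap u U s = ap u' U s' →
        ∃ t, ap a U t = s ∧ ap b U t = s'))

/-- **S5** (1.5 h). Vanishing: (1) a localizing `M` with `Γ(M, U) = 0`, `U` affine, vanishes on
`U`; (2) vanishing on `O` and on `U` gives vanishing on `O ⊔ U`; (3) `Van ⊥ M`; (4) a sheaf
vanishing on `⊤` has class `0`: `M → M → M` with both maps zero is short exact by `St_S1` (5).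
(5) zero object: there is a coherent sheaf vanishing everywhere.
needs: S1, S2 -/
def St_S5 : Prop := ∀ (X : Scheme.{0}),
  (∀ (M : X.Modules) (U : X.Opens), M.IsQuasicoherent → IsAffineOpen U → (∀ s : Γ(M, U), s = 0) →
    Van U M) ∧
  (∀ (M : X.Modules) (O U : X.Opens), Van O M → Van U M → Van (O ⊔ U) M) ∧
  (∀ M : X.Modules, Van ⊥ M) ∧
  (∀ (M : X.Modules) (h : IsCoh M), Van ⊤ M → cl M h = 0) ∧
  (∃ Z : X.Modules, IsCoh Z ∧ Van ⊤ Z)

/-- **S6** (3 h). Pushforward along an affine morphism `f : Y ⟶ X`: quasi-coherence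
(through `St_S2`: `f ⁻¹ᵁ D(h) = D(f^* h)`), exactness on quasi-coherent sheaves (`St_S1` (5)),
coherence for finite `f`. (The module structure of `Γ(f_* M, U) = Γ(M, f ⁻¹ᵁ U)` is
`r • s = f.app U r • s` by `rfl`.)
needs: S1, S2, S3 -/
def St_S6 : Prop := ∀ (X Y : Scheme.{0}) (f : Y ⟶ X) [IsAffineHom f],
  (∀ M : Y.Modules, M.IsQuasicoherent → ((Scheme.Modules.pushforward f).obj M).IsQuasicoherent) ∧
  (∀ S : ShortComplex Y.Modules, S.ShortExact → S.X₁.IsQuasicoherent → S.X₂.IsQuasicoherent →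
    (S.map (Scheme.Modules.pushforward f)).ShortExact) ∧
  (IsFinite f → ∀ M : Y.Modules, IsCoh M → IsCoh ((Scheme.Modules.pushforward f).obj M))

/-- **S7** (5 h). The quasi-coherent sheaf `E = j_* (tilde N)` of a module `N` over `Γ(X, U)`,
`U` affine open in the separated scheme `X`, `j = hU.fromSpec : Spec Γ(X,U) ⟶ X` (affine by
`IsAffineHom.of_comp`). `ε` identifies `Γ(E, U)` with `N`; global sections restrict bijectively
to `U`; a linear map `Γ(F, U) → N` (`F` quasi-coherent) comes from a unique morphism `F ⟶ E`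
(adjunction `restrictAdjunction`, and `F.restrict j ≅ tilde Γ(F, U)`); `E` vanishes on `O` if every
`r` with `D(r) ≤ O` acts locally nilpotently on `N`.
needs: S1, S2, S6 -/
def St_S7 : Prop := ∀ (X : Scheme.{0}) [X.IsSeparated] (U : X.Opens), IsAffineOpen U →
  ∀ (N : Type) [AddCommGroup N] [Module Γ(X, U) N],
    ∃ (E : X.Modules) (ε : Γ(E, U) ≃ₗ[Γ(X, U)] N), E.IsQuasicoherent ∧
      Bijective (rM E (le_top : U ≤ ⊤)) ∧
      (∀ F : X.Modules, F.IsQuasicoherent → ∀ h : Γ(F, U) →ₗ[Γ(X, U)] N,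
        ∃ u : F ⟶ E, ∀ s, ε (ap u U s) = h s) ∧
      (∀ O : X.Opens, (∀ r : Γ(X, U), X.basicOpen r ≤ O → ∀ n : N, ∃ k : ℕ, r ^ k • n = 0) →
        Van O E)

/-- **S8** (4 h). Adding a section: `M` quasi-coherent on the locally noetherian scheme `X`,
`u : F ⟶ M` with `F` coherent, `m` a global section of `M`. There are a coherent `F₂`
and `u₂ : F₂ ⟶ M`, injective on sections, such that on affine opens the image of `u₂` is
the image of `u` plus the multiples of `m`. (Apply `St_S4` (1) to the morphism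
`F ⊞ 𝒪 ⟶ M` given by `u` and `m` (`SheafOfModules.unitHomEquiv`); `F ⊞ 𝒪` is coherent.)
needs: S1, S2, S3, S4 -/
def St_S8 : Prop := ∀ (X : Scheme.{0}) [IsLocallyNoetherian X] (M F : X.Modules) (u : F ⟶ M),
  IsCoh F → M.IsQuasicoherent → ∀ m : Γ(M, ⊤),
    ∃ (F₂ : X.Modules) (u₂ : F₂ ⟶ M), IsCoh F₂ ∧ (∀ W : X.Opens, Injective (ap u₂ W)) ∧
      ∀ W : X.Opens, IsAffineOpen W → ∀ s : Γ(M, W), (∃ t, ap u₂ W t = s) ↔
        ∃ (t : Γ(F, W)) (r : Γ(X, W)), s = ap u W t + r • rM M (le_top : W ≤ ⊤) m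

/-! ### K-theory side -/

/-- **K1** (1.5 h). A morphism `u : P ⟶ F` of coherent sheaves vanishing on `O` which is
bijective on sections over the affine open `U`: `[P] - [F]` is a combination of classes of
sheaves vanishing on `O ⊔ U` (kernel and cokernel).
needs: S4, S5 -/
def St_K1 : Prop := ∀ (X : Scheme.{0}) [IsLocallyNoetherian X] (O U : X.Opens) (P F : X.Modules)
  (hP : IsCoh P) (hF : IsCoh F) (u : P ⟶ F), IsAffineOpen U → Van O P → Van O F →
    Bijective (ap u U) → cl P hP - cl F hF ∈ SO (O ⊔ U)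

/-- The hypothesis on a surjection `g : Γ(X, U) → A`: the closed subscheme `Spec A` of `U` has the
underlying set `U ∖ O`. -/
def Cuts {X : Scheme.{0}} (U O : X.Opens) {A : Type} [CommRing A] (g : Γ(X, U) →+* A) : Prop :=
  Surjective g ∧ ∀ r : Γ(X, U), X.basicOpen r ≤ O ↔ IsNilpotent (g r)

/-- `F` is an extension of the `A`-module `N` on the closed subscheme `Spec A` of `U` to a coherent
sheaf on `X` which vanishes on `O`. -/
def IsExt {X : Scheme.{0}} (U O : X.Opens) {A : Type} [CommRing A] (g : Γ(X, U) →+* A)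
    (F : X.Modules) (N : FGMod A) : Prop :=
  Van O F ∧ ∃ e : Γ(F, U) ≃+ N, ∀ (r : Γ(X, U)) (s : Γ(F, U)), e (r • s) = g r • e s

/-- **K2** (2.5 h). Coherent extensions exist. Regard `N` as a `Γ(X, U)`-module
(`Module.compHom`), take `E` of `St_S7`, vanishing on `O` by `Cuts`; starting with the zero sheaf
add the finitely many generators of `N` by `St_S8` (lift them to global sections of `E`).
needs: S5, S7, S8 -/
def St_K2 : Prop := ∀ (X : Scheme.{0}) [X.IsSeparated] [IsLocallyNoetherian X] (U O : X.Opens),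
  IsAffineOpen U → ∀ (A : Type) [CommRing A] (g : Γ(X, U) →+* A), Cuts U O g →
    ∀ N : FGMod A, ∃ F : X.Modules, IsCoh F ∧ IsExt U O g F N

/-- **K3** (2 h). The class of an extension is well defined modulo `SO (O ⊔ U)`: with `E` of
`St_S7` for `N` and `u : F ⟶ E`, `u' : F' ⟶ E` lifting the identifications, the fibre product `P`
of `St_S4` maps to `F` and to `F'`, bijectively over `U`; apply `St_K1` twice.
needs: S4, S7, K1 -/
def St_K3 : Prop := ∀ (X : Scheme.{0}) [X.IsSeparated] [IsLocallyNoetherian X] (U O : X.Opens),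
  IsAffineOpen U → ∀ (A : Type) [CommRing A] (g : Γ(X, U) →+* A), Cuts U O g →
    ∀ (N : FGMod A) (F F' : X.Modules) (hF : IsCoh F) (hF' : IsCoh F'), IsExt U O g F N →
      IsExt U O g F' N → cl F hF - cl F' hF' ∈ SO (O ⊔ U)

/-- **K4** (2.5 h). The homomorphism `G₀(A) → K'₀(X) / SO (O ⊔ U)`, `[N] ↦ [F]`, `F` an extension of
`N`. Additivity for `0 → N' → N → N'' → 0` (maps `f`, `q`): `F` an extension of `N` by `e`, `E` of
`St_S7` for `N''`, `u : F ⟶ E` with `ε ∘ u = q ∘ e` over `U`; kernel and image of `u` (`St_S4` (1))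
are extensions of `N'` and `N''`. Use `G0.lift`.
needs: S4, S7, K2, K3 -/
def St_K4 : Prop := ∀ (X : Scheme.{0}) [X.IsSeparated] [IsLocallyNoetherian X] (U O : X.Opens),
  IsAffineOpen U → ∀ (A : Type) [CommRing A] (g : Γ(X, U) →+* A), Cuts U O g →
    ∃ φ : G0 A →+ K0 X ⧸ SO (O ⊔ U), ∀ (N : FGMod A) (F : X.Modules) (hF : IsCoh F),
      IsExt U O g F N → φ (G0.mk N) = QuotientAddGroup.mk (cl F hF)

/-- **K5** (2.5 h). Devissage: the classes of the coherent sheaves `F` vanishing on `O` are in the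
image of `φ`. `I = ker g`; for `r ∈ I` we have `D(r) ≤ O` so `r` is nilpotent on the finitely
generated `Γ(F, U)`, `I` is finitely generated, so `I ^ n Γ(F, U) = 0`. Induction on `n`:
`n = 0`: `Van U F`, `Van (O ⊔ U) F` (`St_S5`). Step: `N = Γ(F,U) / I Γ(F,U)` is a finitely generated
`A`-module, `E` of `St_S7` for `N`, `u : F ⟶ E` with `ε ∘ u` the quotient map; image of `u` is an
extension of `N`, kernel `K` has `Γ(K, U) = I Γ(F, U)`.
needs: S4, S5, S7 -/
def St_K5 : Prop := ∀ (X : Scheme.{0}) [X.IsSeparated] [IsLocallyNoetherian X] (U O : X.Opens),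
  IsAffineOpen U → ∀ (A : Type) [CommRing A] (g : Γ(X, U) →+* A), Cuts U O g →
    ∀ φ : G0 A →+ K0 X ⧸ SO (O ⊔ U), (∀ (N : FGMod A) (F : X.Modules) (hF : IsCoh F),
      IsExt U O g F N → φ (G0.mk N) = QuotientAddGroup.mk (cl F hF)) →
    ∀ x ∈ SO O, ∃ a, φ a = QuotientAddGroup.mk x

/-- **K6** (1.5 h). The pushforward `K'₀(Y) → K'₀(X)` of a finite morphism (`K0lift`), and supports.
(`f ⁻¹ᵁ W` is affine for `W` affine.)
needs: S6, S3 -/
def St_K6 : Prop := ∀ (X Y : Scheme.{0}) (f : Y ⟶ X) [IsFinite f],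
  ∃ (fs : K0 Y →+ K0 X) (hc : ∀ M : Y.Modules, IsCoh M →
      IsCoh ((Scheme.Modules.pushforward f).obj M)),
    (∀ (M : Y.Modules) (hM : IsCoh M),
      fs (cl M hM) = cl ((Scheme.Modules.pushforward f).obj M) (hc M hM)) ∧
    ∀ O : X.Opens, ∀ y ∈ SO (f ⁻¹ᵁ O), fs y ∈ SO O

/-! ### rings -/

/-- **R1** (4 h). Domination for rings. `A` noetherian of Krull dimension `≤ n`, `ψ_j : A → B_j`
finite, such that at every prime `P` of `A` the gcd of the ranks over `P` divides `N`. Then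
`N ^ (n + 1) G₀(A) ⊆ ∑ res G₀(B_j)`. Proof: `G₀(A)` is generated by the `[A/P]`
(`IsNoetherianRing.induction_on_isQuotientEquivQuotientPrime`). By induction on the coheight of `P`
in `PrimeSpectrum A`: for `Q` over `P`, `B_j/Q` is a finitely generated `A/P`-module of rank
`rkQ`, so `res [B_j/Q] - rkQ [A/P]` is a combination of `[A/P']`, `P' > P` (take
`(A/P)^r → B_j/Q` injective with torsion cokernel, and a prime filtration of the cokernel). The
subgroup of `ℤ` generated by all the `rkQ` over `P` is `dℤ` with `d ∣ N`, so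
`N [A/P] ∈ ∑ res + ∑_{P' > P} ℤ [A/P']`. Multiply by `N ^ (coheight)`.
needs: nothing -/
def St_R1 : Prop := ∀ (A : Type) [CommRing A] [IsNoetherianRing A] (n : ℕ), ringKrullDim A ≤ n →
  ∀ (J : Type) [Finite J] (B : J → Type) [∀ j, CommRing (B j)] (ψ : ∀ j, A →+* B j)
    (hψ : ∀ j, (ψ j).Finite) (N : ℕ),
    (∀ P : Ideal A, P.IsPrime → ∀ d : ℕ, (∀ j, ∀ Q : Ideal (B j), Q.IsPrime →
      Q.comap (ψ j) = P → d ∣ rkQ (ψ j) Q) → d ∣ N) →
    ∃ e : ℕ, ∀ a : G0 A, N ^ e • a ∈ ⨆ j, (resF (ψ j) (hψ j)).range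

/-- **R2** (4 h). Degrees of residue fields: for `U` affine open in `X`, an ideal `I` of `Γ(X, U)`
and a prime `P` of `Γ(X, U) / I` there is a point `x` of `X` (of `U`) such that for all finite
`f : Y ⟶ X` and all `y` over `x` there is a prime `Q` of
`Γ(Y, f ⁻¹ᵁ U) / I` over `P`, of rank the degree of the residue field of `y` over that of `x`.
(`κ(x)` is the fraction field of `Γ(X, U) / 𝔭_x`; `IsAffineOpen.isLocalization_stalk`,
`Scheme.evaluation`, `Module.finrank` and localization.)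
needs: nothing -/
def St_R2 : Prop := ∀ (X : Scheme.{0}) (U : X.Opens), IsAffineOpen U → ∀ (I : Ideal Γ(X, U))
  (P : Ideal (Γ(X, U) ⧸ I)), P.IsPrime → ∃ x : X, ∀ (Y : Scheme.{0}) (f : Y ⟶ X) [IsFinite f]
    (y : Y), f y = x → ∃ Q : Ideal (Γ(Y, f ⁻¹ᵁ U) ⧸ I.map (f.app U).hom), Q.IsPrime ∧
      Q.comap (Ideal.quotientMap (I.map (f.app U).hom) (f.app U).hom Ideal.le_comap_map) = P ∧
      rkQ (Ideal.quotientMap (I.map (f.app U).hom) (f.app U).hom Ideal.le_comap_map) Q =
        resDeg f y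

/-- the ideal of the functions on `U` whose non-vanishing locus is contained in `O` -/
def idO {X : Scheme.{0}} (U O : X.Opens) : Ideal Γ(X, U) where
  carrier := {r | X.basicOpen r ≤ O}
  zero_mem' := by
    show X.basicOpen (0 : Γ(X, U)) ≤ O
    rw [Scheme.basicOpen_zero]
    exact bot_le
  add_mem' {a b} ha hb := (X.basicOpen_add_le a b).trans (sup_le ha hb)
  smul_mem' c x hx := by
    show X.basicOpen (c * x) ≤ O
    rw [Scheme.basicOpen_mul]
    exact inf_le_right.trans hx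

/-- **R3** (2.5 h). `Cuts` for the ideal `idO U O` and for its extension along an affine morphism;
the radical of `I Γ(Y, f ⁻¹ᵁ U)` consists of the functions `s` with `D(s) ≤ f ⁻¹ᵁ O`: if
`D(s) ≤ f ⁻¹ᵁ (O ⊓ U) = ⋃_{r ∈ I} D(f^* r)` then `s` is in the radical (translate to
`PrimeSpectrum`, `IsAffineOpen`).
needs: nothing -/
def St_R3 : Prop := ∀ (X : Scheme.{0}) (U O : X.Opens), IsAffineOpen U →
  Cuts U O (Ideal.Quotient.mk (idO U O)) ∧
  ∀ (Y : Scheme.{0}) (f : Y ⟶ X) [IsAffineHom f],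
    Cuts (f ⁻¹ᵁ U) (f ⁻¹ᵁ O) (Ideal.Quotient.mk ((idO U O).map (f.app U).hom))

/-- **R4** (1.5 h). Finite dimension: on a scheme of finite type over a field, the rings
`Γ(X, U) / I`, `U` affine open, are noetherian of finite Krull dimension
(quotient of `MvPolynomial (Fin m) (ZMod p)`, `MvPolynomial.ringKrullDim_of_isNoetherianRing`,
`ringKrullDim_le_of_surjective`).
needs: nothing -/
def St_R4 : Prop := ∀ (p : ℕ) [Fact p.Prime] (X : Scheme.{0})
  (π : X ⟶ Spec (CommRingCat.of (ZMod p))) [LocallyOfFiniteType π] (U : X.Opens),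
    IsAffineOpen U → ∀ I : Ideal Γ(X, U), IsNoetherianRing (Γ(X, U) ⧸ I) ∧
      ∃ n : ℕ, ringKrullDim (Γ(X, U) ⧸ I) ≤ n

/-- **R5** (1.5 h). Additive-quadratic rings are good (`Pool.Agent.AQS.all_Fin`, `GoodP.of_equiv`),
and the surjection of a closed immersion of `Spec V` in an affine open subscheme satisfies
`Cuts` for the complement of the closed set.
needs: nothing (import `Pool.Agent.AQS.All`) -/
def St_R5 : Prop := (∀ (p : ℕ) [Fact p.Prime] (V : Type) [CommRing V], IsAQ p V →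
    Pool.Agent.HPow.GoodP p V) ∧
  ∀ (Y : Scheme.{0}) (U : Y.Opens), IsAffineOpen U → ∀ (V : CommRingCat.{0})
    (i : Spec V ⟶ U.toScheme) [IsClosedImmersion i] (O : Y.Opens),
    ((O : Set Y)ᶜ ∩ U = Set.range (i ≫ U.ι)) → ∃ g : Γ(Y, U) →+* V, Cuts U O g

/-! ### assembly -/

/-- **T1** (2 h). Filtered schemes are good: induction over `AQFil`.
`St_K4`, `St_K5` with `O = T'ᶜ`; `SO (O ⊔ U) ≤ SO Tᶜ`.
needs: S5, K4, K5, R5 -/
def St_T1 : Prop := ∀ (p : ℕ) [Fact p.Prime] (Y : Scheme.{0}) [Y.IsSeparated]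
  [IsLocallyNoetherian Y], AQFil p Y Set.univ →
    ∃ G : AddSubgroup (K0 Y), G.FG ∧ ∃ e : ℕ, ∀ x : K0 Y, p ^ e • x ∈ G

/-- The ranges of the pushforwards. -/
def St_T2hyp {X : Scheme.{0}} {J : Type} (Y : J → Scheme.{0}) (f : ∀ j, Y j ⟶ X)
    (fs : ∀ j, K0 (Y j) →+ K0 X) : Prop :=
  ∀ j, ∃ hc : ∀ M : (Y j).Modules, IsCoh M → IsCoh ((Scheme.Modules.pushforward (f j)).obj M),
    (∀ (M : (Y j).Modules) (hM : IsCoh M),
      fs j (cl M hM) = cl ((Scheme.Modules.pushforward (f j)).obj M) (hc M hM)) ∧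
    ∀ O : X.Opens, ∀ y ∈ SO ((f j) ⁻¹ᵁ O), fs j y ∈ SO O

/-- **T2** (3 h). The domination step for one affine open `U`. With
`A = Γ(X,U) / idO U O`, `B_j = Γ(Y_j, f_j⁻¹ U) / (idO U O)`, `St_R1`, `St_R2`, `St_R3`, `St_K4`,
`St_K5` for `X` and `St_K4`, `St_K2` for the `Y_j`, compatible by the characterization.
needs: K2, K4, K5, R1, R2, R3 -/
def St_T2 : Prop := ∀ (X : Scheme.{0}) [X.IsSeparated] [IsLocallyNoetherian X] (U O : X.Opens),
  IsAffineOpen U → IsNoetherianRing (Γ(X, U) ⧸ idO U O) →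
  (∃ n : ℕ, ringKrullDim (Γ(X, U) ⧸ idO U O) ≤ n) →
  ∀ (J : Type) [Finite J] (Y : J → Scheme.{0}) (f : ∀ j, Y j ⟶ X) [∀ j, IsFinite (f j)]
    (fs : ∀ j, K0 (Y j) →+ K0 X), St_T2hyp Y f fs → ∀ N : ℕ,
    (∀ x : X, ∀ d : ℕ, (∀ j, ∀ y : Y j, f j y = x → d ∣ resDeg (f j) y) → d ∣ N) →
    ∃ e : ℕ, ∀ x ∈ SO O, N ^ e • x ∈ (⨆ j, (fs j).range) ⊔ SO (O ⊔ U)

/-- **T3** (1.5 h). Noetherian induction over the opens `O`, from `⊤` down to `⊥`.
needs: S5, K6, R4, T2 -/
def St_T3 : Prop := ∀ (p : ℕ) [Fact p.Prime] (X : Scheme.{0})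
  (π : X ⟶ Spec (CommRingCat.of (ZMod p))) [IsSeparated π] [LocallyOfFiniteType π]
  [QuasiCompact π] (J : Type) [Finite J] (Y : J → Scheme.{0}) (f : ∀ j, Y j ⟶ X)
  [∀ j, IsFinite (f j)] (N : ℕ),
    (∀ x : X, ∀ d : ℕ, (∀ j, ∀ y : Y j, f j y = x → d ∣ resDeg (f j) y) → d ∣ N) →
    ∃ fs : ∀ j, K0 (Y j) →+ K0 X, ∃ e : ℕ, ∀ x : K0 X, N ^ e • x ∈ ⨆ j, (fs j).range

/-- **Fin** (1 h). The theorem.
needs: T1, T3 -/
def St_Fin : Prop := ∀ (p : ℕ) [Fact p.Prime] (X : Scheme.{0})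
  (π : X ⟶ Spec (CommRingCat.of (ZMod p))) [IsSeparated π] [LocallyOfFiniteType π]
  [QuasiCompact π] (J : Type) [Finite J] (Y : J → Scheme.{0}) (f : ∀ j, Y j ⟶ X)
  [∀ j, IsFinite (f j)], (∀ j, AQFil p (Y j) Set.univ) → ∀ N : ℕ,
    (∀ x : X, ∀ d : ℕ, (∀ j, ∀ y : Y j, f j y = x → d ∣ resDeg (f j) y) → d ∣ N) →
    ∃ G : AddSubgroup (K0 X), G.FG ∧ ∃ e : ℕ, ∀ x : K0 X, (p * N) ^ e • x ∈ G

end Pool.Agent.KSS
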